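import Pool.Agent.Q103.OP.Defs
import Pool.Agent.Results.MP_9b502d_nt.LargeCriticalHeight
import Pool.Agent.Y706.CH.Bdg2
import Pool.Agent.Y833.CH.Ext
import Pool.Agent.Y706.CH.Gon
import Pool.Agent.Y706.CH.Fm2

/-!
# Project OP: strong uniform boundedness from LCA
-/

set_option autoImplicit false

namespace Pool.Agent.Q103.OP.Fin

open Pool.Agent.Q103.OP Polynomial NumberField

universe u v

theorem fin2 : Pool.Agent.Y706.CH7.S_FIN2.{u, v} := by
  have e5 : ∀ (K : Type u) [Field K] (p q : K[X]) (d : ℕ),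
      Pool.Agent.Results.MP_9b502d_nt.LargeCriticalHeight.mapP1 p q d =
        Pool.Agent.W277.UH.ratP1 p q d := by
    intro K _ p q d
    funext z
    cases z <;> rfl
  obtain ⟨N, hN⟩ := Pool.Agent.Results.MP_9b502d_nt.LargeCriticalHeight.result.{u, v}
  refine ⟨N, ?_⟩
  intro k L _ _ _ _ t ht hfd n d B hn hd p q hco hmax hlch
  have h := hN k L t ht hfd n d B hn hd p q hco hmax (Or.inl (by
    obtain ⟨M, i1, i2, i3, i4, i5, i6, u, w, h1, h2, h3, h4, c, h5, h6, h7⟩ := hlch
    have e6 : ∀ z : Option M,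
        Pool.Agent.Results.MP_9b502d_nt.LargeCriticalHeight.height k z =
          Pool.Agent.Y706.CH7.height k z := by
      intro z
      cases z <;> rfl
    have e7 : Pool.Agent.Results.MP_9b502d_nt.LargeCriticalHeight.mapHeight k u w d =
        Pool.Agent.Y706.CH7.mapHeight k u w d := by
      unfold Pool.Agent.Results.MP_9b502d_nt.LargeCriticalHeight.mapHeight
        Pool.Agent.Y706.CH7.mapHeight
      simp only [e6]
    have e8 : Pool.Agent.Results.MP_9b502d_nt.LargeCriticalHeight.canonicalHeight k u w d c =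
        Pool.Agent.Y706.CH7.canHeight k u w d c := by
      unfold Pool.Agent.Results.MP_9b502d_nt.LargeCriticalHeight.canonicalHeight
        Pool.Agent.Y706.CH7.canHeight
      rw [e5]
      simp only [e6]
    refine ⟨M, i1, i2, i3, i4, i5, i6, u, w, h1, h2, h3, h4, c, ?_, ?_, ?_⟩
    · cases c <;> exact h5
    · rw [e7]
      exact h6
    · rw [e7, e8]
      exact h7))
  rw [e5] at h
  exact h

/-- points of bounded degree, all maps except the Lattes maps -/
theorem sub (hLCA : S_LCA.{u, v}) : ∃ N : ℕ → ℕ → ℕ → ℕ, ∀ (k : Type v) (L : Type u) [Field k]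
    [CharZero k] [Field L] [Algebra k L] (t : L), Transcendental k t →
    FiniteDimensional (IntermediateField.adjoin k {t}) L →
    ∀ (n D d : ℕ), Module.finrank (IntermediateField.adjoin k {t}) L ≤ n → 2 ≤ d →
    ∀ p q : L[X], Rat d p q →
    ¬ Pool.Agent.Y706.BI.IsoAlg k (p.map (algebraMap L (AlgebraicClosure L)))
      (q.map (algebraMap L (AlgebraicClosure L))) d →
    ¬ Lat d (p.map (algebraMap L (AlgebraicClosure L)))
      (q.map (algebraMap L (AlgebraicClosure L))) →
    {z : Option (AlgebraicClosure L) | (Set.range fun m : ℕ =>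
        (Pool.Agent.W277.UH.ratP1 (p.map (algebraMap L (AlgebraicClosure L)))
          (q.map (algebraMap L (AlgebraicClosure L))) d)^[m] z).Finite ∧
      ∀ x, z = some x → (minpoly L x).natDegree ≤ D}.encard ≤ ((N n D d : ℕ) : ℕ∞) := by
  obtain ⟨N, hN⟩ := Pool.Agent.Y706.CH7.bdg2 fin2.{u, v} Pool.Agent.Y706.CH7.t_BDC
    (Pool.Agent.Y833.CH.t_EXT Pool.Agent.Y555.CH.t_HTE)
  have hB : ∀ n d : ℕ, ∃ B : ℕ, 2 ≤ d → ∀ (k : Type v) (L : Type u) [Field k]
      [CharZero k] [Field L] [Algebra k L] (t : L), Transcendental k t →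
      FiniteDimensional (IntermediateField.adjoin k {t}) L →
      Module.finrank (IntermediateField.adjoin k {t}) L ≤ n → ∀ p q : L[X], Rat d p q →
      ¬ Pool.Agent.Y706.BI.IsoAlg k (p.map (algebraMap L (AlgebraicClosure L)))
        (q.map (algebraMap L (AlgebraicClosure L))) d →
      ¬ Lat d (p.map (algebraMap L (AlgebraicClosure L)))
        (q.map (algebraMap L (AlgebraicClosure L))) → Pool.Agent.Y706.CH7.LCH k p q d B := by
    intro n d
    by_cases hd : 2 ≤ d
    · obtain ⟨B, hB⟩ := hLCA n d hd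
      exact ⟨B, fun _ => hB⟩
    · exact ⟨0, fun h => absurd h hd⟩
  choose B hB using hB
  refine ⟨fun n D d => N n D d (B n d), ?_⟩
  intro k L _ _ _ _ t ht hfd n D d hn hd p q hpq hiso hlat
  have h := hN k L t ht hfd n D d (B n d) hn hd p q hpq.1 hpq.2
    (hB n d hd k L t ht hfd hn p q hpq hiso hlat)
  refine le_trans (Set.encard_le_encard ?_) h
  rintro z ⟨hz, hz'⟩
  refine ⟨hz, fun x hx => ?_⟩
  have hint : IsIntegral L x := (Algebra.IsAlgebraic.isAlgebraic x).isIntegral
  refine ⟨IntermediateField.adjoin L {x}, IntermediateField.adjoin.finiteDimensional hint, ?_,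
    IntermediateField.mem_adjoin_simple_self L x⟩
  rw [IntermediateField.adjoin.finrank hint]
  exact hz' x hx

/-- Lattes maps in extensions -/
lemma Lat_map {K L : Type*} [Field K] [Field L] (φ : K →+* L) {d : ℕ} {p q : K[X]}
    (h : Lat d p q) : Lat d (p.map φ) (q.map φ) := by
  obtain ⟨e, r, s, hr, hs, hre, hse, hid⟩ := h
  have hhc : ∀ A P Q : K[X], (Pool.Agent.W277.UH.hc e A P Q).map φ =
      Pool.Agent.W277.UH.hc e (A.map φ) (P.map φ) (Q.map φ) := by
    intro A P Q
    unfold Pool.Agent.W277.UH.hc Pool.Agent.W277.UH.hev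
    rw [Polynomial.map_sum]
    exact Finset.sum_congr rfl fun i _ => by simp
  have hW : (Wr p q).map φ = Wr (p.map φ) (q.map φ) := by
    unfold Wr
    rw [Polynomial.map_sub, Polynomial.map_mul, Polynomial.map_mul, derivative_map, derivative_map]
  refine ⟨e, r.map φ, s.map φ, (Polynomial.map_ne_zero_iff φ.injective).mpr hr,
    (Polynomial.map_ne_zero_iff φ.injective).mpr hs, natDegree_map_le.trans hre,
    natDegree_map_le.trans hse, ?_⟩
  have h1 := congrArg (Polynomial.map φ) hid
  rw [Polynomial.map_mul, Polynomial.map_mul, Polynomial.map_pow, Polynomial.map_mul,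
    Polynomial.map_mul, Polynomial.map_mul, Polynomial.map_pow, hhc, hhc, hW, Polynomial.map_C,
    map_natCast] at h1
  exact h1

/-- from a closure of `E` to an algebraically closed field which contains `E` -/
lemma up_closure {k : Type*} {E F : Type u} [Field k] [Field E] [Field F] [Algebra k E]
    [Algebra k F] [Algebra E F] [IsScalarTower k E F] [IsAlgClosed F] {d : ℕ} {p q : E[X]} :
    (Pool.Agent.Y706.BI.IsoAlg k (p.map (algebraMap E (AlgebraicClosure E)))
      (q.map (algebraMap E (AlgebraicClosure E))) d →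
      Pool.Agent.Y706.BI.IsoAlg k (p.map (algebraMap E F)) (q.map (algebraMap E F)) d) ∧
    (Lat d (p.map (algebraMap E (AlgebraicClosure E)))
      (q.map (algebraMap E (AlgebraicClosure E))) →
      Lat d (p.map (algebraMap E F)) (q.map (algebraMap E F))) := by
  let j : AlgebraicClosure E →ₐ[E] F := IsAlgClosed.lift
  have h2 : ∀ g : E[X], (g.map (algebraMap E (AlgebraicClosure E))).map (j : _ →+* F) =
      g.map (algebraMap E F) := by
    intro g
    rw [Polynomial.map_map]
    congr 1
    exact j.comp_algebraMap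
  refine ⟨fun h => ?_, fun h => ?_⟩
  · have h1 := Pool.Agent.Y31.BI.isoAlg_map (j.restrictScalars k) h
    have e1 : ((j.restrictScalars k : AlgebraicClosure E →ₐ[k] F) :
      AlgebraicClosure E →+* F) = (j : AlgebraicClosure E →+* F) := rfl
    rw [e1, h2, h2] at h1
    exact h1
  · have h1 := Lat_map (j : AlgebraicClosure E →+* F) h
    rw [h2, h2] at h1
    exact h1

/-- points of bounded gonality -/
theorem gon (hLCA : S_LCA.{u, v}) : ∃ N : ℕ → ℕ → ℕ, ∀ (k : Type v) (K : Type u) [Field k]
    [CharZero k] [Field K] [Algebra k K] (D d : ℕ), 2 ≤ d → ∀ p q : K[X], Rat d p q →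
    ¬ Pool.Agent.Y706.BI.IsoAlg k (p.map (algebraMap K (AlgebraicClosure K)))
      (q.map (algebraMap K (AlgebraicClosure K))) d →
    ¬ Lat d (p.map (algebraMap K (AlgebraicClosure K)))
      (q.map (algebraMap K (AlgebraicClosure K))) →
    {z : Option (AlgebraicClosure K) | (Set.range fun m : ℕ =>
        (Pool.Agent.W277.UH.ratP1 (p.map (algebraMap K (AlgebraicClosure K)))
          (q.map (algebraMap K (AlgebraicClosure K))) d)^[m] z).Finite ∧
      ∃ t : IntermediateField.adjoin K {x | z = some x}, Transcendental k t ∧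
        FiniteDimensional (IntermediateField.adjoin k {t})
          (IntermediateField.adjoin K {x | z = some x}) ∧
        Module.finrank (IntermediateField.adjoin k {t})
          (IntermediateField.adjoin K {x | z = some x}) ≤ D}.encard ≤
      ((N D d : ℕ) : ℕ∞) := by
  obtain ⟨N, hN⟩ := fin2.{u, v}
  have hB : ∀ n d : ℕ, ∃ B : ℕ, 2 ≤ d → ∀ (k : Type v) (L : Type u) [Field k]
      [CharZero k] [Field L] [Algebra k L] (t : L), Transcendental k t →
      FiniteDimensional (IntermediateField.adjoin k {t}) L →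
      Module.finrank (IntermediateField.adjoin k {t}) L ≤ n → ∀ p q : L[X], Rat d p q →
      ¬ Pool.Agent.Y706.BI.IsoAlg k (p.map (algebraMap L (AlgebraicClosure L)))
        (q.map (algebraMap L (AlgebraicClosure L))) d →
      ¬ Lat d (p.map (algebraMap L (AlgebraicClosure L)))
        (q.map (algebraMap L (AlgebraicClosure L))) → Pool.Agent.Y706.CH7.LCH k p q d B := by
    intro n d
    by_cases hd : 2 ≤ d
    · obtain ⟨B, hB⟩ := hLCA n d hd
      exact ⟨B, fun _ => hB⟩
    · exact ⟨0, fun h => absurd h hd⟩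
  choose B hB using hB
  refine ⟨fun D d => (N D d (B D d) + 1) * ((N D d (B D d) + 1) * (2 * d ^ (N D d (B D d)) + 1)),
    ?_⟩
  intro k K _ _ _ _ D d hd p q hpq hiso hlat
  refine Pool.Agent.Y706.CH7.gonc D d (N D d (B D d)) hd p q hpq.1 hpq.2 ?_
  intro E hE t ht hfd hD
  have hkEF : IsScalarTower k E (AlgebraicClosure K) := IsScalarTower.of_algebraMap_eq fun x => rfl
  have hmm : ∀ g : K[X], (g.map (algebraMap K E)).map (algebraMap E (AlgebraicClosure K)) =
      g.map (algebraMap K (AlgebraicClosure K)) := by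
    intro g
    rw [Polynomial.map_map, ← IsScalarTower.algebraMap_eq]
  have hpqE : Rat d (p.map (algebraMap K E)) (q.map (algebraMap K E)) :=
    ⟨hpq.1.map (Polynomial.mapRingHom (algebraMap K E)),
      Pool.Agent.Y706.CH7.deg_map p q d hpq.2⟩
  refine hN k E t ht hfd D d (B D d) hD hd _ _ hpqE.1 hpqE.2
    (hB D d hd k E t ht hfd hD _ _ hpqE ?_ ?_)
  · intro h
    apply hiso
    have h1 := (up_closure (F := AlgebraicClosure K)).1 h
    rw [hmm, hmm] at h1
    exact h1
  · intro h
    apply hlat
    have h1 := (up_closure (k := k) (F := AlgebraicClosure K)).2 h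
    rw [hmm, hmm] at h1
    exact h1

end Pool.Agent.Q103.OP.Fin
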