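import Pool.Agent.Q103.OP.Ulb
import Pool.Agent.Y555.CH.Ext

/-!
# Project OP: LCA (maps which are neither isotrivial nor Lattes have large critical height)
-/

set_option autoImplicit false

namespace Pool.Agent.Q103.OP.Lca

open Pool.Agent.Q103.OP Pool.Agent.Q103.OP.Bas Pool.Agent.Q103.OP.Ulb Finset Polynomial
open Pool.Agent.W277.UH
open Pool.Agent.Y706.CH (bK)

universe u v

/-- scaling the starting vector does not change the multiplier -/
lemma mlt_smul {K : Type*} [Field K] {d : ℕ} (hd : 2 ≤ d) {p q : K[X]} {m : ℕ} (Z : K × K)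
    (μ : K) {t : K} (ht : t ≠ 0) :
    mlt d p q m (t • Z) (t ^ (d ^ m - 1) * μ) = mlt d p q m Z μ := by
  have hd1 : 1 ≤ d := by omega
  have h1 : ∏ j ∈ range m, Jv d p q ((bK d p q)^[j] (t • Z)) =
      t ^ (2 * (d ^ m - 1)) * ∏ j ∈ range m, Jv d p q ((bK d p q)^[j] Z) := by
    have h2 : ∀ j, Jv d p q ((bK d p q)^[j] (t • Z)) =
        t ^ (d ^ j * (2 * d - 2)) * Jv d p q ((bK d p q)^[j] Z) := by
      intro j
      rw [iter_smul, Jv_smul, ← pow_mul]
    simp only [h2]
    rw [Finset.prod_mul_distrib, Finset.prod_pow_eq_pow_sum]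
    congr 2
    have h3 : ∀ n : ℕ, ∑ j ∈ range n, d ^ j * (2 * d - 2) = 2 * (d ^ n - 1) := by
      intro n
      induction n with
      | zero => simp
      | succ n ih =>
        rw [Finset.sum_range_succ, ih, pow_succ]
        have hp : 1 ≤ d ^ n := Nat.one_le_pow _ _ (by omega)
        have hp' : d ^ n ≤ d ^ n * d := Nat.le_mul_of_pos_right _ (by omega)
        obtain ⟨e, he⟩ : ∃ e, d = e + 2 := ⟨d - 2, by omega⟩
        subst he
        have e1 : 2 * (e + 2) - 2 = 2 * (e + 1) := by omega
        rw [e1]
        obtain ⟨f, hf⟩ : ∃ f, (e + 2) ^ n = f + 1 := ⟨(e + 2) ^ n - 1, by omega⟩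
        rw [hf]
        have e2 : (f + 1) * (e + 2) - 1 = f * (e + 1) + f + (e + 1) := by
          have : (f + 1) * (e + 2) = f * (e + 1) + f + (e + 1) + 1 := by ring
          omega
        rw [e2]
        have e3 : f + 1 - 1 = f := by omega
        rw [e3]
        ring
    exact h3 m
  unfold mlt
  rw [h1, mul_pow, ← pow_mul, mul_comm (d ^ m - 1) 2]
  exact mul_div_mul_left _ _ (pow_ne_zero _ ht)

/-- degrees of finitely generated extensions -/
lemma adj_deg {L M : Type*} [Field L] [Field M] [Algebra L M] (D : ℕ) 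
    (T : Finset M) (hT : ∀ t ∈ T, IsIntegral L t ∧
      Module.finrank L (IntermediateField.adjoin L {t}) ≤ D) :
    FiniteDimensional L (IntermediateField.adjoin L (T : Set M)) ∧
      Module.finrank L (IntermediateField.adjoin L (T : Set M)) ≤ D ^ T.card := by
  classical
  induction T using Finset.induction_on with
  | empty =>
    rw [Finset.coe_empty, IntermediateField.adjoin_empty]
    refine ⟨inferInstance, ?_⟩
    simp
  | insert a S ha ih =>
    obtain ⟨i1, i2⟩ := ih fun x hx => hT x (mem_insert_of_mem hx)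
    have h1 : IntermediateField.adjoin L ((insert a S : Finset M) : Set M) =
        IntermediateField.adjoin L {a} ⊔ IntermediateField.adjoin L (S : Set M) := by
      rw [Finset.coe_insert, Set.insert_eq, IntermediateField.adjoin_union]
    obtain ⟨hint, hdeg⟩ := hT a (mem_insert_self _ _)
    have := IntermediateField.adjoin.finiteDimensional hint
    rw [h1]
    refine ⟨inferInstance, ?_⟩
    refine (IntermediateField.finrank_sup_le _ _).trans ?_
    rw [card_insert_of_notMem ha, pow_succ']
    exact Nat.mul_le_mul hdeg i2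

/-- lifting polynomials to a subfield -/
lemma liftE {L M : Type*} [Field L] [Field M] [Algebra L M] (E : IntermediateField L M)
    (f : Polynomial M) (hf : ∀ n, f.coeff n ∈ E) : ∃ g : Polynomial E,
    g.map (algebraMap E M) = f := by
  apply (Polynomial.mem_lifts _).mp
  rw [Polynomial.lifts_iff_coeff_lifts]
  exact fun n => ⟨⟨f.coeff n, hf n⟩, rfl⟩

/-- the conjugation identity as an identity of polynomials -/
lemma conj_poly {K : Type*} [Field K] [CharZero K] {d : ℕ} {a b c e s : K} {p q u w : K[X]}
    (hp : p.natDegree ≤ d) (hq : q.natDegree ≤ d)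
    (h : ∀ Z : K × K, bK d u w (lm a b c e Z) = s • lm a b c e (bK d p q Z)) :
    ∑ i ∈ Finset.range (d + 1),
      C (u.coeff i) * (C a * X + C b) ^ i * (C c * X + C e) ^ (d - i) =
        C s * (C a * p + C b * q) ∧
    ∑ i ∈ Finset.range (d + 1),
      C (w.coeff i) * (C a * X + C b) ^ i * (C c * X + C e) ^ (d - i) =
        C s * (C c * p + C e * q) := by
  constructor
  · apply Polynomial.funext
    intro x
    have h1 := congrArg Prod.fst (h (x, 1))
    simp only [bK, lm, Prod.smul_fst, smul_eq_mul, mul_one] at h1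
    rw [hev_one _ _ hp, hev_one _ _ hq] at h1
    rw [eval_finsetSum]
    simp only [eval_mul, eval_add, eval_pow, eval_C, eval_X]
    rw [← h1]
    rfl
  · apply Polynomial.funext
    intro x
    have h1 := congrArg Prod.snd (h (x, 1))
    simp only [bK, lm, Prod.smul_snd, smul_eq_mul, mul_one] at h1
    rw [hev_one _ _ hp, hev_one _ _ hq] at h1
    rw [eval_finsetSum]
    simp only [eval_mul, eval_add, eval_pow, eval_C, eval_X]
    rw [← h1]
    rfl

/-- pulling back the conjugation to a subfield -/
lemma conj_down {L M : Type*} [Field L] [Field M] [CharZero M] [Algebra L M]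
    (E : IntermediateField L M) {d : ℕ} (a b c e s : E) (p q : L[X]) (u w : E[X])
    (hp : p.natDegree ≤ d) (hq : q.natDegree ≤ d)
    (hdet : (a : M) * e - b * c ≠ 0) (hs : (s : M) ≠ 0)
    (h : ∀ Z : M × M, bK d (u.map (algebraMap E M)) (w.map (algebraMap E M))
      (lm (a : M) b c e Z) = (s : M) • lm (a : M) b c e
        (bK d (p.map (algebraMap L M)) (q.map (algebraMap L M)) Z)) :
    Pool.Agent.Y706.CH7.Conjugate (p.map (algebraMap L E)) (q.map (algebraMap L E)) u w d := by
  obtain ⟨h1, h2⟩ := conj_poly (natDegree_map_le.trans hp) (natDegree_map_le.trans hq) h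
  have hpm : ∀ f : L[X], (f.map (algebraMap L E)).map (algebraMap E M) =
      f.map (algebraMap L M) := by
    intro f
    rw [Polynomial.map_map, ← IsScalarTower.algebraMap_eq]
  refine ⟨a, b, c, e, ?_, s, ?_, ?_, ?_⟩
  · intro h0
    apply hdet
    have := congrArg (algebraMap E M) h0
    rw [map_sub, map_mul, map_mul, map_zero] at this
    exact this
  · rintro rfl
    exact hs rfl
  · apply Polynomial.map_injective (algebraMap E M) (algebraMap E M).injective
    rw [Polynomial.map_sum]
    simp only [Polynomial.map_mul, Polynomial.map_add, Polynomial.map_pow, Polynomial.map_C,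
      Polynomial.map_X, hpm]
    refine Eq.symm (Eq.trans h1.symm ?_)
    exact Finset.sum_congr rfl fun i _ => by rw [coeff_map]; rfl
  · apply Polynomial.map_injective (algebraMap E M) (algebraMap E M).injective
    rw [Polynomial.map_sum]
    simp only [Polynomial.map_mul, Polynomial.map_add, Polynomial.map_pow, Polynomial.map_C,
      Polynomial.map_X, hpm]
    refine Eq.symm (Eq.trans h2.symm ?_)
    exact Finset.sum_congr rfl fun i _ => by rw [coeff_map]; rfl


section heights

variable {k : Type v} {L : Type u} [Field k] [Field L] [Algebra k L]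

/-- the height of the map -/
noncomputable def HH (k : Type v) {L : Type u} [Field k] [Field L] [Algebra k L] (d : ℕ)
    (u w : (AlgebraicClosure L)[X]) : ℝ :=
  (range (d + 1)).sup' ⟨0, mem_range.mpr (Nat.succ_pos d)⟩
    fun i => max (hn k L (u.coeff i)) (hn k L (w.coeff i))

lemma mapH (d : ℕ) (u w : (AlgebraicClosure L)[X])
    (E : IntermediateField L (AlgebraicClosure L))
    (hfin : ∀ x : E, (Module.finrank (IntermediateField.adjoin k {x}) E : ℝ) =
      hn k L (x : AlgebraicClosure L) * Module.finrank L E) (uE wE : E[X])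
    (hu : uE.map (algebraMap E (AlgebraicClosure L)) = u)
    (hw : wE.map (algebraMap E (AlgebraicClosure L)) = w) :
    (Pool.Agent.Y706.CH7.mapHeight k uE wE d : ℝ) = HH k d u w * Module.finrank L E := by
  have hE0 : (0 : ℝ) ≤ Module.finrank L E := Nat.cast_nonneg _
  have h1 : ∀ i, ((max (Pool.Agent.Y706.CH7.height k (some (uE.coeff i)))
      (Pool.Agent.Y706.CH7.height k (some (wE.coeff i))) : ℕ) : ℝ) =
      max (hn k L (u.coeff i)) (hn k L (w.coeff i)) * Module.finrank L E := by
    intro i
    rw [Nat.cast_max, max_mul_of_nonneg _ _ hE0, ← hu, ← hw, coeff_map, coeff_map]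
    congr 1
    · exact hfin (uE.coeff i)
    · exact hfin (wE.coeff i)
  apply le_antisymm
  · obtain ⟨i, hi, hi'⟩ := Finset.exists_mem_eq_sup (range (d + 1))
      ⟨0, mem_range.mpr (Nat.succ_pos d)⟩ fun i =>
        max (Pool.Agent.Y706.CH7.height k (some (uE.coeff i)))
          (Pool.Agent.Y706.CH7.height k (some (wE.coeff i)))
    unfold Pool.Agent.Y706.CH7.mapHeight
    rw [hi', h1 i]
    refine mul_le_mul_of_nonneg_right ?_ hE0
    exact Finset.le_sup' (fun i => max (hn k L (u.coeff i)) (hn k L (w.coeff i))) hi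
  · obtain ⟨i, hi, hi'⟩ := Finset.exists_mem_eq_sup' (s := range (d + 1))
      ⟨0, mem_range.mpr (Nat.succ_pos d)⟩
      (fun i => max (hn k L (u.coeff i)) (hn k L (w.coeff i)))
    unfold HH
    rw [hi', ← h1 i]
    refine Nat.cast_le.mpr ?_
    unfold Pool.Agent.Y706.CH7.mapHeight
    exact Finset.le_sup (f := fun i => max (Pool.Agent.Y706.CH7.height k (some (uE.coeff i)))
          (Pool.Agent.Y706.CH7.height k (some (wE.coeff i)))) hi

lemma dn_le (E : IntermediateField L (AlgebraicClosure L)) [FiniteDimensional L E]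
    {x : AlgebraicClosure L} (hx : x ∈ E) : dn L x ≤ Module.finrank L E := by
  unfold dn
  apply IntermediateField.finrank_le_of_le_right
  rw [IntermediateField.adjoin_le_iff]
  exact Set.singleton_subset_iff.mpr hx

end heights

lemma can_le {B h : ℕ} (hB : 0 < B) {c : ENNReal} (hc : ¬ ((h : ENNReal) ≤ B * c)) :
    c ≤ ENNReal.ofReal ((h : ℝ) / B) := by
  push Not at hc
  have hB' : (0 : ℝ) < B := Nat.cast_pos.mpr hB
  rw [ENNReal.ofReal_div_of_pos hB', ENNReal.ofReal_natCast, ENNReal.ofReal_natCast]
  rw [ENNReal.le_div_iff_mul_le (Or.inl (by exact_mod_cast hB.ne'))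
    (Or.inl (ENNReal.natCast_ne_top B)), mul_comm]
  exact hc.le

end Pool.Agent.Q103.OP.Lca
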