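import Pool.Agent.Q103.OP.McB

/-!
# Project OP: MCM (maps with constant multipliers)
-/

set_option autoImplicit false

namespace Pool.Agent.Q103.OP.McA

open Pool.Agent.Q103.OP Pool.Agent.Q103.OP.Bas Pool.Agent.Q103.OP.McB Finset Polynomial
open Pool.Agent.W277.UH
open Pool.Agent.Y706.CH (bK)

universe u

section alg

variable {Ω : Type u} [Field Ω]

lemma alg_of_hom {B F₀ F : Type*} [Field B] [Field F₀] [Field F] (f : B →+* Ω) (g : F₀ →+* F)
    (h : F →+* Ω) (hr : ∀ y : B, ∃ z : F₀, h (g z) = f y) {t : F}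
    (ht : ∃ p : Polynomial B, p ≠ 0 ∧ p.eval₂ f (h t) = 0) :
    ∃ p : Polynomial F₀, p ≠ 0 ∧ p.eval₂ g t = 0 := by
  obtain ⟨p, hp, hpt⟩ := ht
  have h1 : p.map f ∈ Polynomial.lifts (h.comp g) := by
    rw [Polynomial.lifts_iff_coeff_lifts]
    intro n
    obtain ⟨z, hz⟩ := hr (p.coeff n)
    exact ⟨z, by rw [coeff_map, ← hz]; rfl⟩
  obtain ⟨p', hp'⟩ := (Polynomial.mem_lifts _).mp h1
  refine ⟨p', ?_, ?_⟩
  · rintro rfl
    rw [Polynomial.map_zero] at hp'
    exact hp ((Polynomial.map_eq_zero f).mp hp'.symm)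
  · apply h.injective
    rw [map_zero, Polynomial.hom_eval₂]
    rw [Polynomial.eval₂_eq_eval_map, hp', ← Polynomial.eval₂_eq_eval_map]
    exact hpt

lemma alg_mono {B B' : Subfield Ω} (h : B ≤ B') {t : Ω} (ht : IsAlgebraic B t) :
    IsAlgebraic B' t := by
  obtain ⟨p, hp, hpt⟩ := ht
  rw [aeval_def] at hpt
  obtain ⟨p', hp', hpt'⟩ := alg_of_hom (algebraMap B Ω) (algebraMap B' Ω) (RingHom.id Ω)
    (fun y => ⟨⟨y.1, h y.2⟩, rfl⟩) ⟨p, hp, hpt⟩
  exact ⟨p', hp', by rw [aeval_def]; exact hpt'⟩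

variable [IsAlgClosed Ω]

lemma mem_of_alg (E : Subfield Ω) [IsAlgClosed E] {x : Ω} (hx : IsAlgebraic E x) : x ∈ E := by
  have h1 : algebraicClosure E Ω = ⊥ := IntermediateField.eq_bot_of_isAlgClosed_of_isAlgebraic _
  have h2 : x ∈ algebraicClosure E Ω := mem_algebraicClosure_iff'.mpr hx.isIntegral
  rw [h1] at h2
  obtain ⟨y, hy⟩ := IntermediateField.mem_bot.mp h2
  rw [← hy]
  exact y.2

/-- the algebraic closure of the field generated by `S` -/
noncomputable def acl (κ : Subfield Ω) (S : Set Ω) : Subfield Ω :=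
  (algebraicClosure (Subfield.closure ((κ : Set Ω) ∪ S)) Ω).toSubfield

omit [IsAlgClosed Ω] in
lemma mem_acl {κ : Subfield Ω} {S : Set Ω} {x : Ω} :
    x ∈ acl κ S ↔ IsAlgebraic (Subfield.closure ((κ : Set Ω) ∪ S)) x := by
  constructor
  · intro h
    exact (mem_algebraicClosure_iff'.mp h).isAlgebraic
  · intro h
    exact mem_algebraicClosure_iff'.mpr h.isIntegral

instance acl_closed (κ : Subfield Ω) (S : Set Ω) : IsAlgClosed (acl κ S) := by
  have h1 : IsAlgClosure (Subfield.closure ((κ : Set Ω) ∪ S))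
    (algebraicClosure (Subfield.closure ((κ : Set Ω) ∪ S)) Ω) := inferInstance
  exact h1.isAlgClosed

lemma closure_le_acl (κ : Subfield Ω) (S : Set Ω) :
    Subfield.closure ((κ : Set Ω) ∪ S) ≤ acl κ S := by
  intro x hx
  rw [mem_acl]
  exact isAlgebraic_algebraMap (A := Ω) (⟨x, hx⟩ : Subfield.closure ((κ : Set Ω) ∪ S))

lemma le_acl (κ : Subfield Ω) (S : Set Ω) : κ ≤ acl κ S := fun _ hx =>
  closure_le_acl κ S (Subfield.subset_closure (Or.inl hx))

lemma subset_acl (κ : Subfield Ω) (S : Set Ω) {x : Ω} (hx : x ∈ S) : x ∈ acl κ S :=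
  closure_le_acl κ S (Subfield.subset_closure (Or.inr hx))

lemma acl_le {κ : Subfield Ω} {S : Set Ω} {E : Subfield Ω} [IsAlgClosed E] (h1 : κ ≤ E)
    (h2 : ∀ x ∈ S, x ∈ E) : acl κ S ≤ E := by
  intro x hx
  rw [mem_acl] at hx
  have : Subfield.closure ((κ : Set Ω) ∪ S) ≤ E := by
    rw [Subfield.closure_le]
    rintro y (hy | hy)
    · exact h1 hy
    · exact h2 y hy
  exact mem_of_alg E (alg_mono this hx)

/-- roots of polynomials over an algebraically closed subfield -/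
lemma root_mem (E : Subfield Ω) [IsAlgClosed E] (f : Polynomial Ω) (hf : f ≠ 0)
    (hc : ∀ n, f.coeff n ∈ E) {r : Ω} (hr : f.eval r = 0) : r ∈ E := by
  apply mem_of_alg E
  have h1 : f ∈ Polynomial.lifts (algebraMap E Ω) := by
    rw [Polynomial.lifts_iff_coeff_lifts]
    exact fun n => ⟨⟨f.coeff n, hc n⟩, rfl⟩
  obtain ⟨g, hg⟩ := (Polynomial.mem_lifts _).mp h1
  refine ⟨g, ?_, ?_⟩
  · rintro rfl
    rw [Polynomial.map_zero] at hg
    exact hf hg.symm
  · rw [aeval_def, eval₂_eq_eval_map, hg, hr]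

omit [IsAlgClosed Ω] in
/-- a finitely generated field of transcendence degree one -/
lemma fd (E' : Subfield Ω) (T : Finset Ω) (a : Ω) (haT : a ∈ T)
    (hT : ∀ t ∈ T, IsAlgebraic (Subfield.closure ((E' : Set Ω) ∪ {a})) t) :
    FiniteDimensional (IntermediateField.adjoin E'
      {(⟨a, IntermediateField.subset_adjoin E' _ haT⟩ : IntermediateField.adjoin E' (T : Set Ω))})
      (IntermediateField.adjoin E' (T : Set Ω)) := by
  obtain ⟨F, hF⟩ : ∃ F, F = IntermediateField.adjoin E' (T : Set Ω) := ⟨_, rfl⟩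
  have haF : a ∈ F := hF ▸ IntermediateField.subset_adjoin E' _ haT
  suffices h : FiniteDimensional (IntermediateField.adjoin E' {(⟨a, haF⟩ : F)}) F by
    subst hF
    exact h
  obtain ⟨F₀, hF₀⟩ : ∃ F₀, F₀ = IntermediateField.adjoin E' {(⟨a, haF⟩ : F)} := ⟨_, rfl⟩
  rw [← hF₀]
  have haF₀ : (⟨a, haF⟩ : F) ∈ F₀ := hF₀ ▸ IntermediateField.subset_adjoin E' _ (Set.mem_singleton _)
  have hfin : Finite ((fun y : F => (y : Ω)) ⁻¹' (T : Set Ω)) :=
    Set.Finite.preimage (Subtype.val_injective.injOn) T.finite_toSet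
  -- the image of `F₀`
  have him : Subfield.closure ((E' : Set Ω) ∪ {a}) ≤ F₀.toSubfield.map (algebraMap F Ω) := by
    rw [Subfield.closure_le]
    rintro y (hy | hy)
    · exact ⟨algebraMap E' F ⟨y, hy⟩, F₀.algebraMap_mem _, rfl⟩
    · rw [Set.mem_singleton_iff] at hy
      rw [hy]
      exact ⟨⟨a, haF⟩, haF₀, rfl⟩
  have hint : ∀ y ∈ ((fun y : F => (y : Ω)) ⁻¹' (T : Set Ω)), IsIntegral F₀ y := by
    intro y hy
    apply IsAlgebraic.isIntegral
    obtain ⟨p, hp, hpy⟩ := hT y.1 hy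
    rw [aeval_def] at hpy
    obtain ⟨p', hp', hpy'⟩ := alg_of_hom (algebraMap (Subfield.closure ((E' : Set Ω) ∪ {a})) Ω)
      (algebraMap F₀ F) (algebraMap F Ω) (fun z => by
        obtain ⟨w, hw, hwz⟩ := him z.2
        exact ⟨⟨w, hw⟩, hwz⟩) ⟨p, hp, hpy⟩
    exact ⟨p', hp', by rw [aeval_def]; exact hpy'⟩
  have hfd := IntermediateField.finiteDimensional_adjoin (K := F₀) (L := F) hint
  have htop : IntermediateField.adjoin F₀ ((fun y : F => (y : Ω)) ⁻¹' (T : Set Ω)) = ⊤ := by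
    rw [eq_top_iff]
    rintro y -
    have h1 : Subfield.closure (Set.range (algebraMap E' Ω) ∪ (T : Set Ω)) ≤
        (IntermediateField.adjoin F₀ ((fun y : F => (y : Ω)) ⁻¹' (T : Set Ω))).toSubfield.map
          (algebraMap F Ω) := by
      rw [Subfield.closure_le]
      rintro z (⟨c, rfl⟩ | hz)
      · refine ⟨algebraMap E' F c, ?_, rfl⟩
        exact (IntermediateField.adjoin F₀ ((fun y : F => (y : Ω)) ⁻¹' (T : Set Ω))).algebraMap_mem
          (algebraMap E' F₀ c)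
      · exact ⟨⟨z, hF ▸ IntermediateField.subset_adjoin E' _ hz⟩,
          IntermediateField.subset_adjoin F₀ _ hz, rfl⟩
    have h2 : y.1 ∈ Subfield.closure (Set.range (algebraMap E' Ω) ∪ (T : Set Ω)) := by
      have h3 : ∀ z ∈ F, z ∈ Subfield.closure (Set.range (algebraMap E' Ω) ∪ (T : Set Ω)) := by
        intro z hz
        rw [hF] at hz
        exact hz
      exact h3 _ y.2
    obtain ⟨z, hz, hzy⟩ := h1 h2
    have : z = y := Subtype.ext hzy
    rw [← this]
    exact hz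
  rw [htop] at hfd
  exact (IntermediateField.topEquiv (F := F₀) (E := F)).toLinearEquiv.finiteDimensional

end alg

lemma cc_mono (hCNJ : S_CNJ.{u}) {Ω : Type u} [Field Ω] [CharZero Ω] {d : ℕ} (hd : 2 ≤ d)
    {p q : Polynomial Ω} (hpq : Rat d p q) {E E' : Subfield Ω} (h : E ≤ E')
    (hE : ConjConst E p q d) : ConjConst E' p q d := by
  obtain ⟨-, h2, h3⟩ := hCNJ Ω d hd p q hpq
  obtain ⟨a, b, c, e, s, u, w, hs, huw, hco, hcj⟩ := h3 E hE
  obtain ⟨-, -, -, h4⟩ := h2 a b c e u w huw hcj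
  exact h4 E' s hs fun n => ⟨h (hco n).1, h (hco n).2⟩

lemma CJ_one {K : Type*} [Field K] (d : ℕ) (p q : Polynomial K) : CJ d 1 0 0 1 p q p q := by
  refine ⟨by simp, fun Z => ?_⟩
  have : ∀ Z : K × K, lm 1 0 0 1 Z = Z := by
    intro Z
    unfold lm
    ext <;> simp
  rw [this, this]

/-- constants in an extension -/
lemma cc_map {k K L : Type*} [Field k] [Field K] [Field L] [Algebra k K] [Algebra k L]
    (ι : K →+* L) (hι : ∀ x : k, ι (algebraMap k K x) = algebraMap k L x) {p q : Polynomial K}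
    {d : ℕ} (h : ConjConst k p q d) : ConjConst k (p.map ι) (q.map ι) d := by
  obtain ⟨a, b, c, e, hdet, u, w, hne, hu, hw, hid⟩ := h
  refine ⟨ι a, ι b, ι c, ι e, ?_, u, w, hne, hu, hw, ?_⟩
  · rw [← map_mul, ← map_mul, ← map_sub]
    exact (map_ne_zero ι).mpr hdet
  · have hhc : ∀ A P Q : Polynomial K, (hc d A P Q).map ι = hc d (A.map ι) (P.map ι) (Q.map ι) := by
      intro A P Q
      unfold hc hev
      rw [Polynomial.map_sum]
      exact Finset.sum_congr rfl fun i _ => by simp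
    have hm : ∀ A : Polynomial k, (A.map (algebraMap k K)).map ι = A.map (algebraMap k L) := by
      intro A
      rw [Polynomial.map_map]
      congr 1
      ext x
      exact hι x
    have h1 := congrArg (Polynomial.map ι) hid
    rw [Polynomial.map_mul, Polynomial.map_mul, hhc, hhc, hm, hm] at h1
    simpa using h1

theorem stepA (hPCF : S_PCF.{u}) (hCNJ : S_CNJ.{u})
    (Ω : Type u) [Field Ω] [CharZero Ω] [IsAlgClosed Ω] (κ : Subfield Ω) [IsAlgClosed κ]
    (d : ℕ) (hd : 2 ≤ d) (p q : Polynomial Ω) (hpq : Rat d p q)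
    (hM : ∀ m : ℕ, 1 ≤ m → ∀ (Z : Ω × Ω) (μ : Ω), Z ≠ 0 → μ ≠ 0 → (bK d p q)^[m] Z = μ • Z →
      mlt d p q m Z μ ∈ κ) : ConjConst κ p q d ∨ CF d p q := by
  classical
  have hd1 : 1 ≤ d := by omega
  have hex : ∃ r : ℕ, ∃ S : Finset Ω, S.card = r ∧ ConjConst (acl κ (S : Set Ω)) p q d := by
    refine ⟨_, (range (d + 1)).image p.coeff ∪ (range (d + 1)).image q.coeff, rfl, ?_⟩
    obtain ⟨-, h2, -⟩ := hCNJ Ω d hd p q hpq
    obtain ⟨-, -, -, h4⟩ := h2 1 0 0 1 p q hpq (CJ_one d p q)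
    have hp : p.natDegree ≤ d := hpq.2 ▸ le_max_left _ _
    have hq : q.natDegree ≤ d := hpq.2 ▸ le_max_right _ _
    refine h4 _ 1 one_ne_zero fun n => ?_
    rw [one_mul, one_mul]
    by_cases hn : n ≤ d
    · refine ⟨subset_acl _ _ ?_, subset_acl _ _ ?_⟩
      · exact mem_coe.mpr (mem_union_left _ (mem_image.mpr ⟨n, mem_range.mpr (by omega), rfl⟩))
      · exact mem_coe.mpr (mem_union_right _ (mem_image.mpr ⟨n, mem_range.mpr (by omega), rfl⟩))
    · rw [coeff_eq_zero_of_natDegree_lt (by omega), coeff_eq_zero_of_natDegree_lt (by omega)]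
      exact ⟨Subfield.zero_mem _, Subfield.zero_mem _⟩
  obtain ⟨S, hSr, hS⟩ := Nat.find_spec hex
  have hmin : ∀ S' : Finset Ω, S'.card < Nat.find hex →
      ¬ ConjConst (acl κ (S' : Set Ω)) p q d := fun S' hS' h => Nat.find_min hex hS' ⟨S', rfl, h⟩
  rcases S.eq_empty_or_nonempty with rfl | ⟨a, haS⟩
  · left
    refine cc_mono hCNJ hd hpq ?_ hS
    exact acl_le le_rfl (by simp)
  right
  obtain ⟨S', hS'⟩ : ∃ S', S' = S.erase a := ⟨_, rfl⟩
  have hS'c : S'.card < Nat.find hex := by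
    rw [← hSr, hS', card_erase_of_mem haS]
    have := card_pos.mpr ⟨a, haS⟩
    omega
  have hnot := hmin S' hS'c
  obtain ⟨E', hE'⟩ : ∃ E', E' = acl κ (S' : Set Ω) := ⟨_, rfl⟩
  obtain ⟨E, hE⟩ : ∃ E, E = acl κ (S : Set Ω) := ⟨_, rfl⟩
  have : IsAlgClosed E' := by rw [hE']; exact acl_closed _ _
  have : IsAlgClosed E := by rw [hE]; exact acl_closed _ _
  rw [← hE'] at hnot
  rw [← hE] at hS
  have hκE' : κ ≤ E' := hE' ▸ le_acl _ _
  -- `a` is transcendental
  have haE' : a ∉ E' := by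
    intro ha
    apply hnot
    refine cc_mono hCNJ hd hpq ?_ hS
    rw [hE]
    refine acl_le hκE' fun x hx => ?_
    by_cases hxa : x = a
    · rw [hxa]; exact ha
    · rw [hE']
      refine subset_acl _ _ ?_
      rw [hS']
      exact mem_coe.mpr (mem_erase.mpr ⟨hxa, hx⟩)
  have htra : Transcendental E' a := fun h => haE' (mem_of_alg E' h)
  have hEalg : ∀ t ∈ E, IsAlgebraic (Subfield.closure ((E' : Set Ω) ∪ {a})) t := by
    intro t ht
    rw [hE, mem_acl] at ht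
    refine alg_mono ?_ ht
    rw [Subfield.closure_le]
    rintro y (hy | hy)
    · exact Subfield.subset_closure (Or.inl (hκE' hy))
    · by_cases hya : y = a
      · exact Subfield.subset_closure (Or.inr (by rw [hya]; rfl))
      · refine Subfield.subset_closure (Or.inl ?_)
        rw [hE']
        refine subset_acl _ _ ?_
        rw [hS']
        exact mem_coe.mpr (mem_erase.mpr ⟨hya, hy⟩)
  have haE : a ∈ E := hE ▸ subset_acl _ _ (mem_coe.mpr haS)
  -- coordinates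
  obtain ⟨-, hC2, hC3⟩ := hCNJ Ω d hd p q hpq
  obtain ⟨α, β, γ, δ, s, u₀, w₀, hs, huw₀, hco₀, hcj₀⟩ := hC3 E hS
  obtain ⟨t, ht, hcj⟩ := CJ_scale hd hcj₀ hs
  obtain ⟨u₁, hu₁⟩ : ∃ u₁, u₁ = C s * u₀ := ⟨_, rfl⟩
  obtain ⟨w₁, hw₁⟩ : ∃ w₁, w₁ = C s * w₀ := ⟨_, rfl⟩
  have huw : Rat d u₁ w₁ := by
    rw [hu₁, hw₁]
    exact Rat_C huw₀ hs
  rw [← hu₁, ← hw₁] at hcj
  have hco : ∀ n, u₁.coeff n ∈ E ∧ w₁.coeff n ∈ E := by
    intro n
    rw [hu₁, hw₁, coeff_C_mul, coeff_C_mul]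
    exact hco₀ n
  obtain ⟨hinvcj, hJ, -, -⟩ := hC2 _ _ _ _ u₁ w₁ huw hcj
  -- the roots of the Wronskian
  have hWE : ∀ r, (Wr u₁ w₁).eval r = 0 → r ∈ E := by
    intro r hr
    refine root_mem E (Wr u₁ w₁) (Wr_ne hd huw) ?_ hr
    have hlift : ∀ f : Polynomial Ω, (∀ n, f.coeff n ∈ E) → ∃ g : Polynomial E,
        g.map (algebraMap E Ω) = f := by
      intro f hf
      apply (Polynomial.mem_lifts _).mp
      rw [Polynomial.lifts_iff_coeff_lifts]
      exact fun n => ⟨⟨f.coeff n, hf n⟩, rfl⟩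
    obtain ⟨g, hg⟩ := hlift u₁ fun n => (hco n).1
    obtain ⟨g', hg'⟩ := hlift w₁ fun n => (hco n).2
    rw [← hg, ← hg', Wr_mp]
    intro n
    rw [coeff_map]
    exact ((Wr g g').coeff n).2
  obtain ⟨T, hT⟩ : ∃ T : Finset Ω, T = insert a (((range (d + 1)).image u₁.coeff ∪
    (range (d + 1)).image w₁.coeff) ∪ (Wr u₁ w₁).roots.toFinset) := ⟨_, rfl⟩
  have haT : a ∈ T := hT ▸ mem_insert_self _ _
  have hTE : ∀ t ∈ T, t ∈ E := by
    intro t ht
    rw [hT, mem_insert, mem_union, mem_union, mem_image, mem_image, Multiset.mem_toFinset] at ht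
    rcases ht with rfl | (⟨n, -, rfl⟩ | ⟨n, -, rfl⟩) | ht
    · exact haE
    · exact (hco n).1
    · exact (hco n).2
    · exact hWE t (isRoot_of_mem_roots ht)
  have hfd := fd E' T a haT fun t ht => hEalg t (hTE t ht)
  obtain ⟨F, hF⟩ : ∃ F, F = IntermediateField.adjoin E' (T : Set Ω) := ⟨_, rfl⟩
  have haF : a ∈ F := hF ▸ IntermediateField.subset_adjoin E' _ haT
  have hfd' : FiniteDimensional (IntermediateField.adjoin E' {(⟨a, haF⟩ : F)}) F := by
    subst hF
    exact hfd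
  have hxt : Transcendental E' (⟨a, haF⟩ : F) := by
    intro h
    apply htra
    exact (isAlgebraic_algebraMap_iff (A := Ω) (algebraMap F Ω).injective).mpr h
  have hTF : ∀ t ∈ T, t ∈ F := fun t ht => hF ▸ IntermediateField.subset_adjoin E' _ ht
  have hup : u₁.natDegree ≤ d := huw.2 ▸ le_max_left _ _
  have hwp : w₁.natDegree ≤ d := huw.2 ▸ le_max_right _ _
  have hcoF : ∀ n, u₁.coeff n ∈ F ∧ w₁.coeff n ∈ F := by
    intro n
    by_cases hn : n ≤ d
    · refine ⟨hTF _ ?_, hTF _ ?_⟩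
      · rw [hT, mem_insert, mem_union, mem_union, mem_image]
        exact Or.inr (Or.inl (Or.inl ⟨n, mem_range.mpr (by omega), rfl⟩))
      · rw [hT, mem_insert, mem_union, mem_union, mem_image, mem_image]
        exact Or.inr (Or.inl (Or.inr ⟨n, mem_range.mpr (by omega), rfl⟩))
    · rw [coeff_eq_zero_of_natDegree_lt (by omega), coeff_eq_zero_of_natDegree_lt (by omega)]
      exact ⟨F.zero_mem, F.zero_mem⟩
  have hliftF : ∀ f : Polynomial Ω, (∀ n, f.coeff n ∈ F) → ∃ g : Polynomial F,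
      g.map (algebraMap F Ω) = f := by
    intro f hf
    apply (Polynomial.mem_lifts _).mp
    rw [Polynomial.lifts_iff_coeff_lifts]
    exact fun n => ⟨⟨f.coeff n, hf n⟩, rfl⟩
  obtain ⟨u, hu⟩ := hliftF u₁ fun n => (hcoF n).1
  obtain ⟨w, hw⟩ := hliftF w₁ fun n => (hcoF n).2
  have huwF : Rat d u w := by
    refine ⟨?_, ?_⟩
    · have := huw.1
      rw [← hu, ← hw] at this
      exact (isCoprime_map (algebraMap F Ω)).mp this
    · have := huw.2
      rw [← hu, ← hw, natDegree_map, natDegree_map] at this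
      exact this
  -- the embedding
  obtain ⟨ι, hι⟩ : ∃ ι : AlgebraicClosure F →+* Ω, ∀ x : F,
      ι (algebraMap F (AlgebraicClosure F) x) = algebraMap F Ω x := by
    have φ : AlgebraicClosure F →ₐ[F] Ω := IsAlgClosed.lift
    exact ⟨φ.toRingHom, fun x => φ.commutes x⟩
  have hιE : ∀ x : E', ι (algebraMap E' (AlgebraicClosure F) x) = algebraMap E' Ω x := by
    intro x
    rw [IsScalarTower.algebraMap_apply E' F (AlgebraicClosure F), hι]
    rfl
  have hιu : ∀ f : Polynomial F, (f.map (algebraMap F (AlgebraicClosure F))).map ι =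
      f.map (algebraMap F Ω) := by
    intro f
    rw [Polynomial.map_map]
    congr 1
    ext x
    exact hι x
  have hnc : ¬ ConjConst E' (u.map (algebraMap F (AlgebraicClosure F)))
      (w.map (algebraMap F (AlgebraicClosure F))) d := by
    intro hcc
    apply hnot
    have h1 := cc_map ι hιE hcc
    rw [hιu, hιu, hu, hw] at h1
    obtain ⟨-, -, h3⟩ := hCNJ Ω d hd u₁ w₁ huw
    obtain ⟨a', b', c', e', s', u', w', hs', huw', hco', hcj'⟩ := h3 E' h1
    obtain ⟨-, -, -, h4⟩ := hC2 _ _ _ _ u' w' huw' (CJ_comp hcj hcj')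
    exact h4 E' s' hs' hco'
  have hmul : ∀ m : ℕ, 1 ≤ m → ∀ (Z : AlgebraicClosure F × AlgebraicClosure F)
      (μ : AlgebraicClosure F), Z ≠ 0 → μ ≠ 0 →
      (bK d (u.map (algebraMap F (AlgebraicClosure F)))
        (w.map (algebraMap F (AlgebraicClosure F))))^[m] Z = μ • Z →
      ∃ c : E', algebraMap E' (AlgebraicClosure F) c =
        mlt d (u.map (algebraMap F (AlgebraicClosure F)))
          (w.map (algebraMap F (AlgebraicClosure F))) m Z μ := by
    intro m hm Z μ hZ hμ hper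
    have h1 := iter_mp ι d (u.map (algebraMap F (AlgebraicClosure F)))
      (w.map (algebraMap F (AlgebraicClosure F))) Z m
    rw [hper, hιu, hιu, hu, hw, vmp_smul] at h1
    have h2 := mlt_mp ι d (u.map (algebraMap F (AlgebraicClosure F)))
      (w.map (algebraMap F (AlgebraicClosure F))) m Z μ
    rw [hιu, hιu, hu, hw] at h2
    obtain ⟨Y, hY⟩ : ∃ Y, lm (t * α) (t * β) (t * γ) (t * δ) Y = vmp ι Z := ⟨_, lm_inv hcj.1 _⟩
    have hY0 : Y ≠ 0 := by
      rintro rfl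
      rw [lm_zero] at hY
      exact vmp_ne ι hZ hY.symm
    have hμ0 : ι μ ≠ 0 := (map_ne_zero ι).mpr hμ
    have hYper : (bK d p q)^[m] Y = ι μ • Y := by
      have h3 : lm (t * α) (t * β) (t * γ) (t * δ) ((bK d p q)^[m] Y) =
          lm (t * α) (t * β) (t * γ) (t * δ) (ι μ • Y) := by
        rw [← CJ_iter hcj, hY, h1, lm_smul, hY]
      have h4 := congrArg (lm (t * δ / (t * α * (t * δ) - t * β * (t * γ)))
        (-(t * β) / (t * α * (t * δ) - t * β * (t * γ)))
        (-(t * γ) / (t * α * (t * δ) - t * β * (t * γ)))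
        (t * α / (t * α * (t * δ) - t * β * (t * γ)))) h3
      rwa [lm_inv' hcj.1, lm_inv' hcj.1] at h4
    have h5 := hM m hm Y (ι μ) hY0 hμ0 hYper
    rw [← mlt_CJ hcj hJ, hY, h2] at h5
    refine ⟨⟨_, hκE' h5⟩, ?_⟩
    apply ι.injective
    rw [hιE]
    rfl
  have hfin := hPCF E' F ⟨a, haF⟩ hxt hfd' d hd u w huwF hnc hmul
  -- transfer
  have hCF₁ : CF d u₁ w₁ := by
    intro Y hY hJY
    have hred : ∀ c : F × F, c ≠ 0 → Jv d u w c = 0 → FO d u₁ w₁ (vmp (algebraMap F Ω) c) := by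
      intro c hc hJc
      obtain ⟨i, j, hij, hw'⟩ := hfin c hc hJc
      refine ⟨i, j, hij, ?_⟩
      rw [← hu, ← hw, iter_mp, iter_mp, wd_mp, hw', map_zero]
    rcases Jv_zero hd huw hJY with h2 | ⟨h2, hr, hY'⟩
    · have hY1 : Y.1 ≠ 0 := fun h => hY (Prod.ext h h2)
      have hY' : Y = Y.1 • ((1, 0) : Ω × Ω) := by
        ext
        · simp
        · simp [h2]
      have h10 : ((1, 0) : Ω × Ω) = vmp (algebraMap F Ω) (1, 0) := by
        unfold vmp
        simp
      rw [hY']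
      refine FO_smul _ ?_
      rw [h10]
      refine hred (1, 0) (fun h => one_ne_zero (congrArg Prod.fst h)) ?_
      have h3 : Jv d u₁ w₁ ((1, 0) : Ω × Ω) = 0 := by
        rw [hY', Jv_smul] at hJY
        exact (mul_eq_zero.mp hJY).resolve_left (pow_ne_zero _ hY1)
      rw [h10, ← hu, ← hw, Jv_mp] at h3
      exact (map_eq_zero (algebraMap F Ω)).mp h3
    · rw [hY']
      refine FO_smul _ ?_
      have hrF : Y.1 / Y.2 ∈ F := by
        refine hTF _ ?_
        rw [hT, mem_insert, mem_union, Multiset.mem_toFinset, mem_roots (Wr_ne hd huw)]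
        exact Or.inr (Or.inr hr)
      have h10 : ((Y.1 / Y.2, 1) : Ω × Ω) = vmp (algebraMap F Ω) (⟨Y.1 / Y.2, hrF⟩, 1) := by
        unfold vmp
        ext
        · rfl
        · simp
      rw [h10]
      refine hred _ (fun h => one_ne_zero (congrArg Prod.snd h)) ?_
      have h3 : Jv d u₁ w₁ ((Y.1 / Y.2, 1) : Ω × Ω) = 0 := by
        rw [Jv_one hd huw]
        exact hr
      rw [h10, ← hu, ← hw, Jv_mp] at h3
      exact (map_eq_zero (algebraMap F Ω)).mp h3
  intro Y hY hJY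
  refine FO_CJ' hcj (hCF₁ _ (lm_ne hcj.1 hY) ?_)
  rw [hJ]
  exact hJY

theorem t_MCM (hPCF : S_PCF.{u}) (hTHU : S_THU.{u}) (hDRV : S_DRV.{u}) (hCNJ : S_CNJ.{u})
    (hTRI : S_TRI.{u}) : S_MCM.{u} := by
  intro Ω _ _ _ κ _ d hd p q hpq hM
  rcases stepA hPCF hCNJ Ω κ d hd p q hpq hM with h | h
  · exact Or.inl h
  · exact stepB hTHU hDRV hCNJ hTRI Ω κ d hd p q hpq h

end Pool.Agent.Q103.OP.McA
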