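import Pool.Agent.Q103.OP.Stm2
import Pool.Agent.Q103.OP.McA
import Pool.Agent.Q103.OP.Lca
import Pool.Agent.Y706.P9

/-!
# Project OP: FLD (families which are isotrivial in every variable)
-/

set_option autoImplicit false

namespace Pool.Agent.Q103.OP.Fld

open Pool.Agent.Q103.OP Pool.Agent.Q103.OP.Bas Pool.Agent.Q103.OP.McA Pool.Agent.Q103.OP.Lca
open Finset Polynomial Pool.Agent.W277.UH
open Pool.Agent.Y706.CH (bK)
open Pool.Agent.Y706.BI (RF others generic genBar IsoAlg)

universe u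

lemma alg_inter {k Ω : Type*} [Field k] [Field Ω] [Algebra k Ω] {m : ℕ} (hm : 0 < m)
    (y : Fin m → Ω) (hy : AlgebraicIndependent k y) {x : Ω}
    (hx : ∀ i, IsAlgebraic (Algebra.adjoin k {z : Ω | ∃ j, j ≠ i ∧ z = y j}) x) :
    IsAlgebraic k x := by
  have hne : Nonempty (Fin m) := ⟨⟨0, hm⟩⟩
  have hI : (AlgebraicIndependent.matroid k Ω).Indep (Set.range y) := by
    rw [AlgebraicIndependent.matroid_indep_iff]
    exact hy.coe_range
  have h1 := hI.closure_iInter_eq_biInter_closure_of_forall_subset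
    (Js := fun i : Fin m => {z : Ω | ∃ j, j ≠ i ∧ z = y j}) (by
      rintro i z ⟨j, -, rfl⟩
      exact ⟨j, rfl⟩)
  have h2 : (⋂ i : Fin m, {z : Ω | ∃ j, j ≠ i ∧ z = y j}) = ∅ := by
    rw [Set.eq_empty_iff_forall_notMem]
    intro z hz
    rw [Set.mem_iInter] at hz
    obtain ⟨j, -, hj⟩ := hz ⟨0, hm⟩
    obtain ⟨j', hj', hj''⟩ := hz j
    exact hj' (hy.injective (hj''.symm.trans hj))
  rw [h2] at h1
  have h3 : x ∈ ⋂ i : Fin m, (AlgebraicIndependent.matroid k Ω).closure
      {z : Ω | ∃ j, j ≠ i ∧ z = y j} := by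
    rw [Set.mem_iInter]
    intro i
    rw [AlgebraicIndependent.matroid_closure_eq]
    exact hx i
  rw [← h1, AlgebraicIndependent.matroid_closure_eq] at h3
  have h4 : IsAlgebraic (Algebra.adjoin k (∅ : Set Ω)) x := h3
  rw [Algebra.adjoin_empty] at h4
  obtain ⟨p, hp, hpx⟩ := h4
  have h5 : p.map (algebraMap (⊥ : Subalgebra k Ω) Ω) ∈ Polynomial.lifts (algebraMap k Ω) := by
    rw [Polynomial.lifts_iff_coeff_lifts]
    intro n
    obtain ⟨c, hc⟩ := Algebra.mem_bot.mp (p.coeff n).2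
    exact ⟨c, by rw [coeff_map]; exact hc⟩
  obtain ⟨g, hg⟩ := (Polynomial.mem_lifts _).mp h5
  refine ⟨g, ?_, ?_⟩
  · rintro rfl
    rw [Polynomial.map_zero] at hg
    have hinj : Function.Injective (algebraMap (⊥ : Subalgebra k Ω) Ω) := Subtype.val_injective
    exact hp ((Polynomial.map_eq_zero_iff hinj).mp hg.symm)
  · rw [aeval_def, eval₂_eq_eval_map, hg, ← eval₂_eq_eval_map]
    exact hpx

section fam

variable {k : Type} [Field k] {m : ℕ}

/-- the variables in the closure -/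
noncomputable def yv (k : Type) [Field k] (m : ℕ) (j : Fin m) : AlgebraicClosure (RF k m) :=
  algebraMap (RF k m) (AlgebraicClosure (RF k m))
    (algebraMap (MvPolynomial (Fin m) k) (RF k m) (MvPolynomial.X j))

lemma yv_indep : AlgebraicIndependent k (yv k m) := by
  have h1 := Pool.Agent.Y706.indep_frac (k := k) (ι := Fin m)
  have h2 := h1.map' (f := IsScalarTower.toAlgHom k (RF k m) (AlgebraicClosure (RF k m)))
    (algebraMap (RF k m) (AlgebraicClosure (RF k m))).injective
  exact h2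

lemma zero_case (hm : m = 0) (x : AlgebraicClosure (RF k m)) : IsAlgebraic k x := by
  subst hm
  have h1 : Algebra.IsAlgebraic k (MvPolynomial (Fin 0) k) := by
    refine ⟨fun P => ?_⟩
    rw [MvPolynomial.eq_C_of_isEmpty P]
    exact isAlgebraic_algebraMap _
  have h2 : Algebra.IsAlgebraic (MvPolynomial (Fin 0) k) (RF k 0) :=
    IsLocalization.isAlgebraic _ (nonZeroDivisors _)
  have h3 : Algebra.IsAlgebraic k (RF k 0) := Algebra.IsAlgebraic.trans k (MvPolynomial (Fin 0) k) _
  have h4 : Algebra.IsAlgebraic k (AlgebraicClosure (RF k 0)) :=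
    Algebra.IsAlgebraic.trans k (RF k 0) _
  exact h4.isAlgebraic x

lemma alg_all (x : AlgebraicClosure (RF k m)) (hx : ∀ i : Fin m, IsAlgebraic (others k i) x) :
    IsAlgebraic k x := by
  rcases Nat.eq_zero_or_pos m with hm | hm
  · exact zero_case hm x
  refine alg_inter hm (yv k m) yv_indep fun i => ?_
  have h1 : IsAlgebraic (IntermediateField.adjoin k
      {z : AlgebraicClosure (RF k m) | ∃ j, j ≠ i ∧ z = yv k m j}) x := by
    obtain ⟨p, hp, hpx⟩ := hx i
    rw [aeval_def] at hpx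
    obtain ⟨p', hp', hpx'⟩ := alg_of_hom (algebraMap (others k i) (AlgebraicClosure (RF k m)))
      (algebraMap (IntermediateField.adjoin k
        {z : AlgebraicClosure (RF k m) | ∃ j, j ≠ i ∧ z = yv k m j}) (AlgebraicClosure (RF k m)))
      (RingHom.id (AlgebraicClosure (RF k m))) (fun y => by
        have h2 : IntermediateField.adjoin k {x : RF k m | ∃ j, j ≠ i ∧
            x = algebraMap (MvPolynomial (Fin m) k) (RF k m) (MvPolynomial.X j)} ≤
            (IntermediateField.adjoin k {z : AlgebraicClosure (RF k m) |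
              ∃ j, j ≠ i ∧ z = yv k m j}).comap
              (IsScalarTower.toAlgHom k (RF k m) (AlgebraicClosure (RF k m))) := by
          rw [IntermediateField.adjoin_le_iff]
          rintro z ⟨j, hj, rfl⟩
          exact IntermediateField.subset_adjoin k _ ⟨j, hj, rfl⟩
        exact ⟨⟨_, h2 y.2⟩, rfl⟩) ⟨p, hp, hpx⟩
    exact ⟨p', hp', by rw [aeval_def]; exact hpx'⟩
  open IntermediateField.algebraAdjoinAdjoin in
  exact (IsFractionRing.isAlgebraic_iff (Algebra.adjoin k
      {z : AlgebraicClosure (RF k m) | ∃ j, j ≠ i ∧ z = yv k m j}) (IntermediateField.adjoin k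
      {z : AlgebraicClosure (RF k m) | ∃ j, j ≠ i ∧ z = yv k m j}) _).mpr h1

end fam

/-- conjugate to a map with algebraic coefficients: conjugate to a map over the closure -/
lemma cc_of_iso {k Ω : Type*} [Field k] [Field Ω] [CharZero Ω] [IsAlgClosed Ω] [Algebra k Ω]
    {E : Subfield Ω} (hE : ∀ x : Ω, IsAlgebraic k x → x ∈ E) {p q : Polynomial Ω} {d : ℕ}
    (h : IsoAlg k p q d) : ConjConst E p q d := by
  obtain ⟨a, b, c, e, hdet, u, w, hne, hu, hw, hau, haw, hid⟩ := h
  have hlift : ∀ f : Polynomial Ω, (∀ n, IsAlgebraic k (f.coeff n)) → ∃ g : Polynomial E,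
      g.map (algebraMap E Ω) = f := by
    intro f hf
    apply (Polynomial.mem_lifts _).mp
    rw [Polynomial.lifts_iff_coeff_lifts]
    exact fun n => ⟨⟨f.coeff n, hE _ (hf n)⟩, rfl⟩
  obtain ⟨u', rfl⟩ := hlift u hau
  obtain ⟨w', rfl⟩ := hlift w haw
  refine ⟨a, b, c, e, hdet, u', w', ?_, ?_, ?_, ?_⟩
  · rcases hne with h | h
    · exact Or.inl fun h0 => h (by rw [h0, Polynomial.map_zero])
    · exact Or.inr fun h0 => h (by rw [h0, Polynomial.map_zero])
  · rwa [natDegree_map] at hu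
  · rwa [natDegree_map] at hw
  · have hhc : ∀ A : Polynomial Ω, hc d A (C a * X + C b) (C c * X + C e) =
        ∑ i ∈ Finset.range (d + 1),
          C (A.coeff i) * (C a * X + C b) ^ i * (C c * X + C e) ^ (d - i) := by
      intro A
      unfold hc hev
      exact Finset.sum_congr rfl fun i _ => by rw [coeff_map]
    rw [hhc, hhc]
    exact hid

theorem t_FLD (hCNJ : S_CNJ.{0}) (hNF : S_NF.{0}) (hISO : S_ISO.{0}) : S_FLD := by
  intro k _ _ m d hd P Q hPQ hiso
  have hcz : CharZero (RF k m) :=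
    charZero_of_injective_algebraMap (R := k) (algebraMap k _).injective
  obtain ⟨D₀, hD₀⟩ := hNF d hd
  obtain ⟨a, b, c, e, s, u, w, hdet, hs0, huw, htri, hone, hconj, -⟩ := hD₀ (RF k m) (generic P)
    (generic Q) hPQ
  have hPQ' : Rat d (genBar P) (genBar Q) := Rat_mp _ hPQ
  have hup : u.natDegree ≤ d := huw.2 ▸ le_max_left _ _
  have hwp : w.natDegree ≤ d := huw.2 ▸ le_max_right _ _
  obtain ⟨-, hC2, hC3⟩ := hCNJ _ d hd _ _ hPQ'
  have hcj : CJ d a b c e (genBar P) (genBar Q) (C s⁻¹ * u) (C s⁻¹ * w) := by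
    refine ⟨hdet, fun Z => ?_⟩
    have := hconj Z
    rw [bK_C, this, smul_smul, inv_mul_cancel₀ hs0, one_smul]
    rfl
  obtain ⟨t', ht', hcj'⟩ := CJ_scale hd hcj hs0
  have e1 : ∀ f : (AlgebraicClosure (RF k m))[X], C s * (C s⁻¹ * f) = f := by
    intro f
    rw [← mul_assoc, ← C_mul, mul_inv_cancel₀ hs0, C_1, one_mul]
  rw [e1, e1] at hcj'
  obtain ⟨hinv, -, -, -⟩ := hC2 _ _ _ _ u w huw hcj'
  have halg : ∀ (i : Fin m) (n : ℕ), IsAlgebraic (others k i) (u.coeff n) ∧
      IsAlgebraic (others k i) (w.coeff n) := by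
    intro i
    obtain ⟨E, hE⟩ : ∃ E : Subfield (AlgebraicClosure (RF k m)),
      E = (algebraicClosure (others k i) (AlgebraicClosure (RF k m))).toSubfield := ⟨_, rfl⟩
    have hEmem : ∀ x, x ∈ E ↔ IsAlgebraic (others k i) x := by
      intro x
      rw [hE]
      constructor
      · intro h
        exact (mem_algebraicClosure_iff'.mp h).isAlgebraic
      · intro h
        exact mem_algebraicClosure_iff'.mpr h.isIntegral
    have hEcl : IsAlgClosed E := by
      rw [hE]
      have h1 : IsAlgClosure (others k i)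
        (algebraicClosure (others k i) (AlgebraicClosure (RF k m))) := inferInstance
      exact h1.isAlgClosed
    have h1 : ConjConst E (genBar P) (genBar Q) d :=
      cc_of_iso (fun x hx => (hEmem x).mpr hx) (hiso i)
    obtain ⟨a₁, b₁, c₁, e₁, s₁, u₁, w₁, hs₁, huw₁, hco₁, hcj₁⟩ := hC3 E h1
    -- from `(u, w)` to `(u₁, w₁)`
    have h2 := CJ_comp hinv hcj₁
    obtain ⟨-, g2, -⟩ := hCNJ _ d hd u w huw
    obtain ⟨-, -, -, g3⟩ := g2 _ _ _ _ u₁ w₁ huw₁ h2
    have h3 := g3 E s₁ hs₁ hco₁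
    have h4 := hISO _ E d hd u w huw htri hone h3
    exact fun n => ⟨(hEmem _).mp (h4 n).1, (hEmem _).mp (h4 n).2⟩
  have hpd : (genBar P).natDegree ≤ d := hPQ'.2 ▸ le_max_left _ _
  have hqd : (genBar Q).natDegree ≤ d := hPQ'.2 ▸ le_max_right _ _
  obtain ⟨h1, h2⟩ := conj_poly hpd hqd hconj
  refine ⟨a, b, c, e, hdet, u, w, ?_, hup, hwp, fun n => alg_all _ fun i => (halg i n).1,
    fun n => alg_all _ fun i => (halg i n).2, ?_⟩
  · by_contra hcon
    push Not at hcon
    have := huw.2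
    rw [hcon.1, hcon.2] at this
    simp at this
    omega
  · rw [h1, h2]
    ring

end Pool.Agent.Q103.OP.Fld
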