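import Pool.Agent.Q103.OP.Lca

/-!
# Project OP: LCA, the normalised systems
-/

set_option autoImplicit false

namespace Pool.Agent.Q103.OP.Lcb

open Pool.Agent.Q103.OP Pool.Agent.Q103.OP.Bas Pool.Agent.Q103.OP.Ulb Pool.Agent.Q103.OP.Lca
open Finset Polynomial Pool.Agent.W277.UH
open Pool.Agent.Y706.CH (bK)

universe u v

lemma bK_one {K : Type*} [Field K] {d : ℕ} {p q : K[X]} (h : Rat d p q) (x : K) :
    bK d p q (x, 1) = (p.eval x, q.eval x) := by
  unfold bK
  rw [hev_one _ _ (h.2 ▸ le_max_left _ _), hev_one _ _ (h.2 ▸ le_max_right _ _)]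

/-- the fixed point polynomial is not zero -/
lemma fix_ne {K : Type*} [Field K] {d : ℕ} (hd : 2 ≤ d) {p q : K[X]} (h : Rat d p q) :
    (p - X * q : K[X]) ≠ 0 := by
  intro h0
  have h1 : p = X * q := sub_eq_zero.mp h0
  have hdiv : q ∣ p := ⟨X, by rw [h1, mul_comm]⟩
  have hqu : IsUnit q := h.1.symm.isUnit_of_dvd' dvd_rfl hdiv
  have hq0 : q.natDegree = 0 := natDegree_eq_zero_of_isUnit hqu
  have hpd : p.natDegree ≤ 1 := by
    rw [h1]
    refine natDegree_mul_le.trans ?_
    rw [natDegree_X, hq0]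
  have := h.2
  rw [hq0] at this
  simp at this
  omega

/-- the periodic points of period `m` are roots of a monic polynomial of degree at most
`d ^ m + 1` over any field which contains the coefficients -/
lemma per_root (hIT : S_ITER.{u}) {L Ω : Type u} [Field L] [Field Ω] [CharZero Ω] [Algebra L Ω]
    (E : IntermediateField L Ω) {d : ℕ} (hd : 2 ≤ d) {u w : Polynomial Ω} (huw : Rat d u w)
    (uE wE : Polynomial E) (hu : uE.map (algebraMap E Ω) = u) (hw : wE.map (algebraMap E Ω) = w)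
    {m : ℕ} (hm : 1 ≤ m) {x μ : Ω}
    (hper : (bK d u w)^[m] (x, 1) = μ • ((x, 1) : Ω × Ω)) :
    ∃ P : Polynomial Ω, P.Monic ∧ P.natDegree ≤ d ^ m + 1 ∧ (∀ i, P.coeff i ∈ E) ∧ P.IsRoot x := by
  have hcE : CharZero E := (algebraMap E Ω).charZero
  have huwE : Rat d uE wE := by
    refine ⟨?_, ?_⟩
    · have := huw.1
      rw [← hu, ← hw] at this
      exact (isCoprime_map (algebraMap E Ω)).mp this
    · have := huw.2
      rw [← hu, ← hw, natDegree_map, natDegree_map] at this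
      exact this
  have hdm : 2 ≤ d ^ m := hd.trans (Nat.le_self_pow (by omega) d)
  obtain ⟨P, Q, hPQ, hit, -⟩ := hIT Ω d hd u w huw m
  obtain ⟨P', Q', hPQ', hit', -⟩ := hIT E d hd uE wE huwE m
  have hval : ∀ y : E, ((P'.map (algebraMap E Ω)).eval (algebraMap E Ω y),
      (Q'.map (algebraMap E Ω)).eval (algebraMap E Ω y)) =
      (P.eval (algebraMap E Ω y), Q.eval (algebraMap E Ω y)) := by
    intro y
    have h1 := hit' (y, 1)
    have h2 := hit (algebraMap E Ω y, 1)
    rw [bK_one hPQ'] at h1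
    rw [bK_one hPQ] at h2
    have h3 := iter_mp (algebraMap E Ω) d uE wE (y, 1) m
    rw [← h1, hu, hw] at h3
    have h4 : vmp (algebraMap E Ω) (y, 1) = (algebraMap E Ω y, 1) := by
      unfold vmp
      simp
    rw [h4, ← h2] at h3
    rw [h3]
    unfold vmp
    rw [eval_map, eval_map, eval₂_at_apply, eval₂_at_apply]
  have hinf : ∀ A A' : Polynomial Ω, (∀ y : E, A.eval (algebraMap E Ω y) =
      A'.eval (algebraMap E Ω y)) → A = A' := by
    intro A A' h
    apply Polynomial.eq_of_infinite_eval_eq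
    have : Infinite E := CharZero.infinite E
    refine (Set.infinite_range_of_injective (algebraMap E Ω).injective).mono ?_
    rintro z ⟨y, rfl⟩
    exact h y
  have eP : P'.map (algebraMap E Ω) = P := hinf _ _ fun y => congrArg Prod.fst (hval y)
  have eQ : Q'.map (algebraMap E Ω) = Q := hinf _ _ fun y => congrArg Prod.snd (hval y)
  obtain ⟨G, hG⟩ : ∃ G, G = P' - X * Q' := ⟨_, rfl⟩
  have hG0 : G ≠ 0 := hG ▸ fix_ne hdm hPQ'
  refine ⟨(C (G.leadingCoeff)⁻¹ * G).map (algebraMap E Ω), ?_, ?_, ?_, ?_⟩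
  · refine Monic.map _ ?_
    exact monic_C_mul_of_mul_leadingCoeff_eq_one
      (inv_mul_cancel₀ (leadingCoeff_ne_zero.mpr hG0))
  · refine natDegree_map_le.trans ((natDegree_C_mul_le _ _).trans ?_)
    rw [hG]
    refine (natDegree_sub_le _ _).trans (max_le ?_ ?_)
    · exact (hPQ'.2 ▸ le_max_left _ _ : P'.natDegree ≤ d ^ m).trans (Nat.le_succ _)
    · refine natDegree_mul_le.trans ?_
      rw [natDegree_X]
      have : Q'.natDegree ≤ d ^ m := hPQ'.2 ▸ le_max_right _ _
      omega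
  · intro i
    rw [coeff_map]
    exact ((C (G.leadingCoeff)⁻¹ * G).coeff i).2
  · rw [IsRoot.def, Polynomial.map_mul, eval_mul, hG, Polynomial.map_sub, Polynomial.map_mul,
      Polynomial.map_X, eP, eQ, eval_sub, eval_mul, eval_X]
    have h1 := hit (x, 1)
    rw [bK_one hPQ, hper] at h1
    have h2 : P.eval x = μ * x := congrArg Prod.fst h1
    have h3 : Q.eval x = μ := by
      have : Q.eval x = μ * 1 := congrArg Prod.snd h1
      rwa [mul_one] at this
    rw [h2, h3]
    ring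


lemma vmp_inj {K L : Type*} [Field K] [Field L] (φ : K →+* L) {Z W : K × K}
    (h : vmp φ Z = vmp φ W) : Z = W :=
  Prod.ext (φ.injective (congrArg Prod.fst h)) (φ.injective (congrArg Prod.snd h))

theorem part1 (hHN : S_HN.{u, v}) (hNF : S_NF.{u}) (hMUL : S_MUL.{u, v}) (hIT : S_ITER.{u})
    (hCNJ : S_CNJ.{u}) (n d : ℕ) (hd : 2 ≤ d) :
    ∃ (A : ℕ → ℝ) (Bf : ℕ → ℕ) (D₀ D₁ : ℕ) (D₂ : ℕ → ℕ) (C₁ : ℕ → ℝ), (∀ D, 0 ≤ A D) ∧
    ∀ (B : ℕ) (k : Type v) (L : Type u) [Field k] [CharZero k] [Field L] [Algebra k L] (t : L),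
    Transcendental k t → FiniteDimensional (IntermediateField.adjoin k {t}) L →
    Module.finrank (IntermediateField.adjoin k {t}) L ≤ n → ∀ p q : L[X], Rat d p q →
    ¬ Pool.Agent.Y706.BI.IsoAlg k (p.map (algebraMap L (AlgebraicClosure L)))
      (q.map (algebraMap L (AlgebraicClosure L))) d →
    ¬ Lat d (p.map (algebraMap L (AlgebraicClosure L)))
      (q.map (algebraMap L (AlgebraicClosure L))) →
    ¬ Pool.Agent.Y706.CH7.LCH k p q d (B + D₁) → Nonempty (NS.{u} d A Bf D₀ D₂ C₁ B) := by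
  classical
  obtain ⟨A, Bf, hA, hHN⟩ := hHN n
  obtain ⟨D₀, hNF⟩ := hNF d hd
  obtain ⟨D₁, hD₁⟩ : ∃ D₁, D₁ = (max D₀ 1) ^ (4 * d + 5) := ⟨_, rfl⟩
  have hD₁1 : 1 ≤ D₁ := by
    rw [hD₁]
    exact Nat.one_le_pow _ _ (lt_of_lt_of_le one_pos (le_max_right _ _))
  obtain ⟨D₂, hD₂⟩ : ∃ D₂ : ℕ → ℕ, D₂ = fun m => Bf (max D₁ (d ^ m + 1)) * D₁ := ⟨_, rfl⟩
  have hC : ∀ m : ℕ, ∃ C₁ : ℝ, 1 ≤ m → 0 ≤ C₁ ∧
      ∀ (k : Type v) (E : Type u) [Field k] [CharZero k] [Field E] [Algebra k E] (t : E),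
      Transcendental k t → FiniteDimensional (IntermediateField.adjoin k {t}) E →
      Module.finrank (IntermediateField.adjoin k {t}) E ≤ n * D₂ m → ∀ p q : E[X], Rat d p q →
      (Wr p q).Splits → ∀ b : ℝ, 0 ≤ b →
      (∀ c : Option E, Pool.Agent.Y706.CH7.IsCritical p q d c →
        Pool.Agent.Y706.CH7.canHeight k p q d c ≤ ENNReal.ofReal b) →
      ∀ (X₀ : E × E) (μ : E), X₀ ≠ 0 → μ ≠ 0 → (bK d p q)^[m] X₀ = μ • X₀ → ∀ N : ℕ, 1 ≤ N →
      ((N : ℝ) - 3) * (Module.finrank (IntermediateField.adjoin k {mlt d p q m X₀ μ}) E : ℝ) ≤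
        C₁ * Pool.Agent.Y706.CH7.mapHeight k p q d + C₁ * (d : ℝ) ^ (m * N) * b := by
    intro m
    by_cases hm : 1 ≤ m
    · obtain ⟨C₁, h0, h1⟩ := hMUL (n * D₂ m) d m hd hm
      exact ⟨C₁, fun _ => ⟨h0, h1⟩⟩
    · exact ⟨0, fun h => absurd h hm⟩
  choose C₁ hC₁ using hC
  refine ⟨A, Bf, D₀, D₁, D₂, C₁, hA, ?_⟩
  intro B k L _ _ _ _ t ht hfdL hnn p q hpq hiso hlat hlch
  have hcL : CharZero L := charZero_of_injective_algebraMap (algebraMap k L).injective
  have hcΩ : CharZero (AlgebraicClosure L) :=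
    charZero_of_injective_algebraMap (algebraMap L (AlgebraicClosure L)).injective
  obtain ⟨⟨S, hSdg, hSh⟩, hzero, hfin⟩ := hHN k L t ht hfdL hnn
  obtain ⟨a, b, c, e, s, u, w, hdet, hs0, huw, htri, hone, hconj, da, db, dc, de, ds, dco, dcr⟩ :=
    hNF L p q hpq
  have hup : u.natDegree ≤ d := huw.2 ▸ le_max_left _ _
  have hwp : w.natDegree ≤ d := huw.2 ▸ le_max_right _ _
  have hhn : ∀ x, 0 ≤ hn k L x := by
    intro x
    rw [← hSh]
    exact S.h_nonneg x
  have hint : ∀ x : AlgebraicClosure L, IsIntegral L x := fun x =>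
    (Algebra.IsAlgebraic.isAlgebraic x).isIntegral
  obtain ⟨H, hH⟩ : ∃ H, H = HH k d u w := ⟨_, rfl⟩
  obtain ⟨i₀, hi₀, hi₀'⟩ := Finset.exists_mem_eq_sup' (s := range (d + 1))
      ⟨0, mem_range.mpr (Nat.succ_pos d)⟩
      (fun i => max (hn k L (u.coeff i)) (hn k L (w.coeff i)))
  have hHi : H = max (hn k L (u.coeff i₀)) (hn k L (w.coeff i₀)) := by
    rw [hH]
    exact hi₀'
  have hHnn : 0 ≤ H := by
    rw [hHi]
    exact (hhn _).trans (le_max_left _ _)
  -- the height of the map is positive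
  have hHpos : 0 < H := by
    rcases hHnn.lt_or_eq with h | h
    · exact h
    exfalso
    apply hiso
    have halg : ∀ i, IsAlgebraic k (u.coeff i) ∧ IsAlgebraic k (w.coeff i) := by
      intro i
      by_cases hi : i ≤ d
      · have h1 : max (hn k L (u.coeff i)) (hn k L (w.coeff i)) ≤ H := by
          rw [hH]
          exact Finset.le_sup' (fun i => max (hn k L (u.coeff i)) (hn k L (w.coeff i)))
            (mem_range.mpr (by omega))
        rw [← h, max_le_iff] at h1
        exact ⟨(hzero _).mp (le_antisymm h1.1 (hhn _)), (hzero _).mp (le_antisymm h1.2 (hhn _))⟩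
      · rw [coeff_eq_zero_of_natDegree_lt (by omega), coeff_eq_zero_of_natDegree_lt (by omega)]
        exact ⟨isAlgebraic_zero, isAlgebraic_zero⟩
    have hpd : p.natDegree ≤ d := hpq.2 ▸ le_max_left _ _
    have hqd : q.natDegree ≤ d := hpq.2 ▸ le_max_right _ _
    obtain ⟨h1, h2⟩ := conj_poly (natDegree_map_le.trans hpd) (natDegree_map_le.trans hqd) hconj
    refine ⟨a, b, c, e, hdet, u, w, ?_, hup, hwp, fun i => (halg i).1, fun i => (halg i).2, ?_⟩
    · by_contra hcon
      push Not at hcon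
      have := huw.2
      rw [hcon.1, hcon.2] at this
      simp at this
      omega
    · rw [h1, h2]
      ring
  -- the finite set
  obtain ⟨T₀, hT₀⟩ : ∃ T₀ : Finset (AlgebraicClosure L), T₀ = ({a, b, c, e, s} ∪
    ((range (d + 1)).image u.coeff ∪ (range (d + 1)).image w.coeff)) ∪
      (Wr u w).roots.toFinset := ⟨_, rfl⟩
  have hT₀d : ∀ x ∈ T₀, dn L x ≤ D₀ := by
    intro x hx
    rw [hT₀, mem_union, mem_union, mem_union, mem_image, mem_image, Multiset.mem_toFinset] at hx
    rcases hx with (hx | ⟨i, -, rfl⟩ | ⟨i, -, rfl⟩) | hx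
    · simp only [mem_insert, mem_singleton] at hx
      rcases hx with rfl | rfl | rfl | rfl | rfl
      · exact da
      · exact db
      · exact dc
      · exact de
      · exact ds
    · exact (dco i).1
    · exact (dco i).2
    · exact dcr x (isRoot_of_mem_roots hx)
  have hT₀c : T₀.card ≤ 4 * d + 5 := by
    rw [hT₀]
    refine (card_union_le _ _).trans ?_
    have h1 : (({a, b, c, e, s} : Finset (AlgebraicClosure L)) ∪
        ((range (d + 1)).image u.coeff ∪ (range (d + 1)).image w.coeff)).card ≤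
        5 + ((d + 1) + (d + 1)) := by
      refine (card_union_le _ _).trans (Nat.add_le_add card_le_five ?_)
      refine (card_union_le _ _).trans (Nat.add_le_add ?_ ?_)
      · exact card_image_le.trans (card_range _).le
      · exact card_image_le.trans (card_range _).le
    have h2 : (Wr u w).roots.toFinset.card ≤ 2 * d - 2 :=
      (Multiset.toFinset_card_le _).trans ((card_roots' _).trans (Wr_deg hd huw))
    omega
  obtain ⟨hfd₀, hfr₀⟩ := adj_deg (max D₀ 1) T₀ fun x hx =>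
    ⟨hint x, (hT₀d x hx).trans (le_max_left D₀ 1)⟩
  have hE₀D : Module.finrank L (IntermediateField.adjoin L (T₀ : Set (AlgebraicClosure L))) ≤
      D₁ := by
    rw [hD₁]
    exact hfr₀.trans (Nat.pow_le_pow_right (lt_of_lt_of_le one_pos (le_max_right _ _)) hT₀c)
  -- every field which contains the set
  have core : ∀ (E : IntermediateField L (AlgebraicClosure L)), FiniteDimensional L E →
      (∀ x ∈ T₀, x ∈ E) → Module.finrank L E ≤ B + D₁ → ∃ (uE wE : E[X]),
      uE.map (algebraMap E (AlgebraicClosure L)) = u ∧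
      wE.map (algebraMap E (AlgebraicClosure L)) = w ∧ Rat d uE wE ∧ (Wr uE wE).Splits ∧
      ∀ z, Pool.Agent.Y706.CH7.IsCritical uE wE d z →
        ¬ ((Pool.Agent.Y706.CH7.mapHeight k uE wE d : ENNReal) ≤ ((B + D₁ : ℕ) : ENNReal) *
          Pool.Agent.Y706.CH7.canHeight k uE wE d z) := by
    intro E hEfd hTE hEr
    have mem5 : ∀ x, x ∈ ({a, b, c, e, s} : Finset (AlgebraicClosure L)) → x ∈ E := by
      intro x hx
      apply hTE
      rw [hT₀, mem_union, mem_union]
      exact Or.inl (Or.inl hx)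
    have hcoE : ∀ i, u.coeff i ∈ E ∧ w.coeff i ∈ E := by
      intro i
      by_cases hi : i ≤ d
      · refine ⟨hTE _ ?_, hTE _ ?_⟩
        · rw [hT₀, mem_union, mem_union, mem_union, mem_image]
          exact Or.inl (Or.inr (Or.inl ⟨i, mem_range.mpr (by omega), rfl⟩))
        · rw [hT₀, mem_union, mem_union, mem_union, mem_image, mem_image]
          exact Or.inl (Or.inr (Or.inr ⟨i, mem_range.mpr (by omega), rfl⟩))
      · rw [coeff_eq_zero_of_natDegree_lt (by omega), coeff_eq_zero_of_natDegree_lt (by omega)]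
        exact ⟨E.zero_mem, E.zero_mem⟩
    obtain ⟨uE, huE⟩ := liftE E u fun i => (hcoE i).1
    obtain ⟨wE, hwE⟩ := liftE E w fun i => (hcoE i).2
    have huwE : Rat d uE wE := by
      refine ⟨?_, ?_⟩
      · have := huw.1
        rw [← huE, ← hwE] at this
        exact (isCoprime_map (algebraMap E (AlgebraicClosure L))).mp this
      · have := huw.2
        rw [← huE, ← hwE, natDegree_map, natDegree_map] at this
        exact this
    have hspl : (Wr uE wE).Splits := by
      have := Polynomial.Splits.of_splits_map (f := Wr uE wE)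
        (algebraMap E (AlgebraicClosure L))
      refine this (IsAlgClosed.splits _) ?_
      intro x hx
      rw [← Wr_mp, huE, hwE] at hx
      have hxE : x ∈ E := by
        apply hTE
        rw [hT₀, mem_union, Multiset.mem_toFinset]
        exact Or.inr hx
      exact ⟨⟨x, hxE⟩, rfl⟩
    refine ⟨uE, wE, huE, hwE, huwE, hspl, ?_⟩
    intro z hz hle
    apply hlch
    have hcE : CharZero E := (algebraMap E (AlgebraicClosure L)).charZero
    refine ⟨E, inferInstance, inferInstance, inferInstance, inferInstance, hEfd, hEr, uE, wE,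
      huwE.1, huwE.2, ?_, hspl, z, hz, ?_, hle⟩
    · refine conj_down E ⟨a, mem5 a (by simp)⟩ ⟨b, mem5 b (by simp)⟩ ⟨c, mem5 c (by simp)⟩
        ⟨e, mem5 e (by simp)⟩ ⟨s, mem5 s (by simp)⟩ p q uE wE (hpq.2 ▸ le_max_left _ _)
        (hpq.2 ▸ le_max_right _ _) hdet hs0 ?_
      rw [huE, hwE]
      exact hconj
    · have h1 := mapH (k := k) d u w E (fun x => hfin E hEfd x) uE wE huE hwE
      rw [← hH] at h1
      have h2 : (0 : ℝ) < Module.finrank L E := Nat.cast_pos.mpr Module.finrank_pos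
      have h3 : (0 : ℝ) < (Pool.Agent.Y706.CH7.mapHeight k uE wE d : ℝ) := by
        rw [h1]
        exact mul_pos hHpos h2
      exact_mod_cast h3
  -- not Lattes
  have hnlat : ¬ Lat d u w := by
    intro hL
    apply hlat
    have hPQ : Rat d (p.map (algebraMap L (AlgebraicClosure L)))
      (q.map (algebraMap L (AlgebraicClosure L))) := Rat_mp _ hpq
    obtain ⟨-, hC2, -⟩ := hCNJ _ d hd _ _ hPQ
    have hcj : CJ d a b c e (p.map (algebraMap L (AlgebraicClosure L)))
        (q.map (algebraMap L (AlgebraicClosure L))) (C s⁻¹ * u) (C s⁻¹ * w) := by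
      refine ⟨hdet, fun Z => ?_⟩
      rw [bK_C, hconj, smul_smul, inv_mul_cancel₀ hs0, one_smul]
    obtain ⟨t', -, hcj'⟩ := CJ_scale hd hcj hs0
    have e1 : ∀ f : (AlgebraicClosure L)[X], C s * (C s⁻¹ * f) = f := by
      intro f
      rw [← mul_assoc, ← C_mul, mul_inv_cancel₀ hs0, C_1, one_mul]
    rw [e1, e1] at hcj'
    obtain ⟨-, -, h3, -⟩ := hC2 _ _ _ _ u w huw hcj'
    exact h3.mpr hL
  -- multipliers at normalised points
  have key : ∀ m : ℕ, 1 ≤ m → D₂ m ≤ B → ∀ (x : AlgebraicClosure L)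
      (Z₀ : AlgebraicClosure L × AlgebraicClosure L) (μ₀ : AlgebraicClosure L),
      (Z₀ = (x, 1) ∨ (Z₀ = (1, 0) ∧ x = 0)) → μ₀ ≠ 0 → (bK d u w)^[m] Z₀ = μ₀ • Z₀ →
      S.dg (mlt d u w m Z₀ μ₀) ≤ D₂ m ∧ ∀ N : ℕ, 4 ≤ N →
      ((N : ℝ) - 3) * S.h (mlt d u w m Z₀ μ₀) ≤
        C₁ m * H + C₁ m * (d : ℝ) ^ (m * N) * (H / B) := by
    intro m hm hDB x Z₀ μ₀ hZ₀ hμ₀ hper
    have hZ₀0 : Z₀ ≠ 0 := by
      rcases hZ₀ with rfl | ⟨rfl, -⟩
      · exact fun h => one_ne_zero (congrArg Prod.snd h)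
      · exact fun h => one_ne_zero (congrArg Prod.fst h)
    -- the degree of `x`
    have hx : dn L x ≤ Bf (max D₁ (d ^ m + 1)) := by
      obtain ⟨P, hP1, hP2, hP3, hP4⟩ : ∃ P : (AlgebraicClosure L)[X], P.Monic ∧
          P.natDegree ≤ max D₁ (d ^ m + 1) ∧
          (∀ i, S.dg (P.coeff i) ≤ max D₁ (d ^ m + 1)) ∧ P.IsRoot x := by
        rcases hZ₀ with rfl | ⟨-, rfl⟩
        · obtain ⟨uE, wE, huE, hwE, -⟩ := core
            (IntermediateField.adjoin L (T₀ : Set (AlgebraicClosure L))) hfd₀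
            (fun x hx => IntermediateField.subset_adjoin L _ hx) (by omega)
          obtain ⟨P, h1, h2, h3, h4⟩ := per_root hIT _ hd huw uE wE huE hwE hm hper
          refine ⟨P, h1, h2.trans (le_max_right _ _), fun i => ?_, h4⟩
          rw [hSdg]
          exact (dn_le _ (h3 i)).trans (hE₀D.trans (le_max_left _ _))
        · refine ⟨X, monic_X, ?_, fun i => ?_, ?_⟩
          · rw [natDegree_X]
            exact hD₁1.trans (le_max_left _ _)
          · have h01 : ∀ j : ℕ, (X : (AlgebraicClosure L)[X]).coeff j = 1 ∨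
                (X : (AlgebraicClosure L)[X]).coeff j = 0 := by
              intro j
              rw [coeff_X]
              split_ifs
              · exact Or.inl rfl
              · exact Or.inr rfl
            rcases h01 i with h | h
            · rw [h]
              exact S.one.1.trans (hD₁1.trans (le_max_left _ _))
            · rw [h]
              exact S.zero.1.trans (hD₁1.trans (le_max_left _ _))
          · rw [IsRoot.def, eval_X]
      have := (S.root _ P hP1 hP2 hP3 x hP4).1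
      rwa [hSdg] at this
    -- the field
    obtain ⟨E, hE⟩ : ∃ E, E = IntermediateField.adjoin L {x} ⊔
      IntermediateField.adjoin L (T₀ : Set (AlgebraicClosure L)) := ⟨_, rfl⟩
    have hEfd : FiniteDimensional L E := by
      have := IntermediateField.adjoin.finiteDimensional (hint x)
      rw [hE]
      infer_instance
    have hED : Module.finrank L E ≤ D₂ m := by
      rw [hE, hD₂]
      exact (IntermediateField.finrank_sup_le _ _).trans (Nat.mul_le_mul hx hE₀D)
    have hxE : x ∈ E := by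
      rw [hE]
      exact (le_sup_left : IntermediateField.adjoin L {x} ≤ _)
        (IntermediateField.mem_adjoin_simple_self L x)
    have hTE : ∀ y ∈ T₀, y ∈ E := by
      intro y hy
      rw [hE]
      exact (le_sup_right : IntermediateField.adjoin L (T₀ : Set (AlgebraicClosure L)) ≤ _)
        (IntermediateField.subset_adjoin L _ hy)
    obtain ⟨uE, wE, huE, hwE, huwE, hspl, hnl⟩ := core E hEfd hTE (by omega)
    have hcE : CharZero E := (algebraMap E (AlgebraicClosure L)).charZero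
    have hE1 : 1 ≤ Module.finrank L E := Module.finrank_pos
    have hB1 : 1 ≤ B := hE1.trans (hED.trans hDB)
    -- the transcendental element
    have htE : Transcendental k (algebraMap L E t) :=
      (transcendental_algebraMap_iff (algebraMap L E).injective).mpr ht
    have hHTE := Pool.Agent.Y555.CH.t_HTE k L E t
    have hfrE : Module.finrank (IntermediateField.adjoin k {algebraMap L E t}) E ≤
        n * D₂ m := by
      rw [hHTE]
      exact Nat.mul_le_mul hnn hED
    have hfdE : FiniteDimensional (IntermediateField.adjoin k {algebraMap L E t}) E := by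
      apply Module.finite_of_finrank_pos
      rw [hHTE]
      exact Nat.mul_pos Module.finrank_pos Module.finrank_pos
    -- the vector over `E`
    obtain ⟨X₀, hX₀⟩ : ∃ X₀ : E × E, vmp (algebraMap E (AlgebraicClosure L)) X₀ = Z₀ := by
      rcases hZ₀ with rfl | ⟨rfl, -⟩
      · exact ⟨(⟨x, hxE⟩, 1), by unfold vmp; exact Prod.ext rfl (map_one _)⟩
      · exact ⟨(1, 0), by unfold vmp; exact Prod.ext (map_one _) (map_zero _)⟩
    have hX₀0 : X₀ ≠ 0 := by
      rintro rfl
      apply hZ₀0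
      rw [← hX₀]
      unfold vmp
      exact Prod.ext (map_zero _) (map_zero _)
    have hV : vmp (algebraMap E (AlgebraicClosure L)) ((bK d uE wE)^[m] X₀) = μ₀ • Z₀ := by
      rw [← iter_mp, huE, hwE, hX₀, hper]
    obtain ⟨μE, hμE⟩ : ∃ μE : E, algebraMap E (AlgebraicClosure L) μE = μ₀ := by
      rcases hZ₀ with rfl | ⟨rfl, -⟩
      · refine ⟨((bK d uE wE)^[m] X₀).2, ?_⟩
        have := congrArg Prod.snd hV
        simpa [vmp] using this
      · refine ⟨((bK d uE wE)^[m] X₀).1, ?_⟩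
        have := congrArg Prod.fst hV
        simpa [vmp] using this
    have hμE0 : μE ≠ 0 := by
      rintro rfl
      apply hμ₀
      rw [← hμE, map_zero]
    have hperE : (bK d uE wE)^[m] X₀ = μE • X₀ := by
      apply vmp_inj (algebraMap E (AlgebraicClosure L))
      rw [hV, vmp_smul, hμE, hX₀]
    have hlam : algebraMap E (AlgebraicClosure L) (mlt d uE wE m X₀ μE) =
        mlt d u w m Z₀ μ₀ := by
      rw [← mlt_mp, huE, hwE, hX₀, hμE]
    have hlamE : mlt d u w m Z₀ μ₀ ∈ E := by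
      rw [← hlam]
      exact (mlt d uE wE m X₀ μE).2
    refine ⟨?_, fun N hN => ?_⟩
    · rw [hSdg]
      exact (dn_le E hlamE).trans hED
    have hBD : 0 < B + D₁ := by omega
    have hcan : ∀ z : Option E, Pool.Agent.Y706.CH7.IsCritical uE wE d z →
        Pool.Agent.Y706.CH7.canHeight k uE wE d z ≤ ENNReal.ofReal
          ((Pool.Agent.Y706.CH7.mapHeight k uE wE d : ℝ) / (B + D₁ : ℕ)) := fun z hz =>
      can_le hBD (hnl z hz)
    have hfinal := (hC₁ m hm).2 k E (algebraMap L E t) htE hfdE hfrE uE wE huwE hspl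
      ((Pool.Agent.Y706.CH7.mapHeight k uE wE d : ℝ) / (B + D₁ : ℕ)) (by positivity) hcan X₀ μE
      hX₀0 hμE0 hperE N (by omega)
    have hC0 : 0 ≤ C₁ m := (hC₁ m hm).1
    have hmH := mapH (k := k) d u w E (fun x => hfin E hEfd x) uE wE huE hwE
    rw [← hH] at hmH
    have hr0 : (0 : ℝ) < Module.finrank L E := Nat.cast_pos.mpr hE1
    have hf1 := hfin E hEfd (mlt d uE wE m X₀ μE)
    have hco : ((mlt d uE wE m X₀ μE : E) : AlgebraicClosure L) = mlt d u w m Z₀ μ₀ := hlam
    rw [hco] at hf1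
    rw [hf1, hmH] at hfinal
    rw [hSh]
    have hBr : (0 : ℝ) < B := Nat.cast_pos.mpr hB1
    have hle : H * (Module.finrank L E : ℝ) / ((B + D₁ : ℕ) : ℝ) ≤
        H / B * (Module.finrank L E : ℝ) := by
      rw [div_mul_eq_mul_div]
      refine div_le_div_of_nonneg_left (by positivity) hBr ?_
      push_cast
      linarith [(Nat.cast_nonneg D₁ : (0 : ℝ) ≤ D₁)]
    have h5 : ((N : ℝ) - 3) * hn k L (mlt d u w m Z₀ μ₀) * (Module.finrank L E : ℝ) ≤
        (C₁ m * H + C₁ m * (d : ℝ) ^ (m * N) * (H / B)) * (Module.finrank L E : ℝ) := by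
      have h6 : C₁ m * (d : ℝ) ^ (m * N) * (H * (Module.finrank L E : ℝ) / ((B + D₁ : ℕ) : ℝ)) ≤
          C₁ m * (d : ℝ) ^ (m * N) * (H / B * (Module.finrank L E : ℝ)) :=
        mul_le_mul_of_nonneg_left hle (by positivity)
      calc ((N : ℝ) - 3) * hn k L (mlt d u w m Z₀ μ₀) * (Module.finrank L E : ℝ)
          = ((N : ℝ) - 3) * (hn k L (mlt d u w m Z₀ μ₀) * (Module.finrank L E : ℝ)) := by ring
        _ ≤ _ := hfinal
        _ ≤ C₁ m * (H * (Module.finrank L E : ℝ)) +
            C₁ m * (d : ℝ) ^ (m * N) * (H / B * (Module.finrank L E : ℝ)) := by linarith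
        _ = _ := by ring
    exact le_of_mul_le_mul_right h5 hr0
  refine ⟨⟨AlgebraicClosure L, S, u, w, H, hHpos, huw, htri, hone, ?_, ?_, ?_, hnlat⟩⟩
  · intro i
    rw [hSdg]
    exact dco i
  · refine ⟨i₀, ?_⟩
    rw [hHi, hSh]
    exact le_max_iff.mp le_rfl
  · intro m hm hDB Z μ hZ hμ hper
    have hdm : 1 ≤ d ^ m := Nat.one_le_pow _ _ (by omega)
    -- scaling
    obtain ⟨x, τ, Z₀, hτ, hZ₀, hZτ⟩ : ∃ (x τ : AlgebraicClosure L)
        (Z₀ : AlgebraicClosure L × AlgebraicClosure L), τ ≠ 0 ∧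
        (Z₀ = (x, 1) ∨ (Z₀ = (1, 0) ∧ x = 0)) ∧ Z = τ • Z₀ := by
      by_cases h2 : Z.2 = 0
      · have h1 : Z.1 ≠ 0 := fun h => hZ (Prod.ext h h2)
        refine ⟨0, Z.1, (1, 0), h1, Or.inr ⟨rfl, rfl⟩, ?_⟩
        ext
        · simp
        · simp [h2]
      · refine ⟨Z.1 / Z.2, Z.2, (Z.1 / Z.2, 1), h2, Or.inl rfl, ?_⟩
        ext
        · simp only [Prod.smul_fst, smul_eq_mul]
          field_simp
        · simp
    obtain ⟨μ₀, hμ₀⟩ : ∃ μ₀, μ₀ = μ / τ ^ (d ^ m - 1) := ⟨_, rfl⟩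
    have hμμ₀ : μ = τ ^ (d ^ m - 1) * μ₀ := by
      rw [hμ₀]
      field_simp
    have hμ₀0 : μ₀ ≠ 0 := by
      rintro rfl
      rw [mul_zero] at hμμ₀
      exact hμ hμμ₀
    have hper₀ : (bK d u w)^[m] Z₀ = μ₀ • Z₀ := by
      rw [hZτ, iter_smul, hμμ₀, smul_smul] at hper
      have h1 : τ ^ (d ^ m) = τ ^ (d ^ m - 1) * τ := by
        rw [← pow_succ]
        congr 1
        omega
      have h2 : τ ^ (d ^ m) • (bK d u w)^[m] Z₀ = τ ^ (d ^ m) • (μ₀ • Z₀) := by
        rw [hper, smul_smul, h1]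
        congr 1
        ring
      exact smul_right_injective _ (pow_ne_zero _ hτ) h2
    have h3 := key m hm hDB x Z₀ μ₀ hZ₀ hμ₀0 hper₀
    have h4 : mlt d u w m Z μ = mlt d u w m Z₀ μ₀ := by
      rw [hZτ, hμμ₀]
      exact mlt_smul hd Z₀ μ₀ hτ
    rw [h4]
    exact h3

/-- the negation of LCA, packed -/
structure Cx (n d B : ℕ) : Type (max (u + 1) (v + 1)) where
  k : Type v
  L : Type u
  [ik : Field k]
  [ck : CharZero k]
  [iL : Field L]
  [aL : Algebra k L]
  t : L
  ht : Transcendental k t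
  hfd : FiniteDimensional (IntermediateField.adjoin k {t}) L
  hn : Module.finrank (IntermediateField.adjoin k {t}) L ≤ n
  p : L[X]
  q : L[X]
  hpq : Rat d p q
  hiso : ¬ Pool.Agent.Y706.BI.IsoAlg k (p.map (algebraMap L (AlgebraicClosure L)))
    (q.map (algebraMap L (AlgebraicClosure L))) d
  hlat : ¬ Lat d (p.map (algebraMap L (AlgebraicClosure L)))
    (q.map (algebraMap L (AlgebraicClosure L)))
  hlch : ¬ Pool.Agent.Y706.CH7.LCH k p q d B

theorem t_LCA (hHN : S_HN.{u, v}) (hNF : S_NF.{u}) (hMUL : S_MUL.{u, v}) (hIT : S_ITER.{u})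
    (hCNJ : S_CNJ.{u}) (hULT : S_ULT.{u}) (hKAP : S_KAP.{u}) (hMCM : S_MCM.{u})
    (hISO : S_ISO.{u}) : S_LCA.{u, v} := by
  classical
  intro n d hd
  obtain ⟨A, Bf, D₀, D₁, D₂, C₁, hA, hpart⟩ := part1 hHN hNF hMUL hIT hCNJ n d hd
  by_contra hcon
  have hall : ∀ B : ℕ, Nonempty (Cx.{u, v} n d B) := by
    intro B
    by_contra hB
    apply hcon
    refine ⟨B, ?_⟩
    intro k L _ _ _ _ t ht hfd hn p q hpq hiso hlat
    by_contra hlch
    exact hB ⟨⟨k, L, t, ht, hfd, hn, p, q, hpq, hiso, hlat, hlch⟩⟩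
  have hNS : ∀ B : ℕ, Nonempty (NS.{u} d A Bf D₀ D₂ C₁ B) := by
    intro B
    obtain ⟨X⟩ := hall (B + D₁)
    obtain ⟨k, L, t, ht, hfd, hn, p, q, hpq, hiso, hlat, hlch⟩ := X
    exact hpart B k L t ht hfd hn p q hpq hiso hlat hlch
  exact ultra hULT hKAP hMCM hISO d hd A hA Bf D₀ D₂ C₁ fun i => (hNS i).some

end Pool.Agent.Q103.OP.Lcb
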