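import Pool.Agent.Q208.OP.CNJ2

/-!
# Project OP: SQR (the degree of a Lattes map in the sense of `Lat` is a square)
-/

set_option autoImplicit false

namespace Pool.Agent.Q103.OP.Sqr

open Finset Polynomial Pool.Agent.Q103.OP Pool.Agent.Q208.OP Pool.Agent.W277.UH
open Pool.Agent.Y706.CH (bK)

universe u

section local_part

variable {K : Type u} [Field K]

/-- comparing orders and leading coefficients -/
lemma cmp (x : K) (i j : ℕ) (G H : K[X]) (hG : G.eval x ≠ 0) (hH : H.eval x ≠ 0)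
    (h : (X - C x) ^ i * G = (X - C x) ^ j * H) : i = j ∧ G.eval x = H.eval x := by
  have key : ∀ (i k : ℕ) (G H : K[X]), G.eval x ≠ 0 →
      (X - C x) ^ i * G ≠ (X - C x) ^ (i + k + 1) * H := by
    intro i k G H hG h
    have h1 : (X - C x) ^ i * G = (X - C x) ^ i * ((X - C x) ^ (k + 1) * H) := by
      rw [h]; ring
    have h2 := mul_left_cancel₀ (pow_ne_zero _ (X_sub_C_ne_zero x)) h1
    apply hG
    rw [h2, eval_mul, eval_pow, eval_sub, eval_X, eval_C, sub_self, zero_pow (by omega), zero_mul]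
  rcases lt_trichotomy i j with h1 | h1 | h1
  · obtain ⟨k, rfl⟩ := Nat.exists_eq_add_of_lt h1
    exact absurd h (key i k G H hG)
  · subst h1
    refine ⟨rfl, ?_⟩
    rw [mul_left_cancel₀ (pow_ne_zero _ (X_sub_C_ne_zero x)) h]
  · obtain ⟨k, rfl⟩ := Nat.exists_eq_add_of_lt h1
    exact absurd h.symm (key j k H G hH)

/-- the cofactor of the power of `X - y` -/
noncomputable def rd (y : K) (R : K[X]) : K[X] := R /ₘ (X - C y) ^ R.rootMultiplicity y

lemma rd_eq (y : K) (R : K[X]) : (X - C y) ^ R.rootMultiplicity y * rd y R = R :=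
  pow_mul_divByMonic_rootMultiplicity_eq R y

lemma rd_ne {R : K[X]} (hR : R ≠ 0) (y : K) : (rd y R).eval y ≠ 0 :=
  eval_divByMonic_pow_rootMultiplicity_ne_zero y hR

lemma hc_fac [CharZero K] {p q R : K[X]} {n : ℕ} (hR0 : R ≠ 0) (hR : R.natDegree ≤ n) (x y : K)
    (hq : q.eval x ≠ 0) (hy : p.eval x = y * q.eval x) : ∃ A : K[X],
    hc n R p q = (p - C y * q) ^ R.rootMultiplicity y * A ∧
    A.eval x * q.eval x ^ R.rootMultiplicity y = q.eval x ^ n * (rd y R).eval y := by
  obtain ⟨a, ha⟩ : ∃ a, a = R.rootMultiplicity y := ⟨_, rfl⟩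
  have h1 := rd_eq y R
  rw [← ha] at h1 ⊢
  have hrd0 : rd y R ≠ 0 := by
    intro h
    rw [h, mul_zero] at h1
    exact hR0 h1.symm
  have h2 : R.natDegree = a + (rd y R).natDegree := by
    conv_lhs => rw [← h1]
    rw [natDegree_mul (pow_ne_zero _ (X_sub_C_ne_zero y)) hrd0, natDegree_pow, natDegree_X_sub_C,
      mul_one]
  obtain ⟨k, rfl⟩ : ∃ k, n = a + k := ⟨n - a, by omega⟩
  have hk : (rd y R).natDegree ≤ k := by omega
  refine ⟨hc k (rd y R) p q, ?_, ?_⟩
  · conv_lhs => rw [← h1]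
    rw [hc_mul' a k _ _ p q (by rw [natDegree_pow, natDegree_X_sub_C, mul_one]) hk]
    congr 1
    apply Polynomial.funext
    intro z
    rw [hc_eval, eval_pow, eval_sub, eval_mul, eval_C]
    have h3 := hev_pow' 1 a (X - C y : K[X]) (by rw [natDegree_X_sub_C]) (p.eval z, q.eval z)
    rw [mul_one] at h3
    rw [h3]
    have h4 : (X - C y : K[X]) = C 1 * X + C (-y) := by
      rw [C_1, one_mul, C_neg, sub_eq_add_neg]
    rw [h4, hev_fst_snd]
    congr 1
    ring
  · rw [hc_eval, hev_eval _ _ hk _ hq]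
    have : p.eval x / q.eval x = y := by rw [hy]; field_simp
    simp only [this]
    rw [pow_add]
    ring

lemma loc [CharZero K] {d n : ℕ} {p q R S : K[X]} (hd : (d : K) ≠ 0) (hR0 : R ≠ 0) (hS0 : S ≠ 0)
    (hR : R.natDegree ≤ n) (hS : S.natDegree ≤ n + 4)
    (hid : hc n R p q * Wr p q ^ 2 * S = C (d : K) * R * hc (n + 4) S p q) {x y : K}
    (hq : q.eval x ≠ 0) (hy : p.eval x = y * q.eval x) (hP : p - C y * q ≠ 0) :
    (R.rootMultiplicity x : ℤ) - S.rootMultiplicity x + 2 =
      (p - C y * q).rootMultiplicity x * (R.rootMultiplicity y - S.rootMultiplicity y + 2) ∧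
    1 ≤ (p - C y * q).rootMultiplicity x ∧
    ∃ g : K, g ≠ 0 ∧
      ((p - C y * q).rootMultiplicity x = 1 → (Wr p q).eval x = g * q.eval x) ∧
      g ^ R.rootMultiplicity y * q.eval x ^ n * (rd y R).eval y *
        ((p - C y * q).rootMultiplicity x * g * q.eval x) ^ 2 * (rd x S).eval x *
        q.eval x ^ S.rootMultiplicity y =
      d * (rd x R).eval x * g ^ S.rootMultiplicity y * q.eval x ^ (n + 4) * (rd y S).eval y *
        q.eval x ^ R.rootMultiplicity y := by
  obtain ⟨A, hA, hA'⟩ := hc_fac hR0 hR x y hq hy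
  obtain ⟨B, hB, hB'⟩ := hc_fac hS0 hS x y hq hy
  have h1 := rd_eq x (p - C y * q)
  have h2 := rd_ne hP x
  have hroot : (p - C y * q).IsRoot x := by
    rw [IsRoot.def, eval_sub, eval_mul, eval_C, hy, sub_self]
  have hm1 : 1 ≤ (p - C y * q).rootMultiplicity x := (rootMultiplicity_pos hP).mpr hroot
  obtain ⟨m', hm'⟩ : ∃ m', (p - C y * q).rootMultiplicity x = m' + 1 :=
    ⟨_, (Nat.sub_add_cancel hm1).symm⟩
  have hWP : Wr p q = Wr (p - C y * q) q := by
    unfold Wr
    rw [derivative_sub, derivative_C_mul]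
    ring
  have hW : Wr p q = (X - C x) ^ m' * (C ((m' + 1 : ℕ) : K) * rd x (p - C y * q) * q +
      (X - C x) * (derivative (rd x (p - C y * q)) * q - rd x (p - C y * q) * derivative q)) := by
    rw [hWP]
    obtain ⟨g, hg⟩ : ∃ g, g = rd x (p - C y * q) := ⟨_, rfl⟩
    rw [← hg, hm'] at h1
    rw [← hg, ← h1]
    unfold Wr
    rw [derivative_mul, derivative_X_sub_C_pow, Nat.add_sub_cancel]
    ring
  obtain ⟨g, hg⟩ : ∃ g, g = rd x (p - C y * q) := ⟨_, rfl⟩
  obtain ⟨W₁, hW₁⟩ : ∃ W₁, W₁ = C ((m' + 1 : ℕ) : K) * g * q +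
      (X - C x) * (derivative g * q - g * derivative q) := ⟨_, rfl⟩
  rw [← hg] at h1 h2 hW
  rw [← hW₁] at hW
  have hW₁e : W₁.eval x = ((m' + 1 : ℕ) : K) * g.eval x * q.eval x := by
    rw [hW₁, eval_add, eval_mul, eval_mul, eval_C, eval_mul, eval_sub, eval_X, eval_C, sub_self,
      zero_mul, add_zero]
  have hm0 : ((m' + 1 : ℕ) : K) ≠ 0 := Nat.cast_ne_zero.mpr (by omega)
  have hW₁0 : W₁.eval x ≠ 0 := by
    rw [hW₁e]
    exact mul_ne_zero (mul_ne_zero hm0 h2) hq
  have hA0 : A.eval x ≠ 0 := by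
    intro h
    rw [h, zero_mul] at hA'
    exact mul_ne_zero (pow_ne_zero _ hq) (rd_ne hR0 y) hA'.symm
  have hB0 : B.eval x ≠ 0 := by
    intro h
    rw [h, zero_mul] at hB'
    exact mul_ne_zero (pow_ne_zero _ hq) (rd_ne hS0 y) hB'.symm
  have hRx := rd_eq x R
  have hSx := rd_eq x S
  obtain ⟨c1, c2⟩ := cmp x
    ((m' + 1) * R.rootMultiplicity y + 2 * m' + S.rootMultiplicity x)
    (R.rootMultiplicity x + (m' + 1) * S.rootMultiplicity y)
    (g ^ R.rootMultiplicity y * A * W₁ ^ 2 * rd x S)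
    (C (d : K) * rd x R * g ^ S.rootMultiplicity y * B)
    (by
      simp only [eval_mul, eval_pow]
      exact mul_ne_zero (mul_ne_zero (mul_ne_zero (pow_ne_zero _ h2) hA0) (pow_ne_zero _ hW₁0))
        (rd_ne hS0 x))
    (by
      simp only [eval_mul, eval_pow, eval_C]
      exact mul_ne_zero (mul_ne_zero (mul_ne_zero hd (rd_ne hR0 x)) (pow_ne_zero _ h2)) hB0)
    (by
      have e1 : (X - C x) ^ ((m' + 1) * R.rootMultiplicity y + 2 * m' + S.rootMultiplicity x) *
          (g ^ R.rootMultiplicity y * A * W₁ ^ 2 * rd x S) =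
          (((X - C x) ^ (m' + 1) * g) ^ R.rootMultiplicity y * A) * ((X - C x) ^ m' * W₁) ^ 2 *
            ((X - C x) ^ S.rootMultiplicity x * rd x S) := by
        rw [pow_add, pow_add, pow_mul, mul_pow, mul_pow, ← pow_mul (X - C x) m' 2, mul_comm m' 2]
        ring
      have e2 : (X - C x) ^ (R.rootMultiplicity x + (m' + 1) * S.rootMultiplicity y) *
          (C (d : K) * rd x R * g ^ S.rootMultiplicity y * B) =
          C (d : K) * ((X - C x) ^ R.rootMultiplicity x * rd x R) *
            (((X - C x) ^ (m' + 1) * g) ^ S.rootMultiplicity y * B) := by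
        rw [pow_add, pow_mul, mul_pow]
        ring
      rw [hm'] at h1
      rw [e1, e2, hRx, hSx, h1, ← hA, ← hB, ← hW, hid])
  refine ⟨?_, hm1, g.eval x, h2, ?_, ?_⟩
  · rw [hm']
    push_cast
    zify at c1
    linear_combination -c1
  · intro h
    rw [h] at hm'
    have : m' = 0 := by omega
    subst this
    rw [hW, pow_zero, one_mul, hW₁e]
    simp
  · rw [hm']
    simp only [eval_mul, eval_pow, eval_C] at c2
    rw [hW₁e] at c2
    linear_combination (q.eval x ^ R.rootMultiplicity y * q.eval x ^ S.rootMultiplicity y) * c2 -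
      (g.eval x ^ R.rootMultiplicity y * (((m' + 1 : ℕ) : K) * g.eval x * q.eval x) ^ 2 *
        (rd x S).eval x * q.eval x ^ S.rootMultiplicity y) * hA' +
      (d * (rd x R).eval x * g.eval x ^ S.rootMultiplicity y *
        q.eval x ^ R.rootMultiplicity y) * hB'

/-- fixed points -/
lemma fixp [CharZero K] {d n : ℕ} (hd2 : 2 ≤ d) {p q R S : K[X]} (hR0 : R ≠ 0) (hS0 : S ≠ 0)
    (hR : R.natDegree ≤ n) (hS : S.natDegree ≤ n + 4)
    (hid : hc n R p q * Wr p q ^ 2 * S = C (d : K) * R * hc (n + 4) S p q) {x : K}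
    (hq : q.eval x ≠ 0) (hx : p.eval x = x * q.eval x) (hP : p - C x * q ≠ 0)
    (hlo : 0 ≤ (R.rootMultiplicity x : ℤ) - S.rootMultiplicity x + 2)
    (hhi : (R.rootMultiplicity x : ℤ) - S.rootMultiplicity x + 2 ≤ 2) :
    IsSquare d ∨ ∃ l : K, l ≠ 1 ∧ (Wr p q).eval x = l * q.eval x ^ 2 ∧ (l = d ∨ l ^ 2 = d) := by
  have hd0 : (d : K) ≠ 0 := Nat.cast_ne_zero.mpr (by omega)
  obtain ⟨h1, h2, g, hg, h3, h4⟩ := loc hd0 hR0 hS0 hR hS hid hq hx hP
  obtain ⟨a, ha⟩ : ∃ a, a = R.rootMultiplicity x := ⟨_, rfl⟩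
  obtain ⟨b, hb⟩ : ∃ b, b = S.rootMultiplicity x := ⟨_, rfl⟩
  obtain ⟨m, hm⟩ : ∃ m, m = (p - C x * q).rootMultiplicity x := ⟨_, rfl⟩
  rw [← ha, ← hb] at hlo hhi
  rw [← ha, ← hb, ← hm] at h1 h4
  rw [← hm] at h2 h3
  have hRS : (rd x R).eval x * (rd x S).eval x ≠ 0 := mul_ne_zero (rd_ne hR0 x) (rd_ne hS0 x)
  have hqn : q.eval x ^ n ≠ 0 := pow_ne_zero _ hq
  by_cases hm1 : m = 1
  · right
    subst hm1
    have h5 := h3 rfl
    have h6 : g ^ a * g ^ 2 * q.eval x ^ b = d * g ^ b * q.eval x ^ 2 * q.eval x ^ a := by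
      apply mul_left_cancel₀ (mul_ne_zero (mul_ne_zero hRS hqn) (pow_ne_zero 2 hq))
      push_cast at h4
      linear_combination h4
    refine ⟨g / q.eval x, ?_, ?_, ?_⟩
    · intro h
      have hgq : g = q.eval x := by
        rw [div_eq_one_iff_eq hq] at h
        exact h
      rw [← hgq] at h6
      have h7 : (g ^ (a + b + 2)) * 1 = g ^ (a + b + 2) * d := by
        rw [pow_add, pow_add]
        linear_combination h6
      have h8 := mul_left_cancel₀ (pow_ne_zero _ hg) h7
      have h9 : (1 : ℕ) = d := by exact_mod_cast h8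
      omega
    · rw [h5]
      field_simp
    · have hc3 : b = a + 2 ∨ b = a + 1 ∨ b = a := by omega
      rcases hc3 with rfl | rfl | rfl
      · exfalso
        have h7 : (g ^ (a + 2) * q.eval x ^ (a + 2)) * 1 =
            (g ^ (a + 2) * q.eval x ^ (a + 2)) * d := by
          linear_combination h6
        have h8 := mul_left_cancel₀ (mul_ne_zero (pow_ne_zero _ hg) (pow_ne_zero _ hq)) h7
        have h9 : (1 : ℕ) = d := by exact_mod_cast h8
        omega
      · left
        have h7 : (g ^ (a + 1) * q.eval x ^ (a + 1)) * g =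
            (g ^ (a + 1) * q.eval x ^ (a + 1)) * (d * q.eval x) := by
          linear_combination h6
        have h8 := mul_left_cancel₀ (mul_ne_zero (pow_ne_zero _ hg) (pow_ne_zero _ hq)) h7
        rw [h8]
        field_simp
      · right
        have h7 : (g ^ b * q.eval x ^ b) * g ^ 2 =
            (g ^ b * q.eval x ^ b) * (d * q.eval x ^ 2) := by
          linear_combination h6
        have h8 := mul_left_cancel₀ (mul_ne_zero (pow_ne_zero _ hg) (pow_ne_zero _ hq)) h7
        rw [div_pow, h8]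
        field_simp
  · left
    have hm2 : 2 ≤ m := by omega
    have h5 : (a : ℤ) - b + 2 = 0 := by
      have h6 : ((m : ℤ) - 1) * ((a : ℤ) - b + 2) = 0 := by linear_combination -h1
      rcases mul_eq_zero.mp h6 with h7 | h7
      · omega
      · exact h7
    have hb2 : b = a + 2 := by omega
    subst hb2
    have h6 : (g ^ (a + 2) * q.eval x ^ (n + a + 4) * ((rd x R).eval x * (rd x S).eval x)) *
        (m : K) ^ 2 = (g ^ (a + 2) * q.eval x ^ (n + a + 4) *
          ((rd x R).eval x * (rd x S).eval x)) * d := by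
      have e1 : q.eval x ^ (n + a + 4) = q.eval x ^ n * q.eval x ^ a * q.eval x ^ 4 := by
        rw [pow_add, pow_add]
      have e2 : g ^ (a + 2) = g ^ a * g ^ 2 := pow_add _ _ _
      rw [e1, e2]
      rw [e2, pow_add (q.eval x) a 2, pow_add (q.eval x) n 4] at h4
      linear_combination h4
    have h7 := mul_left_cancel₀ (mul_ne_zero (mul_ne_zero (pow_ne_zero _ hg) (pow_ne_zero _ hq))
      hRS) h6
    refine ⟨m, ?_⟩
    have h8 : m ^ 2 = d := by exact_mod_cast h7
    rw [← h8, sq]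

end local_part

section global_part

variable {K : Type u} [Field K]

/-- the fibres -/
lemma fibre [CharZero K] [IsAlgClosed K] {d : ℕ} {p q : K[X]} (hd : 2 ≤ d)
    (hp : p.natDegree < d) (hq : q.natDegree = d) {y : K} (hy : y ≠ 0) :
    p - C y * q ≠ 0 ∧ (p - C y * q).roots.card = d := by
  have h1 : (C y * q).natDegree = d := by rw [natDegree_C_mul hy, hq]
  have h2 : (p - C y * q).natDegree = d := by
    rw [natDegree_sub_eq_right_of_natDegree_lt (by omega), h1]
  refine ⟨?_, ?_⟩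
  · intro h
    rw [h, natDegree_zero] at h2
    omega
  · rw [← h2]
    exact splits_iff_card_roots.mp (IsAlgClosed.splits _)

lemma glob [CharZero K] [IsAlgClosed K] {d : ℕ} {p q : K[X]} (hd : 2 ≤ d)
    (hp : p.natDegree < d) (hq : q.natDegree = d) (hco : IsCoprime p q) (N : K → ℤ) (c : ℤ)
    (hc : 1 ≤ c) (T : Finset K) (hT : ∀ x, c ≤ N x → x ∈ T) (h0 : N 0 < c)
    (hN : ∀ x y, y ≠ 0 → q.eval x ≠ 0 → p.eval x = y * q.eval x →
      N x = (p - C y * q).rootMultiplicity x * N y ∧ 1 ≤ (p - C y * q).rootMultiplicity x) :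
    ∀ x, N x < c := by
  classical
  by_contra hcon
  push Not at hcon
  obtain ⟨x₀, hx₀⟩ := hcon
  obtain ⟨x₁, hx₁, hmax⟩ := Finset.exists_max_image (T.filter fun x => c ≤ N x) N
    ⟨x₀, mem_filter.mpr ⟨hT x₀ hx₀, hx₀⟩⟩
  have hx₁c := (mem_filter.mp hx₁).2
  have hmax' : ∀ x, c ≤ N x → N x ≤ N x₁ := fun x hx => hmax x (mem_filter.mpr ⟨hT x hx, hx⟩)
  obtain ⟨U, hU⟩ : ∃ U : Finset K, U = T.filter fun x => N x = N x₁ := ⟨_, rfl⟩
  have hUm : ∀ x, x ∈ U ↔ N x = N x₁ := by
    intro x
    rw [hU, mem_filter]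
    exact ⟨fun h => h.2, fun h => ⟨hT x (by omega), h⟩⟩
  have hyne : ∀ y ∈ U, y ≠ 0 := by
    rintro y hy rfl
    rw [hUm] at hy
    omega
  have hroot : ∀ y ∈ U, ∀ x, x ∈ (p - C y * q).roots → q.eval x ≠ 0 ∧
      p.eval x = y * q.eval x ∧ N x = N x₁ ∧ (p - C y * q).rootMultiplicity x = 1 := by
    intro y hy x hx
    have h1 : p.eval x = y * q.eval x := by
      have := (mem_roots'.mp hx).2
      rw [IsRoot.def, eval_sub, eval_mul, eval_C] at this
      linear_combination this
    have h2 : q.eval x ≠ 0 := by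
      intro h
      rw [h, mul_zero] at h1
      obtain ⟨a, b, hab⟩ := hco
      have := congrArg (eval x) hab
      rw [eval_add, eval_mul, eval_mul, h, h1, eval_one, mul_zero, mul_zero, add_zero] at this
      exact zero_ne_one this
    obtain ⟨h3, h4⟩ := hN x y (hyne y hy) h2 h1
    obtain ⟨m, hm⟩ : ∃ m, m = (p - C y * q).rootMultiplicity x := ⟨_, rfl⟩
    rw [← hm] at h3 h4 ⊢
    rw [(hUm y).mp hy] at h3
    have hpos : 0 < N x₁ := by omega
    have h5 : N x₁ ≤ N x := by
      rw [h3]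
      have : (1 : ℤ) ≤ m := by exact_mod_cast h4
      nlinarith
    have h6 : N x = N x₁ := le_antisymm (hmax' x (by omega)) h5
    refine ⟨h2, h1, h6, ?_⟩
    rw [h6] at h3
    have h7 : ((m : ℤ) - 1) * N x₁ = 0 := by linear_combination -h3
    rcases mul_eq_zero.mp h7 with h8 | h8
    · omega
    · omega
  have hcard : ∀ y ∈ U, (p - C y * q).roots.toFinset.card = d := by
    intro y hy
    rw [Multiset.toFinset_card_of_nodup, (fibre hd hp hq (hyne y hy)).2]
    rw [Multiset.nodup_iff_count_le_one]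
    intro x
    by_cases hx : x ∈ (p - C y * q).roots
    · rw [count_roots, (hroot y hy x hx).2.2.2]
    · rw [Multiset.count_eq_zero_of_notMem hx]
      exact zero_le_one
  have hsum : U.card * d = (U.biUnion fun y => (p - C y * q).roots.toFinset).card := by
    rw [card_biUnion, Finset.sum_congr rfl hcard, Finset.sum_const, smul_eq_mul]
    intro y hy y' hy' hne
    change Disjoint _ _
    rw [Finset.disjoint_left]
    intro x hx hx'
    rw [Multiset.mem_toFinset] at hx hx'
    obtain ⟨k1, k2, -, -⟩ := hroot y hy x hx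
    obtain ⟨-, k3, -, -⟩ := hroot y' hy' x hx'
    apply hne
    apply mul_right_cancel₀ k1
    rw [← k2, ← k3]
  have hle : U.card * d ≤ U.card := by
    rw [hsum]
    apply card_le_card
    intro x hx
    rw [mem_biUnion] at hx
    obtain ⟨y, hy, hx⟩ := hx
    rw [Multiset.mem_toFinset] at hx
    rw [hUm]
    exact (hroot y hy x hx).2.2.1
  have hpos : 0 < U.card := card_pos.mpr ⟨x₁, (hUm x₁).mpr rfl⟩
  nlinarith

/-- the fixed point formula -/
lemma fix_sum [DecidableEq K] [CharZero K] [IsAlgClosed K] {d : ℕ} {p q : K[X]} (hp : p.natDegree ≤ d)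
    (hq : q.natDegree = d) (hqm : q.Monic) (hsimple : ∀ x, (p - X * q).eval x = 0 →
      (derivative (p - X * q)).eval x ≠ 0) :
    (p - X * q).roots.toFinset.card = d + 1 ∧
      ∑ x ∈ (p - X * q).roots.toFinset, q.eval x / (derivative (p - X * q)).eval x = -1 := by
  obtain ⟨H, hH⟩ : ∃ H, H = p - X * q := ⟨_, rfl⟩
  have hXq : (X * q).natDegree = d + 1 := by
    rw [natDegree_mul X_ne_zero hqm.ne_zero, natDegree_X, hq, add_comm]
  have hHd : H.natDegree = d + 1 := by
    rw [hH, natDegree_sub_eq_right_of_natDegree_lt (by omega), hXq]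
  have hHl : H.leadingCoeff = -1 := by
    rw [leadingCoeff, hHd, hH, coeff_sub, coeff_eq_zero_of_natDegree_lt (by omega), coeff_X_mul,
      ← hq, hqm.coeff_natDegree, zero_sub]
  have hH0 : H ≠ 0 := by
    intro h
    rw [h, natDegree_zero] at hHd
    omega
  rw [← hH] at hsimple ⊢
  have hnd : H.roots.Nodup := by
    rw [Multiset.nodup_iff_count_le_one]
    intro x
    rw [count_roots]
    by_contra hcon
    push Not at hcon
    have h1 := (one_lt_rootMultiplicity_iff_isRoot hH0).mp hcon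
    exact hsimple x h1.1 h1.2
  have hcard : H.roots.toFinset.card = d + 1 := by
    rw [Multiset.toFinset_card_of_nodup hnd, ← hHd]
    exact splits_iff_card_roots.mp (IsAlgClosed.splits _)
  refine ⟨hcard, ?_⟩
  obtain ⟨s, hs⟩ : ∃ s, s = H.roots.toFinset := ⟨_, rfl⟩
  rw [← hs] at hcard ⊢
  have hprod : H = C (-1) * Lagrange.nodal s id := by
    have h1 := (IsAlgClosed.splits H).eq_prod_roots
    rw [hHl] at h1
    rw [h1]
    congr 1
    rw [Lagrange.nodal, hs, Finset.prod]
    congr 1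
    rw [Multiset.toFinset_val, hnd.dedup]
    rfl
  have h2 := Lagrange.coeff_eq_sum (s := s) (v := id) (P := q) Function.injective_id.injOn (by
    rw [hcard, degree_eq_natDegree hqm.ne_zero, hq]
    exact_mod_cast Nat.lt_succ_self d)
  rw [hcard, Nat.add_sub_cancel, ← hq, hqm.coeff_natDegree] at h2
  rw [h2, ← Finset.sum_neg_distrib]
  refine Finset.sum_congr rfl fun x hx => ?_
  have h3 := Lagrange.eval_nodal_derivative_eval_node_eq (s := s) (v := (id : K → K)) hx
  rw [Lagrange.eval_nodal] at h3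
  rw [hprod, derivative_C_mul, eval_mul, eval_C]
  simp only [id_eq] at h3 ⊢
  rw [h3]
  rw [neg_one_mul, div_neg]

lemma sq_of_norm [CharZero K] [IsAlgClosed K] {d n : ℕ} (hd : 2 ≤ d) {p q R S : K[X]}
    (hp : p.natDegree < d) (hq : q.natDegree = d) (hqm : q.Monic) (hco : IsCoprime p q)
    (hR0 : R.eval 0 ≠ 0) (hS0 : S.eval 0 ≠ 0) (hR : R.natDegree ≤ n) (hS : S.natDegree ≤ n + 4)
    (hid : hc n R p q * Wr p q ^ 2 * S = C (d : K) * R * hc (n + 4) S p q) : IsSquare d := by
  classical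
  by_contra hsq
  have hRne : R ≠ 0 := by
    rintro rfl
    simp at hR0
  have hSne : S ≠ 0 := by
    rintro rfl
    simp at hS0
  have hd0 : (d : K) ≠ 0 := Nat.cast_ne_zero.mpr (by omega)
  obtain ⟨N, hN⟩ : ∃ N : K → ℤ, ∀ x, N x = (R.rootMultiplicity x : ℤ) - S.rootMultiplicity x + 2 :=
    ⟨_, fun _ => rfl⟩
  have hloc : ∀ x y, y ≠ 0 → q.eval x ≠ 0 → p.eval x = y * q.eval x →
      N x = (p - C y * q).rootMultiplicity x * N y ∧ 1 ≤ (p - C y * q).rootMultiplicity x := by
    intro x y hy h1 h2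
    obtain ⟨h3, h4, -⟩ := loc hd0 hRne hSne hR hS hid h1 h2 (fibre hd hp hq hy).1
    rw [hN, hN]
    exact ⟨h3, h4⟩
  have hN0 : N 0 = 2 := by
    rw [hN, rootMultiplicity_eq_zero hR0, rootMultiplicity_eq_zero hS0]
    rfl
  have hsupp : ∀ x, N x ≠ 2 → x ∈ (R * S).roots.toFinset := by
    intro x hx
    rw [Multiset.mem_toFinset, mem_roots (mul_ne_zero hRne hSne), IsRoot.def, eval_mul]
    by_contra hcon
    push Not at hcon
    have h1 : R.eval x ≠ 0 := fun h => by rw [h, zero_mul] at hcon; exact hcon rfl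
    have h2 : S.eval x ≠ 0 := fun h => by rw [h, mul_zero] at hcon; exact hcon rfl
    apply hx
    rw [hN, rootMultiplicity_eq_zero h1, rootMultiplicity_eq_zero h2]
    rfl
  have hhi := glob hd hp hq hco N 3 (by norm_num) (R * S).roots.toFinset
    (fun x hx => hsupp x (by omega)) (by omega) hloc
  have hlo := glob hd hp hq hco (fun x => -N x) 1 (by norm_num) (R * S).roots.toFinset
    (fun x hx => hsupp x (by omega)) (by omega) (by
      intro x y hy h1 h2
      obtain ⟨h3, h4⟩ := hloc x y hy h1 h2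
      exact ⟨by rw [h3]; ring, h4⟩)
  -- fixed points
  have hfx : ∀ x, (p - X * q).eval x = 0 → ∃ l : K, l ≠ 1 ∧
      (derivative (p - X * q)).eval x = (l - 1) * q.eval x ∧ q.eval x ≠ 0 ∧
      (l = d ∨ l ^ 2 = d) := by
    intro x hx
    rw [eval_sub, eval_mul, eval_X] at hx
    have h1 : p.eval x = x * q.eval x := by linear_combination hx
    have h2 : q.eval x ≠ 0 := by
      intro h
      rw [h, mul_zero] at h1
      obtain ⟨a, b, hab⟩ := hco
      have := congrArg (eval x) hab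
      rw [eval_add, eval_mul, eval_mul, h, h1, eval_one, mul_zero, mul_zero, add_zero] at this
      exact zero_ne_one this
    have hP : p - C x * q ≠ 0 := by
      intro h
      have h3 : p = C x * q := by linear_combination h
      have h4 : IsUnit q := by
        rw [h3] at hco
        exact hco.isUnit_of_dvd' (dvd_mul_left _ _) dvd_rfl
      have := natDegree_eq_zero_of_isUnit h4
      omega
    have h5 := hhi x
    have h6 : -N x < 1 := hlo x
    rw [hN] at h5 h6
    rcases fixp hd hRne hSne hR hS hid h2 h1 hP (by omega) (by omega) with h7 | ⟨l, h7, h8, h9⟩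
    · exact absurd h7 hsq
    · refine ⟨l, h7, ?_, h2, h9⟩
      have h10 : (Wr p q).eval x = (derivative p).eval x * q.eval x -
          p.eval x * (derivative q).eval x := by
        unfold Wr
        rw [eval_sub, eval_mul, eval_mul]
      rw [h10, h1] at h8
      rw [derivative_sub, derivative_mul, derivative_X, one_mul, eval_sub, eval_add, eval_mul,
        eval_X]
      apply mul_left_cancel₀ h2
      linear_combination h8
  obtain ⟨hc1, hc2⟩ := fix_sum hp.le hq hqm (by
    intro x hx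
    obtain ⟨l, h1, h2, h3, -⟩ := hfx x hx
    rw [h2]
    exact mul_ne_zero (sub_ne_zero.mpr h1) h3)
  obtain ⟨ρ, hρ⟩ := IsAlgClosed.exists_pow_nat_eq (d : K) (n := 2) (by norm_num)
  have hd1 : (d : K) - 1 ≠ 0 := by
    intro h
    have h1 : (d : K) = ((1 : ℕ) : K) := by push_cast; linear_combination h
    have h2 : d = 1 := by exact_mod_cast h1
    omega
  have hterm : ∀ x ∈ (p - X * q).roots.toFinset, ∃ ε : ℤ,
      q.eval x / (derivative (p - X * q)).eval x = (ε * ρ + 1) / (d - 1) := by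
    intro x hx
    rw [Multiset.mem_toFinset] at hx
    obtain ⟨l, h1, h2, h3, h4⟩ := hfx x (mem_roots'.mp hx).2
    have hl1 : l - 1 ≠ 0 := sub_ne_zero.mpr h1
    rw [h2]
    rcases h4 with h4 | h4
    · refine ⟨0, ?_⟩
      rw [h4] at hl1 ⊢
      rw [div_eq_div_iff (mul_ne_zero hl1 h3) hd1]
      push_cast
      ring
    · have h5 : (l - ρ) * (l + ρ) = 0 := by linear_combination h4 - hρ
      rcases mul_eq_zero.mp h5 with h6 | h6
      · have h7 : l = ρ := by linear_combination h6
        refine ⟨1, ?_⟩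
        rw [div_eq_div_iff (mul_ne_zero hl1 h3) hd1, h7]
        push_cast
        linear_combination -q.eval x * hρ
      · have h7 : l = -ρ := by linear_combination h6
        refine ⟨-1, ?_⟩
        rw [div_eq_div_iff (mul_ne_zero hl1 h3) hd1, h7]
        push_cast
        linear_combination -q.eval x * hρ
  choose! ε hε using hterm
  rw [Finset.sum_congr rfl hε, ← Finset.sum_div, Finset.sum_add_distrib, ← Finset.sum_mul,
    Finset.sum_const, hc1, ← Int.cast_sum, div_eq_iff hd1] at hc2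
  obtain ⟨E, hE⟩ : ∃ E : ℤ, E = ∑ x ∈ (p - X * q).roots.toFinset, ε x := ⟨_, rfl⟩
  rw [← hE] at hc2
  have h1 : (E : K) * ρ = -2 * d := by
    rw [nsmul_eq_mul, mul_one] at hc2
    push_cast at hc2
    linear_combination hc2
  have h2 : (d : K) * (E : K) ^ 2 = d * (4 * d) := by
    have : ((E : K) * ρ) ^ 2 = (-2 * d) ^ 2 := by rw [h1]
    rw [mul_pow, hρ] at this
    linear_combination this
  have h3 := mul_left_cancel₀ hd0 h2
  have h4 : E ^ 2 = 4 * (d : ℤ) := by exact_mod_cast h3
  have h5 : (2 : ℤ) ∣ E := by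
    have h6 : (2 : ℤ) ∣ E ^ 2 := ⟨2 * d, by rw [h4]; ring⟩
    exact Int.prime_two.dvd_of_dvd_pow h6
  obtain ⟨F, rfl⟩ := h5
  apply hsq
  refine ⟨F.natAbs, ?_⟩
  have h6 : F * F = d := by nlinarith
  zify
  rw [abs_mul_abs_self, h6]

end global_part

section final

variable {K : Type u} [Field K]

/-- `hlat_conj` of `Pool.Agent.Q208.OP.CNJ` with the new forms made explicit -/
lemma hlat_conj2 [Infinite K] {d : ℕ} (hd : 1 ≤ d) {a b c e : K} {p q u w : K[X]}
    (hp : p.natDegree ≤ d) (hq : q.natDegree ≤ d) (hu : u.natDegree ≤ d)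
    (hw : w.natDegree ≤ d) (h : CJ d a b c e p q u w) {n : ℕ} {R S : K[X]}
    (hRS : ∀ Z : K × K, hev n R (bK d p q Z) * Jv d p q Z ^ 2 * hev (n + 4) S Z =
      d * hev n R Z * hev (n + 4) S (bK d p q Z)) :
    ∃ R' S' : K[X], R'.natDegree ≤ n ∧ S'.natDegree ≤ n + 4 ∧
      (∀ Z, hev n R' (lm a b c e Z) = hev n R Z) ∧
      (∀ Z, hev (n + 4) S' (lm a b c e Z) = hev (n + 4) S Z) ∧
      ∀ Z : K × K, hev n R' (bK d u w Z) * Jv d u w Z ^ 2 * hev (n + 4) S' Z =
        d * hev n R' Z * hev (n + 4) S' (bK d u w Z) := by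
  have hD := h.1
  obtain ⟨a', ha'⟩ : ∃ a', a' = e / (a * e - b * c) := ⟨_, rfl⟩
  obtain ⟨b', hb'⟩ : ∃ b', b' = -b / (a * e - b * c) := ⟨_, rfl⟩
  obtain ⟨c', hc'⟩ : ∃ c', c' = -c / (a * e - b * c) := ⟨_, rfl⟩
  obtain ⟨e', he'⟩ : ∃ e', e' = a / (a * e - b * c) := ⟨_, rfl⟩
  have i1 : ∀ Z : K × K, lm a b c e (lm a' b' c' e' Z) = Z := by
    intro Z
    rw [ha', hb', hc', he', Pool.Agent.Q208.OP.lm_inv hD]
  have i2 : ∀ Z : K × K, lm a' b' c' e' (lm a b c e Z) = Z := by
    intro Z
    rw [ha', hb', hc', he', Pool.Agent.Q208.OP.lm_inv' hD]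
  refine ⟨hc n R (C a' * X + C b') (C c' * X + C e'),
    hc (n + 4) S (C a' * X + C b') (C c' * X + C e'),
    hc_lin_degree _ _ _ _ _ _, hc_lin_degree _ _ _ _ _ _, fun Z => ?_, fun Z => ?_, fun Y => ?_⟩
  · rw [hev_lm, i2]
  · rw [hev_lm, i2]
  rw [hev_lm, hev_lm, hev_lm, hev_lm]
  have h1 : lm a' b' c' e' (bK d u w Y) = bK d p q (lm a' b' c' e' Y) := by
    have := h.2 (lm a' b' c' e' Y)
    rw [i1] at this
    rw [this, i2]
  have h2 : Jv d u w Y = Jv d p q (lm a' b' c' e' Y) := by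
    have := cj_Jv hd hD hp hq hu hw h.2 (lm a' b' c' e' Y)
    rwa [i1] at this
  rw [h1, h2]
  exact hRS _

theorem t_SQR : ∀ (K : Type u) [Field K] [CharZero K] [IsAlgClosed K] (d : ℕ), 2 ≤ d →
    ∀ p q : K[X], Rat d p q → Lat d p q → IsSquare d := by
  classical
  intro K _ _ _ d hd p q hpq hlat
  have hd1 : 1 ≤ d := by omega
  have hp := rat_degp hpq
  have hq := rat_degq hpq
  rw [lat_iff hd1 hp hq] at hlat
  obtain ⟨n, R, S, hR0, hS0, hR, hS, hRS⟩ := hlat
  have hH0 : p - X * q ≠ 0 := by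
    intro h
    have h1 : p = X * q := by linear_combination h
    have h2 : IsUnit q := by
      have h3 := hpq.1
      rw [h1] at h3
      exact h3.isUnit_of_dvd' (dvd_mul_left _ _) dvd_rfl
    have h3 := natDegree_eq_zero_of_isUnit h2
    have h4 : (X * q).natDegree ≤ 1 + 0 := by
      refine natDegree_mul_le.trans ?_
      rw [natDegree_X, h3]
    have h5 := hpq.2
    rw [h1, h3] at h5
    omega
  -- a general value
  obtain ⟨y, hy⟩ := Infinite.exists_notMem_finset
    ((R * S * (p - X * q)).roots.toFinset ∪ {p.coeff d / q.coeff d})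
  rw [mem_union, Multiset.mem_toFinset, mem_roots (mul_ne_zero (mul_ne_zero hR0 hS0) hH0),
    IsRoot.def, eval_mul, eval_mul, mem_singleton] at hy
  push Not at hy
  obtain ⟨hy1, hy2⟩ := hy
  have hRy : R.eval y ≠ 0 := fun h => hy1 (by rw [h, zero_mul, zero_mul])
  have hSy : S.eval y ≠ 0 := fun h => hy1 (by rw [h, mul_zero, zero_mul])
  have hHy : (p - X * q).eval y ≠ 0 := fun h => hy1 (by rw [h, mul_zero])
  have hPd : (p - C y * q).coeff d ≠ 0 := by
    rw [coeff_sub, coeff_C_mul]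
    intro h
    by_cases hqd : q.coeff d = 0
    · rw [hqd, mul_zero, sub_zero] at h
      rcases rat_coeff_ne hpq with h1 | h1
      · exact h1 h
      · exact h1 hqd
    · apply hy2
      rw [eq_div_iff hqd]
      linear_combination -h
  obtain ⟨x, hx⟩ := IsAlgClosed.exists_root (p - C y * q) (by
    intro h
    have h1 := le_natDegree_of_ne_zero hPd
    have h2 : (p - C y * q).natDegree = 0 := natDegree_eq_of_degree_eq_some h
    omega)
  rw [IsRoot.def, eval_sub, eval_mul, eval_C] at hx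
  have hpx : p.eval x = y * q.eval x := by linear_combination hx
  have hqx : q.eval x ≠ 0 := by
    intro h
    rw [h, mul_zero] at hpx
    obtain ⟨a, b, hab⟩ := hpq.1
    have := congrArg (eval x) hab
    rw [eval_add, eval_mul, eval_mul, h, hpx, eval_one, mul_zero, mul_zero, add_zero] at this
    exact zero_ne_one this
  have hxy : x ≠ y := by
    rintro rfl
    apply hHy
    rw [eval_sub, eval_mul, eval_X, hpx, sub_self]
  obtain ⟨D, hD⟩ : ∃ D, D = x * q.eval x - p.eval x := ⟨_, rfl⟩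
  have hD0 : D ≠ 0 := by
    rw [hD, hpx, ← sub_mul]
    exact mul_ne_zero (sub_ne_zero.mpr hxy) hqx
  obtain ⟨u, w, huw, hcj⟩ := cj_exists' (d := d) (a := q.eval x / D) (b := -p.eval x / D)
    (c := -1 / D) (e := x / D) (by
      have : q.eval x / D * (x / D) - -p.eval x / D * (-1 / D) = 1 / D := by
        field_simp
        rw [hD]
        ring
      rw [this]
      exact one_div_ne_zero hD0) hpq
  have hu := rat_degp huw
  have hw := rat_degq huw
  obtain ⟨R', S', hR', hS', hRe, hSe, hRS'⟩ := hlat_conj2 hd1 hp hq hu hw hcj hRS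
  -- the point at infinity and its value
  have hM0 : lm (q.eval x / D) (-p.eval x / D) (-1 / D) (x / D) (x, 1) = (1, 0) := by
    unfold lm
    ext
    · simp only
      have e1 : q.eval x / D * x + -p.eval x / D * 1 = (x * q.eval x - p.eval x) / D := by ring
      rw [e1, ← hD, div_self hD0]
    · simp only
      ring
  have hM1 : lm (q.eval x / D) (-p.eval x / D) (-1 / D) (x / D) (p.eval x, q.eval x) = (0, 1) := by
    unfold lm
    ext
    · simp only
      ring
    · simp only
      have e1 : -1 / D * p.eval x + x / D * q.eval x = (x * q.eval x - p.eval x) / D := by ring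
      rw [e1, ← hD, div_self hD0]
  have hF : bK d p q (x, 1) = (p.eval x, q.eval x) := by
    unfold bK
    rw [hev_one d p hp, hev_one d q hq]
  have h10 : bK d u w (1, 0) = (0, 1) := by
    rw [← hM0, hcj.2, hF, hM1]
  have h11 : u.coeff d = 0 ∧ w.coeff d = 1 := by
    unfold bK at h10
    have e1 := congrArg Prod.fst h10
    have e2 := congrArg Prod.snd h10
    simp only [hev_zero] at e1 e2
    rw [one_pow] at e1 e2
    exact ⟨by simpa using e1, by simpa using e2⟩
  have hwd : w.natDegree = d := le_antisymm hw (le_natDegree_of_ne_zero (by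
    rw [h11.2]; exact one_ne_zero))
  have hwm : w.Monic := by
    rw [Monic, leadingCoeff, hwd, h11.2]
  have hud : u.natDegree < d := by
    rcases hu.lt_or_eq with h | h
    · exact h
    · exfalso
      have h1 : u.leadingCoeff = 0 := by rw [leadingCoeff, h, h11.1]
      rw [leadingCoeff_eq_zero] at h1
      rw [h1, natDegree_zero] at h
      omega
  have hR'0 : R'.eval 0 ≠ 0 := by
    have h1 := hRe (p.eval x, q.eval x)
    rw [hM1, hev_one _ _ hR', hev_eval _ _ hR _ hqx] at h1
    rw [h1]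
    simp only
    rw [hpx, mul_div_cancel_right₀ _ hqx]
    exact mul_ne_zero (pow_ne_zero _ hqx) hRy
  have hS'0 : S'.eval 0 ≠ 0 := by
    have h1 := hSe (p.eval x, q.eval x)
    rw [hM1, hev_one _ _ hS', hev_eval _ _ hS _ hqx] at h1
    rw [h1]
    simp only
    rw [hpx, mul_div_cancel_right₀ _ hqx]
    exact mul_ne_zero (pow_ne_zero _ hqx) hSy
  refine sq_of_norm hd hud hwd hwm huw.1 hR'0 hS'0 hR' hS' ?_
  apply Polynomial.funext
  intro z
  have h1 := hRS' (z, 1)
  have e1 : bK d u w (z, 1) = (u.eval z, w.eval z) := by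
    unfold bK
    rw [hev_one d u hu, hev_one d w hw]
  have e2 : Jv d u w (z, 1) = (Wr u w).eval z := by
    unfold Jv
    rw [hev_one _ _ (Wr_degree hd1 hu hw)]
  rw [e1, e2, hev_one _ _ hS', hev_one _ _ hR'] at h1
  simp only [eval_mul, eval_pow, eval_C, hc_eval]
  exact h1

end final

end Pool.Agent.Q103.OP.Sqr
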