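import Pool.Agent.Y706.CH.Stm7
import Pool.Agent.Y706.CH.Stm5

/-!
# Project OP: strong uniform boundedness for all rational maps in characteristic zero
Definitions and the statements of the lemma jobs
-/

set_option autoImplicit false

namespace Pool.Agent.Q103.OP

open Pool.Agent.W277.UB Pool.Agent.W277.UH Finset Polynomial
open Pool.Agent.Y706.CH (bK Crit vo pt)

universe u v w

/-- the Wronskian of `p` and `q`; the critical points of `p / q` are its zeros -/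
noncomputable def Wr {K : Type*} [Field K] (p q : K[X]) : K[X] :=
  derivative p * q - p * derivative q

/-- the Wronskian as a form of degree `2 d - 2` -/
noncomputable def Jv {K : Type*} [Field K] (d : ℕ) (p q : K[X]) (Z : K × K) : K :=
  hev (2 * d - 2) (Wr p q) Z

/-- the multiplier of the vector `Z` with `F^m (Z) = μ Z`, where `F = bK d p q` -/
noncomputable def mlt {K : Type*} [Field K] (d : ℕ) (p q : K[X]) (m : ℕ) (Z : K × K) (μ : K) : K :=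
  (∏ j ∈ range m, Jv d p q ((bK d p q)^[j] Z)) / μ ^ 2

/-- Lattes maps: with `φ = r / s` we have `φ(f(z)) f'(z)^2 = d φ(z)`, denominators cleared -/
def Lat {K : Type*} [Field K] (d : ℕ) (p q : K[X]) : Prop :=
  ∃ (e : ℕ) (r s : K[X]), r ≠ 0 ∧ s ≠ 0 ∧ r.natDegree ≤ e ∧ s.natDegree ≤ e ∧
    hc e r p q * Wr p q ^ 2 * s = C (d : K) * r * hc e s p q * q ^ 4

/-- a map of degree `d` with finite numerator and denominator data -/
def Rat {K : Type*} [Field K] (d : ℕ) (p q : K[X]) : Prop :=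
  IsCoprime p q ∧ max p.natDegree q.natDegree = d

/-- the linear map of the plane with the matrix `(a, b; c, e)` -/
def lm {K : Type*} [Field K] (a b c e : K) (Z : K × K) : K × K :=
  (a * Z.1 + b * Z.2, c * Z.1 + e * Z.2)

/-- `(u, w)` is the conjugate of `(p, q)` by the matrix `(a, b; c, e)` -/
def CJ {K : Type*} [Field K] (d : ℕ) (a b c e : K) (p q u w : K[X]) : Prop :=
  a * e - b * c ≠ 0 ∧ ∀ Z : K × K, bK d u w (lm a b c e Z) = lm a b c e (bK d p q Z)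

/-! ## A. The local lemma on critical points and the height of a multiplier -/

/-- ITER: iterates -/
def S_ITER : Prop := ∀ (K : Type u) [Field K] [CharZero K] (d : ℕ), 2 ≤ d → ∀ p q : K[X],
  Rat d p q → ∀ m : ℕ, ∃ P Q : K[X], Rat (d ^ m) P Q ∧
    (∀ Z, bK (d ^ m) P Q Z = (bK d p q)^[m] Z) ∧
    ∀ Z, Jv (d ^ m) P Q Z = ∏ j ∈ range m, Jv d p q ((bK d p q)^[j] Z)

/-- INV: if the values of `A / B` at its critical points are `0`, `∞` or of absolute value at least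
`κ`, then the zeros of `A` other than the simple zero `0` are far away from `0` -/
def S_INV : Prop := ∀ (Ω : Type u) [NormedField Ω] [IsUltrametricDist Ω] [IsAlgClosed Ω],
  (∀ n : ℕ, n ≠ 0 → ‖(n : Ω)‖ = 1) → (∃ x : Ω, x ≠ 0 ∧ ‖x‖ < 1) → ∀ A B : Polynomial Ω,
  IsCoprime A B → B.natDegree < A.natDegree → A.eval 0 = 0 → (derivative A).eval 0 ≠ 0 →
  ∀ κ : ℝ, 0 < κ →
  (∀ y, (Wr A B).eval y = 0 → B.eval y ≠ 0 → A.eval y ≠ 0 → κ ≤ ‖A.eval y / B.eval y‖) →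
  ∀ α, α ≠ 0 → A.eval α = 0 → κ ≤ ‖(derivative A).eval 0 / B.eval 0‖ * ‖α‖

/-- AL: an attracting fixed point attracts a critical point, effectively, without landing -/
def S_AL : Prop := ∀ d : ℕ, 2 ≤ d → ∃ C₁ : ℝ, 0 ≤ C₁ ∧
  ∀ (Ω : Type u) [NormedField Ω] [IsUltrametricDist Ω] [IsAlgClosed Ω],
  (∀ n : ℕ, n ≠ 0 → ‖(n : Ω)‖ = 1) → ∀ p q : Polynomial Ω, Rat d p q → ∀ R : ℝ, 0 ≤ R →
  (∀ Z : Ω × Ω, Real.exp (-R) * ‖Z‖ ^ d ≤ ‖bK d p q Z‖ ∧ ‖bK d p q Z‖ ≤ Real.exp R * ‖Z‖ ^ d) →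
  ∀ (X₀ : Ω × Ω) (μ : Ω), X₀ ≠ 0 → μ ≠ 0 → bK d p q X₀ = μ • X₀ →
  mlt d p q 1 X₀ μ ≠ 0 → ‖mlt d p q 1 X₀ μ‖ < 1 → ∀ n : ℕ,
  0 < ((n : ℝ) - 3) * (-Real.log ‖mlt d p q 1 X₀ μ‖) - C₁ * R →
  ∃ Y : Ω × Ω, Y ≠ 0 ∧ Jv d p q Y = 0 ∧ wd ((bK d p q)^[n] Y) X₀ ≠ 0 ∧
    Real.log ‖wd ((bK d p q)^[n] Y) X₀‖ - Real.log ‖(bK d p q)^[n] Y‖ - Real.log ‖X₀‖ ≤
      -(((n : ℝ) - 3) * (-Real.log ‖mlt d p q 1 X₀ μ‖) - C₁ * R)

/-- ALM: the same for periodic points -/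
def S_ALM : Prop := ∀ d m : ℕ, 2 ≤ d → 1 ≤ m → ∃ C₁ : ℝ, 0 ≤ C₁ ∧
  ∀ (Ω : Type u) [NormedField Ω] [IsUltrametricDist Ω] [IsAlgClosed Ω],
  (∀ n : ℕ, n ≠ 0 → ‖(n : Ω)‖ = 1) → ∀ p q : Polynomial Ω, Rat d p q → ∀ R : ℝ, 0 ≤ R →
  (∀ Z : Ω × Ω, Real.exp (-R) * ‖Z‖ ^ d ≤ ‖bK d p q Z‖ ∧ ‖bK d p q Z‖ ≤ Real.exp R * ‖Z‖ ^ d) →
  ∀ (X₀ : Ω × Ω) (μ : Ω), X₀ ≠ 0 → μ ≠ 0 → (bK d p q)^[m] X₀ = μ • X₀ →
  mlt d p q m X₀ μ ≠ 0 → ‖mlt d p q m X₀ μ‖ < 1 → ∀ n : ℕ, 1 ≤ n →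
  0 < ((n : ℝ) - 3) * (-Real.log ‖mlt d p q m X₀ μ‖) - C₁ * R →
  ∃ (Y : Ω × Ω) (a : ℕ), Y ≠ 0 ∧ Jv d p q Y = 0 ∧ a < m ∧
    wd ((bK d p q)^[m * n - a] Y) X₀ ≠ 0 ∧
    Real.log ‖wd ((bK d p q)^[m * n - a] Y) X₀‖ - Real.log ‖(bK d p q)^[m * n - a] Y‖ -
      Real.log ‖X₀‖ ≤ -(((n : ℝ) - 3) * (-Real.log ‖mlt d p q m X₀ μ‖) - C₁ * R)

/-- the height of an element -/
noncomputable def hE {k : Type v} {K : Type u} [Field k] [Field K] [Algebra k K]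
    (Q : PlaceData.{w} k K) (x : K) : ℝ := ∑ᶠ v, (Q.wt v : ℝ) * Q.pole v x

/-- the height of a vector (of the point of the projective line given by it) -/
noncomputable def hV {k : Type v} {K : Type u} [Field k] [Field K] [Algebra k K]
    (Q : PlaceData.{w} k K) (Z : K × K) : ℝ := ∑ᶠ v, (Q.wt v : ℝ) * (-(vo (Q.ord v) Z : ℝ))

/-- the order of a vector of the form `F^n (C)` off the point `X₀`, as a height -/
noncomputable def hL {k : Type v} {K : Type u} [Field k] [Field K] [Algebra k K]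
    (Q : PlaceData.{w} k K) (Z X₀ : K × K) : ℝ := by
  classical
  exact if wd Z X₀ = 0 then 0 else hV Q Z + hV Q X₀

/-- KEY: the height of a multiplier -/
def S_KEY : Prop := ∀ d m : ℕ, 2 ≤ d → 1 ≤ m → ∃ C₁ : ℝ, 0 ≤ C₁ ∧
  ∀ (k : Type v) (K : Type u) [Field k] [CharZero k] [Field K] [Algebra k K] [DecidableEq K]
  (Q : PlaceData.{w} k K) (p q : K[X]), Rat d p q → ∀ H : ℝ,
  (∀ i, hE Q (p.coeff i) ≤ H ∧ hE Q (q.coeff i) ≤ H) →
  ∀ Cr : Fin (2 * d - 2) → K × K, Crit d p q Cr →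
  ∀ (X₀ : K × K) (μ : K), X₀ ≠ 0 → μ ≠ 0 → (bK d p q)^[m] X₀ = μ • X₀ → ∀ n : ℕ, 1 ≤ n →
  ((n : ℝ) - 3) * hE Q (mlt d p q m X₀ μ) ≤
    C₁ * H + ∑ i, ∑ a ∈ range m, hL Q ((bK d p q)^[m * n - a] (Cr i)) X₀

/-- MUL: the height of a multiplier of a map whose critical points have small canonical height -/
def S_MUL : Prop := ∀ n d m : ℕ, 2 ≤ d → 1 ≤ m → ∃ C₁ : ℝ, 0 ≤ C₁ ∧
  ∀ (k : Type v) (E : Type u) [Field k] [CharZero k] [Field E] [Algebra k E] (t : E),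
  Transcendental k t → FiniteDimensional (IntermediateField.adjoin k {t}) E →
  Module.finrank (IntermediateField.adjoin k {t}) E ≤ n → ∀ p q : E[X], Rat d p q →
  (Wr p q).Splits → ∀ b : ℝ, 0 ≤ b →
  (∀ c : Option E, Pool.Agent.Y706.CH7.IsCritical p q d c →
    Pool.Agent.Y706.CH7.canHeight k p q d c ≤ ENNReal.ofReal b) →
  ∀ (X₀ : E × E) (μ : E), X₀ ≠ 0 → μ ≠ 0 → (bK d p q)^[m] X₀ = μ • X₀ → ∀ N : ℕ, 1 ≤ N →
  ((N : ℝ) - 3) * (Module.finrank (IntermediateField.adjoin k {mlt d p q m X₀ μ}) E : ℝ) ≤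
    C₁ * Pool.Agent.Y706.CH7.mapHeight k p q d + C₁ * (d : ℝ) ^ (m * N) * b

/-! ## B. Maps with constant multipliers are postcritically finite -/

/-- BAK: an orbit of points of bounded height of a map which is not isotrivial is finite -/
def S_BAK : Prop := ∀ (k : Type v) (K : Type u) [Field k] [CharZero k] [Field K] [Algebra k K]
  [DecidableEq K] (Q : PlaceData.{w} k K) (d : ℕ), 2 ≤ d → ∀ p q : K[X],
  p.natDegree ≤ d → q.natDegree = d → IsCoprime p q → ¬ ConjConst k p q d →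
  ∀ O : Set K, (∀ z ∈ O, q.eval z ≠ 0 ∧ p.eval z / q.eval z ∈ O) → ∀ H : ℝ,
  (∀ z ∈ O, ∀ S : Finset Q.Pl, ∑ v ∈ S, (Q.wt v : ℝ) * Q.pole v z ≤ H) → O.Finite

/-- SUN: the unit equation -/
def S_SUN : Prop := ∀ (k : Type v) (K : Type u) [Field k] [CharZero k] [Field K] [Algebra k K]
  (Q : PlaceData.{w} k K) (S : Finset Q.Pl), ∃ C₁ : ℝ, ∀ x : K, x ≠ 0 → x ≠ 1 →
  (∀ v, v ∉ S → Q.ord v x = 0 ∧ Q.ord v (1 - x) = 0) →
  ∀ S' : Finset Q.Pl, ∑ v ∈ S', (Q.wt v : ℝ) * Q.pole v x ≤ C₁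

/-- GP: a critical point which returns close to itself at a place of good reduction is close to an
attracting periodic point -/
def S_GP : Prop := ∀ (L : Type u) [Field L] [CharZero L] [IsAlgClosed L] (w : AbsoluteValue L ℝ),
  IsNonarchimedean w → ∀ d : ℕ, 2 ≤ d → ∀ p q : L[X], p.natDegree ≤ d → q.natDegree ≤ d →
  (∀ i, w (p.coeff i) ≤ 1 ∧ w (q.coeff i) ≤ 1) →
  (∀ Z : L × L, max (w Z.1) (w Z.2) = 1 → max (w (bK d p q Z).1) (w (bK d p q Z).2) = 1) →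
  ∀ c : L × L, max (w c.1) (w c.2) = 1 → Jv d p q c = 0 → ∀ N : ℕ, 1 ≤ N →
  wd ((bK d p q)^[N] c) c ≠ 0 → w (wd ((bK d p q)^[N] c) c) < 1 →
  ∃ (Y : L × L) (μ : L), max (w Y.1) (w Y.2) = 1 ∧ w μ = 1 ∧ (bK d p q)^[N] Y = μ • Y ∧
    w (wd Y c) < 1 ∧ w (mlt d p q N Y μ) < 1

/-- PRE: a point which is not periodic has three preimages of some order -/
def S_PRE : Prop := ∀ (L : Type u) [Field L] [CharZero L] [IsAlgClosed L] (d : ℕ), 2 ≤ d →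
  ∀ p q : L[X], Rat d p q → ∀ c : L × L, c ≠ 0 →
  (∀ n : ℕ, 1 ≤ n → wd ((bK d p q)^[n] c) c ≠ 0) →
  ∃ (l : ℕ) (b : Fin 3 → L × L), (∀ i, b i ≠ 0) ∧ (∀ i j, i ≠ j → wd (b i) (b j) ≠ 0) ∧
    ∀ i, wd ((bK d p q)^[l] (b i)) c = 0

/-- PCF: constant multipliers imply finite critical orbits (function fields of one variable) -/
def S_PCF : Prop := ∀ (E F : Type u) [Field E] [CharZero E] [IsAlgClosed E] [Field F]
  [Algebra E F] (x : F), Transcendental E x → FiniteDimensional (IntermediateField.adjoin E {x}) F →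
  ∀ d : ℕ, 2 ≤ d → ∀ p q : F[X], Rat d p q →
  ¬ ConjConst E (p.map (algebraMap F (AlgebraicClosure F)))
    (q.map (algebraMap F (AlgebraicClosure F))) d →
  (∀ m : ℕ, 1 ≤ m → ∀ (Z : AlgebraicClosure F × AlgebraicClosure F) (μ : AlgebraicClosure F),
    Z ≠ 0 → μ ≠ 0 → (bK d (p.map (algebraMap F (AlgebraicClosure F)))
      (q.map (algebraMap F (AlgebraicClosure F))))^[m] Z = μ • Z →
    ∃ c : E, algebraMap E (AlgebraicClosure F) c =
      mlt d (p.map (algebraMap F (AlgebraicClosure F)))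
        (q.map (algebraMap F (AlgebraicClosure F))) m Z μ) →
  ∀ c : F × F, c ≠ 0 → Jv d p q c = 0 →
  ∃ i j : ℕ, i < j ∧ wd ((bK d p q)^[i] c) ((bK d p q)^[j] c) = 0

/-! ## C. Rigidity of postcritically finite maps -/

/-- a postcritically finite map, in coordinates in which `∞` is a general point: `q` is monic of
degree `d`, the set `P` is invariant and contains the critical values, and `∞` is neither critical
nor mapped into `P` -/
structure Pcf {K : Type*} [Field K] (d : ℕ) (p q : K[X]) (P : Finset K) : Prop where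
  two_le : 2 ≤ d
  degp : p.natDegree ≤ d
  degq : q.natDegree = d
  monic : q.Monic
  cop : IsCoprime p q
  degW : (Wr p q).natDegree = 2 * d - 2
  inv : ∀ x ∈ P, q.eval x ≠ 0 ∧ p.eval x / q.eval x ∈ P
  crit : ∀ x, (Wr p q).eval x = 0 → q.eval x ≠ 0 ∧ p.eval x / q.eval x ∈ P
  inf : p.coeff d ∉ P

/-- the quadratic differential with the residues `a x` at the points of `P` -/
noncomputable def qd {K : Type*} [Field K] (P : Finset K) (a : K → K) (z : K) : K :=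
  ∑ x ∈ P, a x / (z - x)

/-- it has at most a simple pole at infinity (in fact no pole) -/
def Qd {K : Type*} [Field K] (P : Finset K) (a : K → K) : Prop :=
  ∑ x ∈ P, a x = 0 ∧ ∑ x ∈ P, a x * x = 0 ∧ ∑ x ∈ P, a x * x ^ 2 = 0

/-- the push forward under `p / q` of the quadratic differential, at `w` -/
noncomputable def push {K : Type*} [Field K] (p q : K[X]) (P : Finset K) (a : K → K) (w : K) : K :=
  ((p - C w * q).roots.map fun z => qd P a z / ((Wr p q).eval z / q.eval z ^ 2) ^ 2).sum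

/-- RES: the push forward and derivations -/
def S_RES : Prop := ∀ (K : Type u) [Field K] [CharZero K] [IsAlgClosed K] (d : ℕ) (p q : K[X])
  (P : Finset K), Pcf d p q P → ∃ T : (K → K) →ₗ[K] (K → K), ∀ a : K → K, Qd P a →
    Qd P (T a) ∧ (∀ w, w ∉ P → w ≠ p.coeff d → push p q P a w = qd P (T a) w) ∧
    ∀ D : Derivation ℤ K K, ∑ y ∈ P, T a y * D y = ∑ x ∈ P, a x * D x

/-- ANA: the area contraction -/
def S_ANA : Prop := ∀ (d : ℕ) (p q : ℂ[X]) (P : Finset ℂ), Pcf d p q P → ∀ a : ℂ → ℂ,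
  (∃ x ∈ P, a x ≠ 0) → Qd P a → (∀ w, w ∉ P → w ≠ p.coeff d → push p q P a w = qd P a w) →
  ∃ E : Finset ℂ, ∀ z, z ∉ E → qd P a (p.eval z / q.eval z) *
    ((Wr p q).eval z / q.eval z ^ 2) ^ 2 = d * qd P a z

/-- EMB: an invariant quadratic differential gives a Lattes map -/
def S_EMB : Prop := ∀ (K : Type u) [Field K] [CharZero K] [IsAlgClosed K] (d : ℕ) (p q : K[X])
  (P : Finset K), Pcf d p q P → ∀ a : K → K, (∃ x ∈ P, a x ≠ 0) → Qd P a →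
  (∀ w, w ∉ P → w ≠ p.coeff d → push p q P a w = qd P a w) → Lat d p q

/-- DER: if a derivation kills `P` it kills the map -/
def S_DER : Prop := ∀ (K : Type u) [Field K] [CharZero K] [IsAlgClosed K] (d : ℕ) (p q : K[X])
  (P : Finset K), Pcf d p q P → 3 ≤ P.card → ∀ D : Derivation ℤ K K, (∀ y ∈ P, D y = 0) →
  ∀ n, D (p.coeff n) = 0 ∧ D (q.coeff n) = 0

/-- THU: rigidity -/
def S_THU : Prop := ∀ (K : Type u) [Field K] [CharZero K] [IsAlgClosed K] (d : ℕ) (p q : K[X])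
  (P : Finset K), Pcf d p q P → ∀ x₁ ∈ P, ∀ x₂ ∈ P, ∀ x₃ ∈ P, x₁ ≠ x₂ → x₁ ≠ x₃ → x₂ ≠ x₃ →
  Lat d p q ∨ ∀ D : Derivation ℤ K K, D x₁ = 0 → D x₂ = 0 → D x₃ = 0 →
    ∀ n, D (p.coeff n) = 0 ∧ D (q.coeff n) = 0

/-! ## D. Maps with constant multipliers -/

/-- DRV: derivations -/
def S_DRV : Prop := ∀ (Ω : Type u) [Field Ω] [CharZero Ω] (κ : Subfield Ω) [IsAlgClosed κ]
  (a : Ω), a ∉ κ → ∃ D : Derivation ℤ Ω Ω, (∀ c ∈ κ, D c = 0) ∧ D a ≠ 0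

/-- CNJ: conjugation, over an infinite field -/
def S_CNJ : Prop := ∀ (K : Type u) [Field K] [CharZero K] (d : ℕ), 2 ≤ d → ∀ p q : K[X],
  Rat d p q →
  (∀ a b c e : K, a * e - b * c ≠ 0 → ∃ u w : K[X], Rat d u w ∧ CJ d a b c e p q u w) ∧
  (∀ (a b c e : K) (u w : K[X]), Rat d u w → CJ d a b c e p q u w →
    CJ d (e / (a * e - b * c)) (-b / (a * e - b * c)) (-c / (a * e - b * c))
      (a / (a * e - b * c)) u w p q ∧
    (∀ Z, Jv d u w (lm a b c e Z) = Jv d p q Z) ∧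
    (Lat d p q ↔ Lat d u w) ∧
    (∀ (κ : Subfield K) (s : K), s ≠ 0 → (∀ n, s * u.coeff n ∈ κ ∧ s * w.coeff n ∈ κ) →
      ConjConst κ p q d)) ∧
  (∀ κ : Subfield K, ConjConst κ p q d → ∃ (a b c e s : K) (u w : K[X]), s ≠ 0 ∧ Rat d u w ∧
    (∀ n, s * u.coeff n ∈ κ ∧ s * w.coeff n ∈ κ) ∧ CJ d a b c e p q u w)

/-- TRI: three points which form an invariant set -/
def S_TRI : Prop := ∀ (K : Type u) [Field K] [CharZero K] [IsAlgClosed K] (d : ℕ), 2 ≤ d →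
  ∀ p q : K[X], Rat d p q → ∃ x : Fin 3 → K × K, (∀ i, x i ≠ 0) ∧
    (∀ i j, i ≠ j → wd (x i) (x j) ≠ 0) ∧
    ((∀ i, wd (bK d p q (x i)) (x i) = 0) ∨
      (wd (bK d p q (x 0)) (x 0) = 0 ∧ wd (bK d p q (x 1)) (x 0) = 0 ∧
        wd (bK d p q (x 2)) (x 1) = 0))

/-- MCM: maps with constant multipliers -/
def S_MCM : Prop := ∀ (Ω : Type u) [Field Ω] [CharZero Ω] [IsAlgClosed Ω] (κ : Subfield Ω)
  [IsAlgClosed κ] (d : ℕ), 2 ≤ d → ∀ p q : Polynomial Ω, Rat d p q →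
  (∀ m : ℕ, 1 ≤ m → ∀ (Z : Ω × Ω) (μ : Ω), Z ≠ 0 → μ ≠ 0 → (bK d p q)^[m] Z = μ • Z →
    mlt d p q m Z μ ∈ κ) → ConjConst κ p q d ∨ Lat d p q

/-- the three points `0`, `1`, `∞` form an invariant set of one of the two types of TRI, in some
order -/
def Tri {K : Type*} [Field K] (d : ℕ) (p q : K[X]) : Prop :=
  ∃ x : Fin 3 → K × K, Function.Injective x ∧ (∀ i, x i ∈ ({(0, 1), (1, 1), (1, 0)} : Set (K × K))) ∧
    ((∀ i, wd (bK d p q (x i)) (x i) = 0) ∨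
      (wd (bK d p q (x 0)) (x 0) = 0 ∧ wd (bK d p q (x 1)) (x 0) = 0 ∧
        wd (bK d p q (x 2)) (x 1) = 0))

/-- ISO: a normalised map which is conjugate to a map over `κ` has its coefficients in `κ` -/
def S_ISO : Prop := ∀ (Ω : Type u) [Field Ω] [CharZero Ω] [IsAlgClosed Ω] (κ : Subfield Ω)
  [IsAlgClosed κ] (d : ℕ), 2 ≤ d → ∀ p q : Polynomial Ω, Rat d p q → Tri d p q →
  (∃ n, p.coeff n = 1 ∨ q.coeff n = 1) → ConjConst κ p q d →
  ∀ n, p.coeff n ∈ κ ∧ q.coeff n ∈ κ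

/-! ## E. Normal forms and ultraproducts -/

/-- the degree over `L` of an element of the closure -/
noncomputable def dn (L : Type u) [Field L] (x : AlgebraicClosure L) : ℕ :=
  Module.finrank L (IntermediateField.adjoin L {x})

/-- the height relative to `L` of an element of the closure -/
noncomputable def hn (k : Type v) (L : Type u) [Field k] [Field L] [Algebra k L]
    (x : AlgebraicClosure L) : ℝ :=
  (Module.finrank (IntermediateField.adjoin k {IntermediateField.AdjoinSimple.gen L x})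
    (IntermediateField.adjoin L {x}) : ℝ) / dn L x

/-- an abstract system of degrees and heights with the constants `A` and `B` -/
structure HSys (Ω : Type u) [Field Ω] (A : ℕ → ℝ) (B : ℕ → ℕ) where
  dg : Ω → ℕ
  h : Ω → ℝ
  h_nonneg : ∀ x, 0 ≤ h x
  zero : dg 0 ≤ 1 ∧ h 0 = 0
  one : dg 1 ≤ 1 ∧ h 1 = 0
  neg : ∀ x, dg (-x) = dg x ∧ h (-x) = h x
  inv : ∀ x, dg x⁻¹ = dg x ∧ h x⁻¹ = h x
  add : ∀ (D : ℕ) (x y : Ω), dg x ≤ D → dg y ≤ D →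
    dg (x + y) ≤ B D ∧ h (x + y) ≤ A D * (h x + h y)
  mul : ∀ (D : ℕ) (x y : Ω), dg x ≤ D → dg y ≤ D →
    dg (x * y) ≤ B D ∧ h (x * y) ≤ A D * (h x + h y)
  root : ∀ (D : ℕ) (P : Polynomial Ω), P.Monic → P.natDegree ≤ D → (∀ i, dg (P.coeff i) ≤ D) →
    ∀ x, P.IsRoot x → dg x ≤ B D ∧ h x ≤ A D * ∑ i ∈ range (D + 1), h (P.coeff i)

/-- HN: the heights `hn` -/
def S_HN : Prop := ∀ n : ℕ, ∃ (A : ℕ → ℝ) (B : ℕ → ℕ), (∀ D, 0 ≤ A D) ∧
  ∀ (k : Type v) (L : Type u) [Field k] [CharZero k] [Field L] [Algebra k L] (t : L),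
  Transcendental k t → FiniteDimensional (IntermediateField.adjoin k {t}) L →
  Module.finrank (IntermediateField.adjoin k {t}) L ≤ n →
  (∃ S : HSys (AlgebraicClosure L) A B, S.dg = dn L ∧ S.h = hn k L) ∧
  (∀ x : AlgebraicClosure L, hn k L x = 0 ↔ IsAlgebraic k x) ∧
  ∀ E : IntermediateField L (AlgebraicClosure L), FiniteDimensional L E → ∀ x : E,
    (Module.finrank (IntermediateField.adjoin k {x}) E : ℝ) =
      hn k L (x : AlgebraicClosure L) * Module.finrank L E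

/-- NF: the normal form of a map -/
def S_NF : Prop := ∀ d : ℕ, 2 ≤ d → ∃ D₀ : ℕ, ∀ (L : Type u) [Field L] [CharZero L] (p q : L[X]),
  Rat d p q → ∃ (a b c e s : AlgebraicClosure L) (u w : (AlgebraicClosure L)[X]),
  a * e - b * c ≠ 0 ∧ s ≠ 0 ∧ Rat d u w ∧ Tri d u w ∧ (∃ n, u.coeff n = 1 ∨ w.coeff n = 1) ∧
  (∀ Z, bK d u w (lm a b c e Z) = s • lm a b c e (bK d (p.map (algebraMap L (AlgebraicClosure L)))
    (q.map (algebraMap L (AlgebraicClosure L))) Z)) ∧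
  dn L a ≤ D₀ ∧ dn L b ≤ D₀ ∧ dn L c ≤ D₀ ∧ dn L e ≤ D₀ ∧ dn L s ≤ D₀ ∧
  (∀ n, dn L (u.coeff n) ≤ D₀ ∧ dn L (w.coeff n) ≤ D₀) ∧
  ∀ x, (Wr u w).eval x = 0 → dn L x ≤ D₀

/-- ULT: the ultraproduct of a sequence of algebraically closed fields -/
def S_ULT : Prop := ∀ (Ω : ℕ → Type u) [∀ i, Field (Ω i)] [∀ i, CharZero (Ω i)]
  [∀ i, IsAlgClosed (Ω i)] (U : Ultrafilter ℕ), ∃ (Λ : Type u) (_ : Field Λ) (_ : CharZero Λ)
  (_ : IsAlgClosed Λ) (π : (∀ i, Ω i) →+* Λ), Function.Surjective π ∧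
  ∀ x, π x = 0 ↔ ∀ᶠ i in (U : Filter ℕ), x i = 0

/-- KAP: the elements of infinitesimal height -/
def S_KAP : Prop := ∀ (A : ℕ → ℝ) (B : ℕ → ℕ), (∀ D, 0 ≤ A D) → ∀ (Ω : ℕ → Type u)
  [∀ i, Field (Ω i)] [∀ i, CharZero (Ω i)] [∀ i, IsAlgClosed (Ω i)] (U : Ultrafilter ℕ)
  (Λ : Type u) [Field Λ] [CharZero Λ] [IsAlgClosed Λ] (π : (∀ i, Ω i) →+* Λ),
  Function.Surjective π → (∀ x, π x = 0 ↔ ∀ᶠ i in (U : Filter ℕ), x i = 0) →
  ∀ (S : ∀ i, HSys (Ω i) A B) (H : ℕ → ℝ), (∀ i, 0 < H i) →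
  ∃ κ : Subfield Λ, IsAlgClosed κ ∧
    (∀ y ∈ κ, ∃ x : ∀ i, Ω i, π x = y ∧ ∃ D, ∀ i, (S i).dg (x i) ≤ D) ∧
    ∀ x : ∀ i, Ω i, (∃ D, ∀ᶠ i in (U : Filter ℕ), (S i).dg (x i) ≤ D) →
      (π x ∈ κ ↔ ∀ ε : ℝ, 0 < ε → ∀ᶠ i in (U : Filter ℕ), (S i).h (x i) ≤ ε * H i)

/-- LCA: maps which are neither isotrivial nor Lattes have large critical height -/
def S_LCA : Prop := ∀ n d : ℕ, 2 ≤ d → ∃ B : ℕ, ∀ (k : Type v) (L : Type u) [Field k] [CharZero k]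
  [Field L] [Algebra k L] (t : L), Transcendental k t →
  FiniteDimensional (IntermediateField.adjoin k {t}) L →
  Module.finrank (IntermediateField.adjoin k {t}) L ≤ n → ∀ p q : L[X], Rat d p q →
  ¬ Pool.Agent.Y706.BI.IsoAlg k (p.map (algebraMap L (AlgebraicClosure L)))
    (q.map (algebraMap L (AlgebraicClosure L))) d →
  ¬ Lat d (p.map (algebraMap L (AlgebraicClosure L)))
    (q.map (algebraMap L (AlgebraicClosure L))) → Pool.Agent.Y706.CH7.LCH k p q d B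

end Pool.Agent.Q103.OP
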