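import Pool.Agent.Q103.OP.Thu
import Pool.Agent.Q103.OP.Lcb
import Pool.Agent.Q103.OP.McA
import Pool.Agent.Q103.OP.Fin
import Pool.Agent.Q103.OP.Fld
import Pool.Agent.Q103.OP.Sqr
import Pool.Agent.Q129.OP.ITER
import Pool.Agent.Q129.OP.DRV
import Pool.Agent.Q129.OP.TRI
import Pool.Agent.Q129.OP.ULT
import Pool.Agent.Q129.OP.KAP
import Pool.Agent.Q150.OP.SUN
import Pool.Agent.Q150.OP.ALM
import Pool.Agent.Q150.OP.EMB
import Pool.Agent.Q15.OP.BAK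
import Pool.Agent.Q274.OP.Nf
import Pool.Agent.Q274.OP.Iso
import Pool.Agent.Q14.OP.HN
import Pool.Agent.Q176.OP.MUL
import Pool.Agent.Q176.OP.KEY
import Pool.Agent.Q135.OP.INV
import Pool.Agent.Q149.OP.RES
import Pool.Agent.Q177.OP.Ana
import Pool.Agent.Q177.OP.Pcf
import Pool.Agent.Q208.OP.CNJ2
import Pool.Agent.Q208.OP.GP
import Pool.Agent.Q208.OP.PRE
import Pool.Agent.Q208.OP.DER
import Pool.Agent.Y555.CH.Ext
import Pool.Agent.Q154.OP.AL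

set_option autoImplicit false

/-!
# Project OP: the theorem on the critical height of maps which are neither isotrivial nor Lattes
-/

namespace Pool.Agent.Q103.OP

open Pool.Agent.Q103.OP

universe u v

theorem t_LCA_of (hAL : S_AL.{u}) : S_LCA.{u, v} := by
  have hIT : S_ITER.{u} := Pool.Agent.Q129.OP.t_ITER
  have hTRI : S_TRI.{u} := Pool.Agent.Q129.OP.t_TRI
  have hCNJ : S_CNJ.{u} := Pool.Agent.Q208.OP.t_CNJ
  have hMUL : S_MUL.{u, v} := Pool.Agent.Q176.OP.t_MUL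
    (Pool.Agent.Q176.OP.t_KEY (Pool.Agent.Q150.OP.t_ALM hIT hAL))
  have hPCF : S_PCF.{u} := Pool.Agent.Q177.OP.t_PCF Pool.Agent.Q15.OP.t_BAK
    Pool.Agent.Q150.OP.t_SUN (Pool.Agent.Q208.OP.t_GP hIT) Pool.Agent.Q208.OP.t_PRE
  have hTHU : S_THU.{u} := Thu.t_THU Pool.Agent.Q149.OP.t_RES
    (Pool.Agent.Q150.OP.t_EMB Pool.Agent.Q149.OP.t_RES Pool.Agent.Q177.OP.t_ANA)
    Pool.Agent.Q208.OP.t_DER
  have hMCM : S_MCM.{u} := McA.t_MCM hPCF hTHU Pool.Agent.Q129.OP.t_DRV hCNJ hTRI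
  exact Lcb.t_LCA Pool.Agent.Q14.OP.t_HN (Pool.Agent.Q274.OP.t_NF hTRI hCNJ) hMUL hIT hCNJ
    Pool.Agent.Q129.OP.t_ULT Pool.Agent.Q129.OP.t_KAP hMCM (Pool.Agent.Q274.OP.t_ISO hCNJ)

theorem t_SQR : ∀ (K : Type u) [Field K] [CharZero K] [IsAlgClosed K] (d : ℕ), 2 ≤ d →
    ∀ p q : Polynomial K, Rat d p q → Lat d p q → IsSquare d := Sqr.t_SQR

theorem t_FLD : S_FLD := Fld.t_FLD Pool.Agent.Q208.OP.t_CNJ
  (Pool.Agent.Q274.OP.t_NF Pool.Agent.Q129.OP.t_TRI Pool.Agent.Q208.OP.t_CNJ)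
  (Pool.Agent.Q274.OP.t_ISO Pool.Agent.Q208.OP.t_CNJ)

theorem t_LCA : S_LCA.{u, v} :=
  t_LCA_of (Pool.Agent.Q154.OP.t_AL Pool.Agent.Q135.OP.t_INV Pool.Agent.Q129.OP.t_ITER)

end Pool.Agent.Q103.OP
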