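import Pool.Agent.Q103.OP.Defs
import Pool.Agent.Y195.CH.CRT

/-!
# Project OP: basic facts
-/

set_option autoImplicit false

namespace Pool.Agent.Q103.OP.Bas

open Pool.Agent.Q103.OP Finset Polynomial Pool.Agent.W277.UH
open Pool.Agent.Y706.CH (bK)

variable {K : Type*} [Field K]

lemma Wr_ne [CharZero K] {d : ℕ} (hd : 2 ≤ d) {p q : K[X]} (h : Rat d p q) : Wr p q ≠ 0 :=
  Pool.Agent.Y195.CH.wr_ne p q h.1 (by rw [h.2]; omega)

lemma Wr_deg {d : ℕ} (hd : 2 ≤ d) {p q : K[X]} (h : Rat d p q) :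
    (Wr p q).natDegree ≤ 2 * d - 2 :=
  Pool.Agent.Y195.CH.wr_deg d (by omega) p q (h.2 ▸ le_max_left _ _) (h.2 ▸ le_max_right _ _)

lemma bK_smul (d : ℕ) (p q : K[X]) (t : K) (Z : K × K) :
    bK d p q (t • Z) = t ^ d • bK d p q Z := by
  unfold bK
  rw [hev_smul, hev_smul]
  rfl

lemma bK_nz {d : ℕ} (hd : 1 ≤ d) {p q : K[X]} (h : Rat d p q) {Z : K × K} (hZ : Z ≠ 0) :
    bK d p q Z ≠ 0 := by
  intro h0
  have hp : p.natDegree ≤ d := h.2 ▸ le_max_left _ _
  have hq : q.natDegree ≤ d := h.2 ▸ le_max_right _ _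
  have h1 : hev d p Z = 0 := congrArg Prod.fst h0
  have h2 : hev d q Z = 0 := congrArg Prod.snd h0
  by_cases hX2 : Z.2 = 0
  · have hX' : Z = (Z.1, 0) := Prod.ext rfl hX2
    have hZ1 : Z.1 ≠ 0 := fun h => hZ (by rw [hX', h]; rfl)
    rw [hX', hev_zero] at h1 h2
    have e1 := (mul_eq_zero.mp h1).resolve_right (pow_ne_zero _ hZ1)
    have e2 := (mul_eq_zero.mp h2).resolve_right (pow_ne_zero _ hZ1)
    rcases le_total p.natDegree q.natDegree with hle | hle
    · have hqd : q.natDegree = d := by rw [← h.2]; exact (max_eq_right hle).symm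
      have : q = 0 := leadingCoeff_eq_zero.mp (by rw [leadingCoeff, hqd]; exact e2)
      rw [this, natDegree_zero] at hqd
      omega
    · have hpd : p.natDegree = d := by rw [← h.2]; exact (max_eq_left hle).symm
      have : p = 0 := leadingCoeff_eq_zero.mp (by rw [leadingCoeff, hpd]; exact e1)
      rw [this, natDegree_zero] at hpd
      omega
  · rw [hev_eval d p hp Z hX2] at h1
    rw [hev_eval d q hq Z hX2] at h2
    have e1 := (mul_eq_zero.mp h1).resolve_left (pow_ne_zero _ hX2)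
    have e2 := (mul_eq_zero.mp h2).resolve_left (pow_ne_zero _ hX2)
    obtain ⟨u, w, huw⟩ := h.1
    have := congrArg (eval (Z.1 / Z.2)) huw
    rw [eval_add, eval_mul, eval_mul, e1, e2, mul_zero, mul_zero, add_zero, eval_one] at this
    exact zero_ne_one this

lemma iter_nz {d : ℕ} (hd : 1 ≤ d) {p q : K[X]} (h : Rat d p q) {Z : K × K} (hZ : Z ≠ 0) (n : ℕ) :
    (bK d p q)^[n] Z ≠ 0 := by
  induction n with
  | zero => exact hZ
  | succ n ih => rw [Function.iterate_succ_apply']; exact bK_nz hd h ih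

lemma iter_smul (d : ℕ) (p q : K[X]) (t : K) (Z : K × K) (n : ℕ) :
    (bK d p q)^[n] (t • Z) = t ^ (d ^ n) • (bK d p q)^[n] Z := by
  induction n with
  | zero => simp
  | succ n ih =>
    rw [Function.iterate_succ_apply', ih, bK_smul, Function.iterate_succ_apply', ← pow_mul,
      pow_succ]

lemma Jv_smul (d : ℕ) (p q : K[X]) (t : K) (Z : K × K) :
    Jv d p q (t • Z) = t ^ (2 * d - 2) * Jv d p q Z := by
  unfold Jv
  rw [hev_smul]

lemma lm_smul (a b c e t : K) (Z : K × K) : lm a b c e (t • Z) = t • lm a b c e Z := by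
  unfold lm
  ext
  · simp only [Prod.smul_fst, Prod.smul_snd, smul_eq_mul]; ring
  · simp only [Prod.smul_fst, Prod.smul_snd, smul_eq_mul]; ring

lemma wd_lm (a b c e : K) (Z W : K × K) :
    wd (lm a b c e Z) (lm a b c e W) = (a * e - b * c) * wd Z W := by
  unfold lm wd
  ring

lemma lm_comp (a b c e a' b' c' e' : K) (Z : K × K) :
    lm a' b' c' e' (lm a b c e Z) =
      lm (a' * a + b' * c) (a' * b + b' * e) (c' * a + e' * c) (c' * b + e' * e) Z := by
  unfold lm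
  ext
  · simp only; ring
  · simp only; ring

lemma lm_zero (a b c e : K) : lm a b c e 0 = 0 := by
  unfold lm
  simp

lemma lm_inv {a b c e : K} (h : a * e - b * c ≠ 0) (Z : K × K) :
    lm a b c e (lm (e / (a * e - b * c)) (-b / (a * e - b * c)) (-c / (a * e - b * c))
      (a / (a * e - b * c)) Z) = Z := by
  obtain ⟨D, hD⟩ : ∃ D, D = a * e - b * c := ⟨_, rfl⟩
  rw [← hD] at h ⊢
  unfold lm
  ext
  · simp only
    field_simp
    rw [hD]
    ring
  · simp only
    field_simp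
    rw [hD]
    ring

lemma lm_inv' {a b c e : K} (h : a * e - b * c ≠ 0) (Z : K × K) :
    lm (e / (a * e - b * c)) (-b / (a * e - b * c)) (-c / (a * e - b * c))
      (a / (a * e - b * c)) (lm a b c e Z) = Z := by
  obtain ⟨D, hD⟩ : ∃ D, D = a * e - b * c := ⟨_, rfl⟩
  rw [← hD] at h ⊢
  unfold lm
  ext
  · simp only
    field_simp
    rw [hD]
    ring
  · simp only
    field_simp
    rw [hD]
    ring

lemma lm_ne {a b c e : K} (h : a * e - b * c ≠ 0) {Z : K × K} (hZ : Z ≠ 0) :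
    lm a b c e Z ≠ 0 := by
  intro h0
  apply hZ
  rw [← lm_inv' h Z, h0, lm_zero]

lemma CJ_iter {d : ℕ} {a b c e : K} {p q u w : K[X]} (h : CJ d a b c e p q u w) (Z : K × K)
    (n : ℕ) : (bK d u w)^[n] (lm a b c e Z) = lm a b c e ((bK d p q)^[n] Z) := by
  induction n with
  | zero => rfl
  | succ n ih => rw [Function.iterate_succ_apply', ih, h.2, Function.iterate_succ_apply']

lemma CJ_comp {d : ℕ} {a b c e a' b' c' e' : K} {p q u w r s : K[X]} (h : CJ d a b c e p q u w)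
    (h' : CJ d a' b' c' e' u w r s) :
    CJ d (a' * a + b' * c) (a' * b + b' * e) (c' * a + e' * c) (c' * b + e' * e) p q r s := by
  refine ⟨?_, fun Z => ?_⟩
  · have : (a' * a + b' * c) * (c' * b + e' * e) - (a' * b + b' * e) * (c' * a + e' * c) =
      (a' * e' - b' * c') * (a * e - b * c) := by ring
    rw [this]
    exact mul_ne_zero h'.1 h.1
  · rw [← lm_comp, h'.2, h.2, lm_comp]

lemma bK_C (d : ℕ) (p q : K[X]) (s : K) (Z : K × K) :
    bK d (C s * p) (C s * q) Z = s • bK d p q Z := by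
  unfold bK hev
  ext
  · simp only [Prod.smul_fst, smul_eq_mul, Finset.mul_sum, coeff_C_mul]
    exact Finset.sum_congr rfl fun i _ => by ring
  · simp only [Prod.smul_snd, smul_eq_mul, Finset.mul_sum, coeff_C_mul]
    exact Finset.sum_congr rfl fun i _ => by ring

lemma Rat_C {d : ℕ} {p q : K[X]} (h : Rat d p q) {s : K} (hs : s ≠ 0) :
    Rat d (C s * p) (C s * q) := by
  refine ⟨?_, ?_⟩
  · have hu : IsUnit (C s : K[X]) := isUnit_C.mpr (isUnit_iff_ne_zero.mpr hs)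
    exact (isCoprime_mul_unit_left hu p q).mpr h.1
  · rw [natDegree_C_mul hs, natDegree_C_mul hs]
    exact h.2

/-- over an algebraically closed field scalars can be absorbed -/
lemma CJ_scale [IsAlgClosed K] {d : ℕ} (hd : 2 ≤ d) {a b c e : K} {p q u w : K[X]}
    (h : CJ d a b c e p q u w) {s : K} (hs : s ≠ 0) :
    ∃ t : K, t ≠ 0 ∧ CJ d (t * a) (t * b) (t * c) (t * e) p q (C s * u) (C s * w) := by
  obtain ⟨t, ht⟩ := IsAlgClosed.exists_pow_nat_eq (s⁻¹) (n := d - 1) (by omega)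
  have ht0 : t ≠ 0 := by
    rintro rfl
    rw [zero_pow (by omega)] at ht
    exact (inv_ne_zero hs) ht.symm
  refine ⟨t, ht0, ?_, fun Z => ?_⟩
  · have : t * a * (t * e) - t * b * (t * c) = t ^ 2 * (a * e - b * c) := by ring
    rw [this]
    exact mul_ne_zero (pow_ne_zero _ ht0) h.1
  · have h1 : ∀ Y : K × K, lm (t * a) (t * b) (t * c) (t * e) Y = t • lm a b c e Y := by
      intro Y
      unfold lm
      ext
      · simp only [Prod.smul_fst, smul_eq_mul]; ring
      · simp only [Prod.smul_snd, smul_eq_mul]; ring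
    rw [h1, h1, bK_C, bK_smul, h.2, smul_smul]
    congr 1
    have : t ^ d = t ^ (d - 1) * t := by rw [← pow_succ]; congr 1; omega
    rw [this, ht]
    field_simp

lemma wd_trans {X Y Z : K × K} (hY : Y ≠ 0) (h1 : wd X Y = 0) (h2 : wd Y Z = 0) :
    wd X Z = 0 := by
  obtain ⟨t, rfl⟩ := (wd_zero_iff hY).mp h1
  rw [wd_smul_left, h2, mul_zero]

lemma wd_symm {X Y : K × K} (h : wd X Y = 0) : wd Y X = 0 := by
  rw [wd_comm, h, neg_zero]

lemma wd_bK {d : ℕ} {p q : K[X]} {X Y : K × K} (hY : Y ≠ 0) (h : wd X Y = 0) :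
    wd (bK d p q X) (bK d p q Y) = 0 := by
  obtain ⟨t, rfl⟩ := (wd_zero_iff hY).mp h
  rw [bK_smul, wd_smul_left, wd_self, mul_zero]

lemma wd_iter {d : ℕ} {p q : K[X]} {X Y : K × K} (hY : Y ≠ 0) (h : wd X Y = 0) (n : ℕ) :
    wd ((bK d p q)^[n] X) ((bK d p q)^[n] Y) = 0 := by
  obtain ⟨t, rfl⟩ := (wd_zero_iff hY).mp h
  rw [iter_smul, wd_smul_left, wd_self, mul_zero]

section map

variable {L : Type*} [Field L] (φ : K →+* L)

/-- the image of a vector -/
def vmp (Z : K × K) : L × L := (φ Z.1, φ Z.2)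

lemma hev_mp (d : ℕ) (p : K[X]) (Z : K × K) : hev d (p.map φ) (vmp φ Z) = φ (hev d p Z) := by
  unfold hev vmp
  rw [map_sum]
  exact Finset.sum_congr rfl fun i _ => by simp

lemma bK_mp (d : ℕ) (p q : K[X]) (Z : K × K) :
    bK d (p.map φ) (q.map φ) (vmp φ Z) = vmp φ (bK d p q Z) := by
  unfold bK
  rw [hev_mp, hev_mp]
  rfl

lemma iter_mp (d : ℕ) (p q : K[X]) (Z : K × K) (n : ℕ) :
    (bK d (p.map φ) (q.map φ))^[n] (vmp φ Z) = vmp φ ((bK d p q)^[n] Z) := by
  induction n with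
  | zero => rfl
  | succ n ih => rw [Function.iterate_succ_apply', ih, bK_mp, Function.iterate_succ_apply']

lemma Wr_mp (p q : K[X]) : Wr (p.map φ) (q.map φ) = (Wr p q).map φ := by
  unfold Wr
  rw [Polynomial.map_sub, Polynomial.map_mul, Polynomial.map_mul, derivative_map, derivative_map]

lemma Jv_mp (d : ℕ) (p q : K[X]) (Z : K × K) :
    Jv d (p.map φ) (q.map φ) (vmp φ Z) = φ (Jv d p q Z) := by
  unfold Jv
  rw [Wr_mp, hev_mp]

lemma mlt_mp (d : ℕ) (p q : K[X]) (m : ℕ) (Z : K × K) (μ : K) :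
    mlt d (p.map φ) (q.map φ) m (vmp φ Z) (φ μ) = φ (mlt d p q m Z μ) := by
  unfold mlt
  rw [map_div₀, map_pow, map_prod]
  congr 1
  exact Finset.prod_congr rfl fun j _ => by rw [iter_mp, Jv_mp]

lemma wd_mp (Z W : K × K) : wd (vmp φ Z) (vmp φ W) = φ (wd Z W) := by
  unfold wd vmp
  rw [map_sub, map_mul, map_mul]

lemma vmp_smul (t : K) (Z : K × K) : vmp φ (t • Z) = φ t • vmp φ Z := by
  unfold vmp
  ext <;> simp

lemma vmp_ne {Z : K × K} (hZ : Z ≠ 0) : vmp φ Z ≠ 0 := by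
  intro h
  apply hZ
  have h1 : φ Z.1 = 0 := congrArg Prod.fst h
  have h2 : φ Z.2 = 0 := congrArg Prod.snd h
  exact Prod.ext ((map_eq_zero φ).mp h1) ((map_eq_zero φ).mp h2)

lemma Rat_mp {d : ℕ} {p q : K[X]} (h : Rat d p q) : Rat d (p.map φ) (q.map φ) := by
  refine ⟨(isCoprime_map φ).mpr h.1, ?_⟩
  rw [natDegree_map, natDegree_map]
  exact h.2

end map

/-- multipliers are invariant -/
lemma mlt_CJ {d : ℕ} {a b c e : K} {p q u w : K[X]} (h : CJ d a b c e p q u w)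
    (hJ : ∀ Z, Jv d u w (lm a b c e Z) = Jv d p q Z) (m : ℕ) (Z : K × K) (μ : K) :
    mlt d u w m (lm a b c e Z) μ = mlt d p q m Z μ := by
  unfold mlt
  congr 1
  exact Finset.prod_congr rfl fun j _ => by rw [CJ_iter h, hJ]

/-- a zero of the form `Jv` -/
lemma Jv_zero [CharZero K] {d : ℕ} (hd : 2 ≤ d) {p q : K[X]} (h : Rat d p q) {Z : K × K}
    (hJ : Jv d p q Z = 0) : (Z.2 = 0) ∨
      (Z.2 ≠ 0 ∧ (Wr p q).eval (Z.1 / Z.2) = 0 ∧ Z = Z.2 • ((Z.1 / Z.2, 1) : K × K)) := by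
  by_cases h2 : Z.2 = 0
  · exact Or.inl h2
  · right
    refine ⟨h2, ?_, ?_⟩
    · unfold Jv at hJ
      rw [hev_eval _ _ (Wr_deg hd h) Z h2] at hJ
      exact (mul_eq_zero.mp hJ).resolve_left (pow_ne_zero _ h2)
    · ext
      · simp only [Prod.smul_fst, smul_eq_mul]
        field_simp
      · simp

lemma Jv_one {d : ℕ} (hd : 2 ≤ d) {p q : K[X]} (h : Rat d p q) (x : K) :
    Jv d p q (x, 1) = (Wr p q).eval x := by
  unfold Jv
  rw [hev_one _ _ (Wr_deg hd h)]

end Pool.Agent.Q103.OP.Bas
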