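import Pool.Agent.Q103.OP.All

/-!
# Project OP: families over number fields
-/

set_option autoImplicit false

namespace Pool.Agent.Q103.OP.Fam

open Pool.Agent.Q103.OP Polynomial NumberField
open Pool.Agent.Y706.BI (RF others generic genBar IsoAlg AlmostAll special preperB)

/-- families over number fields, points of bounded degree: all families which are neither
isotrivial nor Lattes -/
theorem fam : ∃ N : ℕ → ℕ → ℕ, ∀ (k : Type) [Field k] [NumberField k] (J : Type) [Fintype J]
    (ω : Module.Basis J ℤ (𝓞 k)) (d B : ℕ), 2 ≤ d → 1 ≤ B →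
    ∀ (m : ℕ) (P Q : (MvPolynomial (Fin m) k)[X]), max P.natDegree Q.natDegree = d →
      IsCoprime (generic P) (generic Q) → ¬ IsoAlg k (genBar P) (genBar Q) d →
      ¬ Lat d (genBar P) (genBar Q) →
      AlmostAll ω m {v | v 0 ≠ 0 ∧ IsCoprime (special v P) (special v Q) ∧
        max (special v P).natDegree (special v Q).natDegree = d ∧
        (preperB (special v P) (special v Q) d B).encard ≤ ((N B d : ℕ) : ℕ∞)} := by
  classical
  obtain ⟨N, hN⟩ := Pool.Agent.Y706.CH7.t_FM2 (Pool.Agent.Y706.CH7.bdg2 Fin.fin2.{0, 0}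
    Pool.Agent.Y706.CH7.t_BDC (Pool.Agent.Y833.CH.t_EXT Pool.Agent.Y555.CH.t_HTE))
  have hB : ∀ d : ℕ, ∃ A : ℕ, 2 ≤ d → ∀ (k L : Type) [Field k]
      [CharZero k] [Field L] [Algebra k L] (t : L), Transcendental k t →
      FiniteDimensional (IntermediateField.adjoin k {t}) L →
      Module.finrank (IntermediateField.adjoin k {t}) L ≤ 1 → ∀ p q : L[X], Rat d p q →
      ¬ IsoAlg k (p.map (algebraMap L (AlgebraicClosure L)))
        (q.map (algebraMap L (AlgebraicClosure L))) d →
      ¬ Lat d (p.map (algebraMap L (AlgebraicClosure L)))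
        (q.map (algebraMap L (AlgebraicClosure L))) → Pool.Agent.Y706.CH7.LCH k p q d A := by
    intro d
    by_cases hd : 2 ≤ d
    · obtain ⟨A, hA⟩ := t_LCA.{0, 0} 1 d hd
      exact ⟨A, fun _ => hA⟩
    · exact ⟨0, fun h => absurd h hd⟩
  choose A hA using hB
  refine ⟨fun B d => N B d (A d), ?_⟩
  intro k _ _ J _ ω d B hd hB m P Q hmax hco hiso hlat
  have hcz0 : CharZero (RF k m) :=
    charZero_of_injective_algebraMap (R := k) (algebraMap k _).injective
  have hinj : Function.Injective (algebraMap (MvPolynomial (Fin m) k) (RF k m)) :=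
    IsFractionRing.injective _ _
  have hmax' : max (generic P).natDegree (generic Q).natDegree = d := by
    rw [generic, generic, Polynomial.natDegree_map_eq_of_injective hinj,
      Polynomial.natDegree_map_eq_of_injective hinj]
    exact hmax
  -- a variable
  obtain ⟨i, hi⟩ : ∃ i : Fin m, ¬ IsoAlg (others k i) (genBar P) (genBar Q) d := by
    by_contra hcon
    push Not at hcon
    exact hiso (t_FLD k m d hd P Q ⟨hco, hmax'⟩ hcon)
  have hczF : CharZero (others k i) := by
    constructor
    intro a b hab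
    have := congrArg (algebraMap (others k i) (RF k m)) hab
    rw [map_natCast, map_natCast] at this
    exact_mod_cast this
  obtain ⟨hfd, hfr⟩ := Pool.Agent.Y681.BI.finrank_one_of (F := others k i)
    (Pool.Agent.Y706.gen_sub i)
  exact hN k J ω d B (A d) hd hB m P Q i hmax hco
    (hA d hd (others k i) (RF k m) _ (Pool.Agent.Y706.tr_sub i) hfd hfr (generic P) (generic Q)
      ⟨hco, hmax'⟩ hi hlat)

end Pool.Agent.Q103.OP.Fam
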