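import Pool.Agent.Q103.OP.Bas

/-!
# Project OP: maps with finite critical orbits
-/

set_option autoImplicit false

namespace Pool.Agent.Q103.OP.McB

open Pool.Agent.Q103.OP Pool.Agent.Q103.OP.Bas Finset Polynomial Pool.Agent.W277.UH
open Pool.Agent.Y706.CH (bK)

universe u

variable {K : Type u} [Field K]

/-- coordinates for three points -/
lemma three {x0 x1 x2 : K × K} (h01 : wd x0 x1 ≠ 0) (h02 : wd x0 x2 ≠ 0) (h12 : wd x1 x2 ≠ 0) :
    ∃ a b c e s0 s1 s2 : K, a * e - b * c ≠ 0 ∧ s0 ≠ 0 ∧ s1 ≠ 0 ∧ s2 ≠ 0 ∧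
      lm a b c e x0 = s0 • ((0, 1) : K × K) ∧ lm a b c e x1 = s1 • ((1, 1) : K × K) ∧
      lm a b c e x2 = s2 • ((1, 0) : K × K) := by
  obtain ⟨α, hα⟩ : ∃ α, α = wd x1 x2 := ⟨_, rfl⟩
  obtain ⟨β, hβ⟩ : ∃ β, β = wd x1 x0 := ⟨_, rfl⟩
  have hα0 : α ≠ 0 := hα ▸ h12
  have hβ0 : β ≠ 0 := by
    rw [hβ, wd_comm]
    exact neg_ne_zero.mpr h01
  refine ⟨α * x0.2, -α * x0.1, β * x2.2, -β * x2.1, β * wd x0 x2, α * β, -(α * wd x0 x2),
    ?_, mul_ne_zero hβ0 h02, mul_ne_zero hα0 hβ0, neg_ne_zero.mpr (mul_ne_zero hα0 h02),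
    ?_, ?_, ?_⟩
  · have : α * x0.2 * (-β * x2.1) - -α * x0.1 * (β * x2.2) = α * β * wd x0 x2 := by
      unfold wd
      ring
    rw [this]
    exact mul_ne_zero (mul_ne_zero hα0 hβ0) h02
  · unfold lm wd
    ext
    · simp only [Prod.smul_fst, smul_eq_mul]; ring
    · simp only [Prod.smul_snd, smul_eq_mul]; ring
  · unfold lm
    ext
    · simp only [Prod.smul_fst, smul_eq_mul]
      rw [hβ]
      unfold wd
      ring
    · simp only [Prod.smul_snd, smul_eq_mul]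
      rw [hα]
      unfold wd
      ring
  · unfold lm wd
    ext
    · simp only [Prod.smul_fst, smul_eq_mul]; ring
    · simp only [Prod.smul_snd, smul_eq_mul]; ring

/-- the orbit of `Y` is finite -/
def FO (d : ℕ) (p q : K[X]) (Y : K × K) : Prop :=
  ∃ i j : ℕ, i < j ∧ wd ((bK d p q)^[i] Y) ((bK d p q)^[j] Y) = 0

/-- the critical orbits are finite -/
def CF (d : ℕ) (p q : K[X]) : Prop := ∀ Y : K × K, Y ≠ 0 → Jv d p q Y = 0 → FO d p q Y

lemma FO_smul {d : ℕ} {p q : K[X]} {Y : K × K} (t : K) (h : FO d p q Y) : FO d p q (t • Y) := by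
  obtain ⟨i, j, hij, h⟩ := h
  refine ⟨i, j, hij, ?_⟩
  rw [iter_smul, iter_smul, wd_smul_left, wd_smul_right, h, mul_zero, mul_zero]

lemma FO_CJ {d : ℕ} {a b c e : K} {p q u w : K[X]} (h : CJ d a b c e p q u w) {Y : K × K}
    (hY : FO d p q Y) : FO d u w (lm a b c e Y) := by
  obtain ⟨i, j, hij, hY⟩ := hY
  refine ⟨i, j, hij, ?_⟩
  rw [CJ_iter h, CJ_iter h, wd_lm, hY, mul_zero]

lemma FO_CJ' {d : ℕ} {a b c e : K} {p q u w : K[X]} (h : CJ d a b c e p q u w) {Y : K × K}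
    (hY : FO d u w (lm a b c e Y)) : FO d p q Y := by
  obtain ⟨i, j, hij, hY⟩ := hY
  refine ⟨i, j, hij, ?_⟩
  rw [CJ_iter h, CJ_iter h, wd_lm] at hY
  exact (mul_eq_zero.mp hY).resolve_left h.1

lemma CF_CJ {d : ℕ} {a b c e : K} {p q u w : K[X]} (h : CJ d a b c e p q u w)
    (hJ : ∀ Z, Jv d u w (lm a b c e Z) = Jv d p q Z) (hc : CF d p q) : CF d u w := by
  intro Y hY hJY
  obtain ⟨Z, hZ⟩ : ∃ Z, lm a b c e Z = Y := ⟨_, lm_inv h.1 Y⟩
  rw [← hZ] at hJY ⊢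
  rw [hJ] at hJY
  refine FO_CJ h (hc Z ?_ hJY)
  rintro rfl
  rw [lm_zero] at hZ
  exact hY hZ.symm

lemma orb {d : ℕ} (hd : 1 ≤ d) {p q : K[X]} (h : Rat d p q) {X : K × K} (hX : X ≠ 0)
    (hf : FO d p q X) : ∃ S : Finset (K × K), X ∈ S ∧ (∀ Y ∈ S, Y ≠ 0) ∧
      ∀ Y ∈ S, ∃ Z ∈ S, wd (bK d p q Y) Z = 0 := by
  classical
  obtain ⟨i, j, hij, hw⟩ := hf
  refine ⟨(range j).image fun n => (bK d p q)^[n] X, ?_, ?_, ?_⟩
  · exact mem_image.mpr ⟨0, mem_range.mpr (by omega), rfl⟩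
  · intro Y hY
    obtain ⟨n, -, rfl⟩ := mem_image.mp hY
    exact iter_nz hd h hX n
  · intro Y hY
    obtain ⟨n, hn, rfl⟩ := mem_image.mp hY
    rw [mem_range] at hn
    by_cases hnj : n + 1 < j
    · refine ⟨(bK d p q)^[n + 1] X, mem_image.mpr ⟨n + 1, mem_range.mpr hnj, rfl⟩, ?_⟩
      rw [Function.iterate_succ_apply', wd_self]
    · have : n + 1 = j := by omega
      refine ⟨(bK d p q)^[i] X, mem_image.mpr ⟨i, mem_range.mpr hij, rfl⟩, ?_⟩
      rw [← Function.iterate_succ_apply' (f := bK d p q), Nat.succ_eq_add_one, this]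
      exact wd_symm hw

lemma orbs {d : ℕ} (hd : 1 ≤ d) {p q : K[X]} (h : Rat d p q) (C₀ : Finset (K × K))
    (hC : ∀ X ∈ C₀, X ≠ 0 ∧ FO d p q X) : ∃ S : Finset (K × K), C₀ ⊆ S ∧ (∀ Y ∈ S, Y ≠ 0) ∧
      ∀ Y ∈ S, ∃ Z ∈ S, wd (bK d p q Y) Z = 0 := by
  classical
  have h1 : ∀ X : C₀, ∃ S : Finset (K × K), X.1 ∈ S ∧ (∀ Y ∈ S, Y ≠ 0) ∧
      ∀ Y ∈ S, ∃ Z ∈ S, wd (bK d p q Y) Z = 0 := fun X => orb hd h (hC X X.2).1 (hC X X.2).2
  choose S hS1 hS2 hS3 using h1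
  refine ⟨univ.biUnion S, ?_, ?_, ?_⟩
  · intro X hX
    exact mem_biUnion.mpr ⟨⟨X, hX⟩, mem_univ _, hS1 ⟨X, hX⟩⟩
  · intro Y hY
    obtain ⟨X, -, hX⟩ := mem_biUnion.mp hY
    exact hS2 X Y hX
  · intro Y hY
    obtain ⟨X, -, hX⟩ := mem_biUnion.mp hY
    obtain ⟨Z, hZ, hw⟩ := hS3 X Y hX
    exact ⟨Z, mem_biUnion.mpr ⟨X, mem_univ _, hZ⟩, hw⟩

lemma tri_FO {d : ℕ} (hd : 1 ≤ d) {p q : K[X]} (h : Rat d p q) {x : Fin 3 → K × K}
    (hx : ∀ i, x i ≠ 0)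
    (hT : (∀ i, wd (bK d p q (x i)) (x i) = 0) ∨
      (wd (bK d p q (x 0)) (x 0) = 0 ∧ wd (bK d p q (x 1)) (x 0) = 0 ∧
        wd (bK d p q (x 2)) (x 1) = 0)) (i : Fin 3) : FO d p q (x i) := by
  rcases hT with hT | ⟨h0, h1, h2⟩
  · exact ⟨0, 1, one_pos, wd_symm (hT i)⟩
  · have e0 : FO d p q (x 0) := ⟨0, 1, one_pos, wd_symm h0⟩
    have k1 : wd (bK d p q (bK d p q (x 1))) (x 0) = 0 :=
      wd_trans (bK_nz hd h (hx 0)) (wd_bK (hx 0) h1) h0
    have e1 : FO d p q (x 1) := by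
      refine ⟨1, 2, by norm_num, ?_⟩
      exact wd_symm (wd_trans (hx 0) k1 (wd_symm h1))
    have e2 : FO d p q (x 2) := by
      refine ⟨2, 3, by norm_num, ?_⟩
      have g1 : wd (bK d p q (bK d p q (x 2))) (x 0) = 0 :=
        wd_trans (bK_nz hd h (hx 1)) (wd_bK (hx 1) h2) h1
      have g2 : wd (bK d p q (bK d p q (bK d p q (x 2)))) (x 0) = 0 :=
        wd_trans (bK_nz hd h (hx 0)) (wd_bK (hx 0) g1) h0
      exact wd_symm (wd_trans (hx 0) g2 (wd_symm g1))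
    fin_cases i
    · exact e0
    · exact e1
    · exact e2

/-- a general integer -/
lemma gen [CharZero K] (G : K[X]) (hG : G ≠ 0) : ∃ n : ℕ, 2 ≤ n ∧ G.eval (1 - (n : K)) ≠ 0 := by
  by_contra hcon
  push Not at hcon
  apply hG
  apply Polynomial.eq_zero_of_infinite_isRoot
  have hinj : Function.Injective (fun n : ℕ => (1 - ((n + 2 : ℕ) : K))) := by
    intro a b hab
    have : ((a + 2 : ℕ) : K) = ((b + 2 : ℕ) : K) := by
      have := hab
      simp only at this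
      linear_combination -this
    have := Nat.cast_injective this
    omega
  refine (Set.infinite_range_of_injective hinj).mono ?_
  rintro x ⟨n, rfl⟩
  exact hcon (n + 2) (by omega)

theorem stepB (hTHU : S_THU.{u}) (hDRV : S_DRV.{u}) (hCNJ : S_CNJ.{u}) (hTRI : S_TRI.{u})
    (Ω : Type u) [Field Ω] [CharZero Ω] [IsAlgClosed Ω] (κ : Subfield Ω) [IsAlgClosed κ]
    (d : ℕ) (hd : 2 ≤ d) (p q : Polynomial Ω) (hpq : Rat d p q) (hCF : CF d p q) :
    ConjConst κ p q d ∨ Lat d p q := by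
  classical
  have hd1 : 1 ≤ d := by omega
  -- coordinates
  obtain ⟨x, hx, hxx, hT⟩ := hTRI Ω d hd p q hpq
  obtain ⟨a, b, c, e, s0, s1, s2, hdet, hs0, hs1, hs2, g0, g1, g2⟩ :=
    three (hxx 0 1 (by decide)) (hxx 0 2 (by decide)) (hxx 1 2 (by decide))
  obtain ⟨hC1, hC2, -⟩ := hCNJ Ω d hd p q hpq
  obtain ⟨p₁, q₁, hpq₁, hcj₁⟩ := hC1 a b c e hdet
  obtain ⟨-, hJ₁, hL₁, -⟩ := hC2 a b c e p₁ q₁ hpq₁ hcj₁
  have hCF₁ : CF d p₁ q₁ := CF_CJ hcj₁ hJ₁ hCF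
  have hFO : ∀ (s : Ω) (i : Fin 3) (v : Ω × Ω), s ≠ 0 → lm a b c e (x i) = s • v →
      FO d p₁ q₁ v := by
    intro s i v hs hv
    have h1 := FO_CJ hcj₁ (tri_FO hd1 hpq hx hT i)
    rw [hv] at h1
    have h2 := FO_smul s⁻¹ h1
    rwa [smul_smul, inv_mul_cancel₀ hs, one_smul] at h2
  -- the invariant set
  obtain ⟨S, hCS, hS0, hSinv⟩ := orbs hd1 hpq₁
    ((Wr p₁ q₁).roots.toFinset.image (fun r => ((r, 1) : Ω × Ω)) ∪
      {((0, 1) : Ω × Ω), ((1, 1) : Ω × Ω), ((1, 0) : Ω × Ω)}) (by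
    intro X hX
    rcases mem_union.mp hX with hX | hX
    · obtain ⟨r, hr, rfl⟩ := mem_image.mp hX
      have hne : ((r, 1) : Ω × Ω) ≠ 0 := fun h => one_ne_zero (congrArg Prod.snd h)
      refine ⟨hne, hCF₁ _ hne ?_⟩
      rw [Jv_one hd hpq₁]
      exact isRoot_of_mem_roots (Multiset.mem_toFinset.mp hr)
    · simp only [mem_insert, mem_singleton] at hX
      rcases hX with rfl | rfl | rfl
      · exact ⟨fun h => one_ne_zero (congrArg Prod.snd h), hFO s0 0 _ hs0 g0⟩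
      · exact ⟨fun h => one_ne_zero (congrArg Prod.snd h), hFO s1 1 _ hs1 g1⟩
      · exact ⟨fun h => one_ne_zero (congrArg Prod.fst h), hFO s2 2 _ hs2 g2⟩)
  have m0 : ((0, 1) : Ω × Ω) ∈ S := hCS (mem_union_right _ (by simp))
  have m1 : ((1, 1) : Ω × Ω) ∈ S := hCS (mem_union_right _ (by simp))
  have m2 : ((1, 0) : Ω × Ω) ∈ S := hCS (mem_union_right _ (by simp))
  have hScrit : ∀ Y : Ω × Ω, Jv d p₁ q₁ Y = 0 → ∃ X ∈ S, wd Y X = 0 := by
    intro Y hJY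
    rcases Jv_zero hd hpq₁ hJY with h | ⟨h, hr, hY⟩
    · refine ⟨_, m2, ?_⟩
      unfold wd
      simp [h]
    · refine ⟨((Y.1 / Y.2, 1) : Ω × Ω), hCS (mem_union_left _ (mem_image.mpr ⟨Y.1 / Y.2, ?_, rfl⟩)), ?_⟩
      · rw [Multiset.mem_toFinset, mem_roots (Wr_ne hd hpq₁)]
        exact hr
      · rw [hY, wd_smul_left]
        unfold wd
        simp [h]
  -- a general point
  have hp₁ : p₁.natDegree ≤ d := hpq₁.2 ▸ le_max_left _ _
  have hq₁ : q₁.natDegree ≤ d := hpq₁.2 ▸ le_max_right _ _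
  have hG1 : ∀ X ∈ S, (C X.2 * Polynomial.X - C X.1 : Polynomial Ω) ≠ 0 := by
    intro Y hY h0
    have e1 := congrArg (fun g => Polynomial.coeff g 1) h0
    have e0 := congrArg (fun g => Polynomial.coeff g 0) h0
    simp at e1 e0
    exact hS0 Y hY (Prod.ext e0 e1)
  have hG2 : ∀ X ∈ S, (C X.2 * p₁ - C X.1 * q₁ : Polynomial Ω) ≠ 0 := by
    intro Y hY h0
    have h1 : C Y.2 * p₁ = C Y.1 * q₁ := sub_eq_zero.mp h0
    have hne : Y.2 ≠ 0 ∨ Y.1 ≠ 0 := by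
      by_contra hcon
      push Not at hcon
      exact hS0 Y hY (Prod.ext hcon.2 hcon.1)
    -- then `p₁` or `q₁` divides the other and is a unit
    have hbad : ∀ (f g : Polynomial Ω) (α β : Ω), IsCoprime f g → max f.natDegree g.natDegree = d →
        α ≠ 0 → C α * f = C β * g → False := by
      intro f g α β hfg hm hα hh
      have hdiv : g ∣ f := by
        have h2 : C α * f = g * C β := by rw [hh, mul_comm]
        have h3 : g ∣ C α * f := ⟨C β, h2⟩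
        have hu : IsUnit (C α : Polynomial Ω) := isUnit_C.mpr (isUnit_iff_ne_zero.mpr hα)
        exact (IsUnit.dvd_mul_left hu).mp h3
      have hgu : IsUnit g := hfg.symm.isUnit_of_dvd' dvd_rfl hdiv
      have hg0 : g.natDegree = 0 := natDegree_eq_zero_of_isUnit hgu
      have hf0 : f.natDegree = 0 := by
        have : (C α * f).natDegree = f.natDegree := natDegree_C_mul hα
        rw [← this, hh]
        have := natDegree_C_mul_le β g
        omega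
      rw [hf0, hg0] at hm
      simp at hm
      omega
    rcases hne with hne | hne
    · exact hbad p₁ q₁ Y.2 Y.1 hpq₁.1 hpq₁.2 hne h1
    · exact hbad q₁ p₁ Y.1 Y.2 hpq₁.1.symm (by rw [max_comm]; exact hpq₁.2) hne h1.symm
  have hG3 : (p₁ - Polynomial.X * q₁ : Polynomial Ω) ≠ 0 := by
    intro h0
    have h1 : p₁ = Polynomial.X * q₁ := sub_eq_zero.mp h0
    have hdiv : q₁ ∣ p₁ := ⟨Polynomial.X, by rw [h1, mul_comm]⟩
    have hqu : IsUnit q₁ := hpq₁.1.symm.isUnit_of_dvd' dvd_rfl hdiv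
    have hq0 : q₁.natDegree = 0 := natDegree_eq_zero_of_isUnit hqu
    have hpd : p₁.natDegree ≤ 1 := by
      rw [h1]
      refine natDegree_mul_le.trans ?_
      rw [natDegree_X, hq0]
    have := hpq₁.2
    rw [hq0] at this
    simp at this
    omega
  obtain ⟨n, hn2, hn⟩ := gen ((∏ X ∈ S, (C X.2 * Polynomial.X - C X.1 : Polynomial Ω)) *
    (∏ X ∈ S, (C X.2 * p₁ - C X.1 * q₁ : Polynomial Ω)) * (p₁ - Polynomial.X * q₁))
    (mul_ne_zero (mul_ne_zero (prod_ne_zero_iff.mpr hG1) (prod_ne_zero_iff.mpr hG2)) hG3)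
  rw [eval_mul, eval_mul, eval_prod, eval_prod] at hn
  have hn1 := left_ne_zero_of_mul (left_ne_zero_of_mul hn)
  have hn2' := right_ne_zero_of_mul (left_ne_zero_of_mul hn)
  have hn3 := right_ne_zero_of_mul hn
  rw [prod_ne_zero_iff] at hn1 hn2'
  obtain ⟨y, hy⟩ : ∃ y : Ω × Ω, y = (1 - (n : Ω), 1) := ⟨_, rfl⟩
  have hy0 : y ≠ 0 := by
    rw [hy]
    exact fun h => one_ne_zero (congrArg Prod.snd h)
  have hy1 : bK d p₁ q₁ y = (p₁.eval (1 - (n : Ω)), q₁.eval (1 - (n : Ω))) := by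
    rw [hy]
    unfold bK
    rw [hev_one _ _ hp₁, hev_one _ _ hq₁]
  have c1 : ∀ X ∈ S, wd y X ≠ 0 := by
    intro X hX h0
    apply hn1 X hX
    rw [eval_sub, eval_mul, eval_C, eval_C, eval_X]
    rw [hy] at h0
    unfold wd at h0
    linear_combination h0
  have c2 : ∀ X ∈ S, wd (bK d p₁ q₁ y) X ≠ 0 := by
    intro X hX h0
    apply hn2' X hX
    rw [eval_sub, eval_mul, eval_C, eval_mul, eval_C]
    rw [hy1] at h0
    unfold wd at h0
    linear_combination h0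
  have c3 : wd (bK d p₁ q₁ y) y ≠ 0 := by
    intro h0
    apply hn3
    rw [eval_sub, eval_mul, eval_X]
    rw [hy1, hy] at h0
    unfold wd at h0
    linear_combination h0
  have hnn : (n : Ω) ≠ 0 := Nat.cast_ne_zero.mpr (by omega)
  have hn11 : (n : Ω) - 1 ≠ 0 := by
    have : (n : Ω) ≠ ((1 : ℕ) : Ω) := fun h => by
      have := Nat.cast_injective h
      omega
    rw [Nat.cast_one] at this
    exact sub_ne_zero.mpr this
  -- second change of coordinates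
  obtain ⟨hC1', hC2', -⟩ := hCNJ Ω d hd p₁ q₁ hpq₁
  obtain ⟨p₂, q₂, hpq₂, hcj₂⟩ := hC1' (n : Ω) 0 1 ((n : Ω) - 1)
    (by rw [zero_mul, sub_zero]; exact mul_ne_zero hnn hn11)
  have hNy : lm (n : Ω) 0 1 ((n : Ω) - 1) y = ((n : Ω) * (1 - n), 0) := by
    rw [hy]
    unfold lm
    ext
    · simp only; ring
    · simp only; ring
  have hν : (n : Ω) * (1 - n) ≠ 0 := mul_ne_zero hnn (by
    rw [← neg_sub]
    exact neg_ne_zero.mpr hn11)
  have hl : q₂.coeff d ≠ 0 := by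
    intro h0
    have h1 := hcj₂.2 y
    rw [hNy] at h1
    have h2 := congrArg Prod.snd h1
    simp only [bK, lm] at h2
    rw [hev_zero, h0, zero_mul] at h2
    apply c3
    rw [hy1, hy]
    unfold wd
    rw [hy, hev_one _ _ hp₁, hev_one _ _ hq₁] at h2
    linear_combination -h2
  obtain ⟨t, ht, hcj₃⟩ := CJ_scale hd hcj₂ (inv_ne_zero hl)
  obtain ⟨u, hu⟩ : ∃ u, u = C (q₂.coeff d)⁻¹ * p₂ := ⟨_, rfl⟩
  obtain ⟨w, hw⟩ : ∃ w, w = C (q₂.coeff d)⁻¹ * q₂ := ⟨_, rfl⟩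
  have huw : Rat d u w := by
    rw [hu, hw]
    exact Rat_C hpq₂ (inv_ne_zero hl)
  rw [← hu, ← hw] at hcj₃
  have hwd1 : w.coeff d = 1 := by
    rw [hw, coeff_C_mul, inv_mul_cancel₀ hl]
  have hup : u.natDegree ≤ d := huw.2 ▸ le_max_left _ _
  have hwp : w.natDegree ≤ d := huw.2 ▸ le_max_right _ _
  have hwd : w.natDegree = d :=
    le_antisymm hwp (le_natDegree_of_ne_zero (by rw [hwd1]; exact one_ne_zero))
  have hmon : w.Monic := by
    unfold Polynomial.Monic Polynomial.leadingCoeff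
    rw [hwd, hwd1]
  obtain ⟨N, hN⟩ : ∃ N : Ω × Ω → Ω × Ω,
      N = lm (t * (n : Ω)) (t * 0) (t * 1) (t * ((n : Ω) - 1)) := ⟨_, rfl⟩
  obtain ⟨-, hJ₃, hL₃, -⟩ := hC2' _ _ _ _ u w huw hcj₃
  have hcN : ∀ Z, bK d u w (N Z) = N (bK d p₁ q₁ Z) := by
    intro Z
    rw [hN]
    exact hcj₃.2 Z
  have hJN : ∀ Z, Jv d u w (N Z) = Jv d p₁ q₁ Z := by
    intro Z
    rw [hN]
    exact hJ₃ Z
  obtain ⟨D, hD⟩ : ∃ D, D = t * (n : Ω) * (t * ((n : Ω) - 1)) - t * 0 * (t * 1) := ⟨_, rfl⟩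
  have hD0 : D ≠ 0 := hD ▸ hcj₃.1
  have hwN : ∀ Z W, Pool.Agent.W277.UH.wd (N Z) (N W) = D * Pool.Agent.W277.UH.wd Z W := by
    intro Z W
    rw [hN, wd_lm, hD]
  have hNs : ∀ (s : Ω) Z, N (s • Z) = s • N Z := by
    intro s Z
    rw [hN, lm_smul]
  have hN2 : ∀ Z, (N Z).2 = -(t * Pool.Agent.W277.UH.wd y Z) := by
    intro Z
    rw [hN, hy]
    unfold lm wd
    ring
  have hNX : ∀ X ∈ S, (N X).2 ≠ 0 := by
    intro X hX
    rw [hN2]
    exact neg_ne_zero.mpr (mul_ne_zero ht (c1 X hX))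
  have hNyy : N y = (t * ((n : Ω) * (1 - n))) • ((1, 0) : Ω × Ω) := by
    rw [hN, hy]
    unfold lm
    ext
    · simp only [Prod.smul_fst, smul_eq_mul]; ring
    · simp only [Prod.smul_snd, smul_eq_mul]; ring
  have hν' : t * ((n : Ω) * (1 - n)) ≠ 0 := mul_ne_zero ht hν
  obtain ⟨P, hP⟩ : ∃ P : Finset Ω, P = S.image fun X => (N X).1 / (N X).2 := ⟨_, rfl⟩
  have hmemP : ∀ (x : Ω) X, X ∈ S → x * (N X).2 = (N X).1 → x ∈ P := by
    intro x X hX h
    rw [hP, mem_image]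
    refine ⟨X, hX, ?_⟩
    rw [← h]
    field_simp [hNX X hX]
  have hinv : ∀ x ∈ P, w.eval x ≠ 0 ∧ u.eval x / w.eval x ∈ P := by
    intro x hx
    rw [hP, mem_image] at hx
    obtain ⟨X, hX, rfl⟩ := hx
    obtain ⟨Z, hZ, hXZ⟩ := hSinv X hX
    obtain ⟨τ, hτ⟩ := (wd_zero_iff (hS0 Z hZ)).mp hXZ
    have hτ0 : τ ≠ 0 := by
      rintro rfl
      rw [zero_smul] at hτ
      exact bK_nz hd1 hpq₁ (hS0 X hX) hτ
    obtain ⟨x, hx⟩ : ∃ x, x = (N X).1 / (N X).2 := ⟨_, rfl⟩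
    have e1 : ((x, 1) : Ω × Ω) = ((N X).2)⁻¹ • N X := by
      ext
      · simp only [Prod.smul_fst, smul_eq_mul]
        rw [hx]
        field_simp
      · simp only [Prod.smul_snd, smul_eq_mul]
        rw [inv_mul_cancel₀ (hNX X hX)]
    have e2 : bK d u w (x, 1) = ((((N X).2)⁻¹) ^ d * τ) • N Z := by
      rw [e1, bK_smul, hcN, hτ, hNs, smul_smul]
    have e3 : bK d u w (x, 1) = (u.eval x, w.eval x) := by
      unfold bK
      rw [hev_one _ _ hup, hev_one _ _ hwp]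
    rw [e3] at e2
    have e4 := congrArg Prod.fst e2
    have e5 := congrArg Prod.snd e2
    simp only [Prod.smul_fst, Prod.smul_snd, smul_eq_mul] at e4 e5
    have hσ : (((N X).2)⁻¹) ^ d * τ ≠ 0 :=
      mul_ne_zero (pow_ne_zero _ (inv_ne_zero (hNX X hX))) hτ0
    rw [← hx]
    have hwx : w.eval x ≠ 0 := by
      rw [e5]
      exact mul_ne_zero hσ (hNX Z hZ)
    refine ⟨hwx, ?_⟩
    refine hmemP _ Z hZ ?_
    rw [div_mul_eq_mul_div, div_eq_iff hwx, e4, e5]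
    ring
  have hcr : ∀ x, (Wr u w).eval x = 0 → x ∈ P := by
    intro x hx
    obtain ⟨Y, hY⟩ : ∃ Y, N Y = (x, 1) := ⟨_, by
      rw [hN]
      exact lm_inv hcj₃.1 (x, 1)⟩
    have h1 : Jv d u w (N Y) = 0 := by
      rw [hY, Jv_one hd huw]
      exact hx
    rw [hJN] at h1
    obtain ⟨X, hX, hYX⟩ := hScrit Y h1
    refine hmemP x X hX ?_
    have h2 := hwN Y X
    rw [hYX, mul_zero, hY] at h2
    unfold Pool.Agent.W277.UH.wd at h2
    linear_combination h2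
  have hPcf : Pcf d u w P := by
    refine ⟨hd, hup, hwd, hmon, huw.1, ?_, hinv, fun x hx => hinv x (hcr x hx), ?_⟩
    · refine le_antisymm (Wr_deg hd huw) (le_natDegree_of_ne_zero ?_)
      intro h0
      have h1 : Jv d u w (N y) = 0 := by
        rw [hNyy, Jv_smul]
        unfold Jv
        rw [hev_zero, h0, zero_mul, mul_zero]
      rw [hJN] at h1
      obtain ⟨X, hX, hyX⟩ := hScrit y h1
      exact c1 X hX hyX
    · intro hmem
      rw [hP, mem_image] at hmem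
      obtain ⟨X, hX, hXe⟩ := hmem
      apply c2 X hX
      have h1 := hcN y
      rw [hNyy, bK_smul] at h1
      have h2 : bK d u w (1, 0) = (u.coeff d, 1) := by
        unfold bK
        rw [hev_zero, hev_zero, hwd1]
        simp
      rw [h2] at h1
      have h3 := hwN (bK d p₁ q₁ y) X
      rw [← h1, wd_smul_left] at h3
      have h4 : Pool.Agent.W277.UH.wd ((u.coeff d, 1) : Ω × Ω) (N X) = 0 := by
        unfold Pool.Agent.W277.UH.wd
        rw [← hXe]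
        field_simp [hNX X hX]
        ring
      rw [h4, mul_zero] at h3
      exact (mul_eq_zero.mp h3.symm).resolve_left hD0
  have z0 : (0 : Ω) ∈ P := by
    refine hmemP 0 _ m0 ?_
    rw [hN]
    unfold lm
    simp
  have z1 : (1 : Ω) ∈ P := by
    refine hmemP 1 _ m1 ?_
    rw [hN]
    unfold lm
    simp only
    ring
  have z2 : (n : Ω) ∈ P := by
    refine hmemP n _ m2 ?_
    rw [hN]
    unfold lm
    simp only
    ring
  rcases hTHU Ω d u w P hPcf 0 z0 1 z1 n z2 zero_ne_one hnn.symm (sub_ne_zero.mp hn11).symm with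
    hLat | hder
  · right
    exact hL₁.mpr (hL₃.mpr hLat)
  · left
    have hcoef : ∀ i, u.coeff i ∈ κ ∧ w.coeff i ∈ κ := by
      have haux : ∀ f : Ω, (∀ D : Derivation ℤ Ω Ω, (∀ c ∈ κ, D c = 0) → D f = 0) → f ∈ κ := by
        intro f hf
        by_contra hfk
        obtain ⟨D, hDk, hDf⟩ := hDRV Ω κ f hfk
        exact hDf (hf D hDk)
      intro i
      refine ⟨haux _ fun D hDk => ?_, haux _ fun D hDk => ?_⟩
      · exact (hder D (hDk 0 κ.zero_mem) (hDk 1 κ.one_mem) (hDk _ (natCast_mem κ n)) i).1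
      · exact (hder D (hDk 0 κ.zero_mem) (hDk 1 κ.one_mem) (hDk _ (natCast_mem κ n)) i).2
    obtain ⟨-, -, -, hfin⟩ := hC2 _ _ _ _ u w huw (CJ_comp hcj₁ hcj₃)
    refine hfin κ 1 one_ne_zero fun i => ?_
    rw [one_mul, one_mul]
    exact hcoef i

end Pool.Agent.Q103.OP.McB
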