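import Pool.Agent.Q103.OP.Defs

/-!
# Project OP: further statements
-/

set_option autoImplicit false

namespace Pool.Agent.Q103.OP

open Polynomial Pool.Agent.Y706.BI

/-- FLD: a family which is isotrivial in every variable is isotrivial -/
def S_FLD : Prop := ∀ (k : Type) [Field k] [CharZero k] (m d : ℕ), 2 ≤ d →
  ∀ P Q : (MvPolynomial (Fin m) k)[X], Rat d (generic P) (generic Q) →
  (∀ i : Fin m, IsoAlg (others k i) (genBar P) (genBar Q) d) → IsoAlg k (genBar P) (genBar Q) d

end Pool.Agent.Q103.OP
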