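import Pool.Agent.Q208.OP.Tool
import Pool.Agent.Q129.OP.TRI
import Pool.Agent.Q103.OP.Bas
import Pool.Agent.Q176.OP.MUL

/-!
# Project OP: symmetric products of a rational map
-/

set_option autoImplicit false
set_option linter.unusedSectionVars false

namespace Pool.Agent.Q103.OP.Sym

open Pool.Agent.Q103.OP Polynomial Finset
open Pool.Agent.W277.UH
open Pool.Agent.Y706.CH (bK pt)

section

variable {Ω : Type*} [Field Ω]

/-- the form with the given zeros -/
noncomputable def Hv {N : ℕ} (v : Fin N → Ω × Ω) : Polynomial Ω := ∏ i, (C (v i).2 * X - C (v i).1)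

/-- the point of the symmetric product -/
noncomputable def symm {N : ℕ} (v : Fin N → Ω × Ω) : Fin (N + 1) → Ω := fun j => (Hv v).coeff j

lemma lin_hev (Y Z : Ω × Ω) : hev 1 (C Y.2 * X - C Y.1) Z = wd Z Y := by
  have h : (C Y.2 * X - C Y.1 : Polynomial Ω) = C Y.2 * X + C (-Y.1) := by
    rw [C_neg, sub_eq_add_neg]
  rw [h, Pool.Agent.Q208.OP.hev_fst_snd]
  unfold wd
  ring

lemma Hv_deg {N : ℕ} (v : Fin N → Ω × Ω) : (Hv v).natDegree ≤ N := by
  unfold Hv
  refine (natDegree_prod_le _ _).trans ?_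
  refine (Finset.sum_le_card_nsmul _ _ 1 fun i _ => ?_).trans ?_
  · refine (natDegree_sub_le _ _).trans ?_
    rw [natDegree_C]
    simp only [zero_le, sup_of_le_left]
    exact (natDegree_C_mul_le _ _).trans natDegree_X_le
  · simp

lemma Hv_hev {N : ℕ} (v : Fin N → Ω × Ω) (Z : Ω × Ω) : hev N (Hv v) Z = ∏ i, wd Z (v i) := by
  have key : ∀ s : Finset (Fin N), (∏ i ∈ s, (C (v i).2 * X - C (v i).1 : Polynomial Ω)).natDegree ≤ s.card ∧
      hev s.card (∏ i ∈ s, (C (v i).2 * X - C (v i).1 : Polynomial Ω)) Z = ∏ i ∈ s, wd Z (v i) := by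
    classical
    intro s
    induction s using Finset.induction_on with
    | empty =>
      refine ⟨by simp, ?_⟩
      rw [Finset.prod_empty, Finset.prod_empty]
      unfold hev
      simp
    | insert a s ha ih =>
      have h1 : (C (v a).2 * X - C (v a).1 : Polynomial Ω).natDegree ≤ 1 := by
        refine (natDegree_sub_le _ _).trans ?_
        rw [natDegree_C]
        simp only [zero_le, sup_of_le_left]
        exact (natDegree_C_mul_le _ _).trans natDegree_X_le
      rw [Finset.prod_insert ha, Finset.prod_insert ha, card_insert_of_notMem ha, add_comm s.card 1]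
      refine ⟨natDegree_mul_le.trans (Nat.add_le_add h1 ih.1), ?_⟩
      rw [Pool.Agent.Q208.OP.hev_mul' _ _ _ _ h1 ih.1, lin_hev, ih.2]
  have h := (key univ).2
  rw [Finset.card_univ, Fintype.card_fin] at h
  exact h

lemma symm_smul {N : ℕ} (t : Fin N → Ω) (w : Fin N → Ω × Ω) :
    symm (fun i => t i • w i) = (∏ i, t i) • symm w := by
  have h : Hv (fun i => t i • w i) = C (∏ i, t i) * Hv w := by
    unfold Hv
    rw [map_prod, ← Finset.prod_mul_distrib]
    refine Finset.prod_congr rfl fun i _ => ?_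
    simp only [Prod.smul_snd, Prod.smul_fst, smul_eq_mul, C_mul]
    ring
  funext j
  unfold symm
  rw [h, coeff_C_mul]
  rfl

/-- points of the projective space are symmetric products -/
lemma of_form [IsAlgClosed Ω] {N : ℕ} (G : Polynomial Ω) (hG0 : G ≠ 0) (hG : G.natDegree ≤ N) :
    ∃ (c : Ω) (η : Fin N → Ω × Ω), c ≠ 0 ∧ (∀ l, η l ≠ 0) ∧ G = C c * Hv η := by
  obtain ⟨c, η, hc, hη, h⟩ := Pool.Agent.Q129.OP.form_factor N G hG0 hG
  refine ⟨c, η, hc, hη, ?_⟩
  apply Pool.Agent.Q208.OP.hev_ext N _ _ hG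
  · exact (natDegree_C_mul_le _ _).trans (Hv_deg η)
  · intro z
    rw [h, Pool.Agent.Q208.OP.hev_C_mul', Hv_hev]

lemma symm_inj [Infinite Ω] {N : ℕ} {u w : Fin N → Ω × Ω} {c : Ω} (h : symm u = c • symm w)
    (l : Fin N) : ∃ i, wd (w l) (u i) = 0 := by
  have h1 : Hv u = C c * Hv w := by
    ext j
    rw [coeff_C_mul]
    by_cases hj : j < N + 1
    · exact congrFun h ⟨j, hj⟩
    · rw [coeff_eq_zero_of_natDegree_lt ((Hv_deg u).trans_lt (by omega)),
        coeff_eq_zero_of_natDegree_lt ((Hv_deg w).trans_lt (by omega)), mul_zero]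
  have h2 : hev N (Hv u) (w l) = 0 := by
    rw [h1, Pool.Agent.Q208.OP.hev_C_mul', Hv_hev, Finset.prod_eq_zero (mem_univ l), mul_zero]
    unfold wd
    ring
  rw [Hv_hev, Finset.prod_eq_zero_iff] at h2
  obtain ⟨i, -, hi⟩ := h2
  exact ⟨i, hi⟩

/-- the vector of a point -/
def vec : Option Ω → Ω × Ω
  | some x => (x, 1)
  | none => (1, 0)

lemma vec_ne (z : Option Ω) : vec z ≠ 0 := by
  cases z with
  | none => intro h; exact one_ne_zero (congrArg Prod.fst h)
  | some x => intro h; exact one_ne_zero (congrArg Prod.snd h)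

lemma pt_vec (z : Option Ω) : pt (vec z) = z := by
  unfold pt
  cases z with
  | none => simp [vec]
  | some x => simp [vec]

lemma vec_pt {Y : Ω × Ω} (hY : Y ≠ 0) : ∃ t : Ω, t ≠ 0 ∧ Y = t • vec (pt Y) := by
  unfold pt
  by_cases h : Y.2 = 0
  · rw [if_pos h]
    refine ⟨Y.1, fun h1 => hY (Prod.ext h1 h), ?_⟩
    ext
    · simp [vec]
    · simp [vec, h]
  · rw [if_neg h]
    refine ⟨Y.2, h, ?_⟩
    ext
    · simp only [vec, Prod.smul_fst, smul_eq_mul]
      field_simp
    · simp [vec]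

lemma pt_of_wd {Y Z : Ω × Ω} (hY : Y ≠ 0) (hZ : Z ≠ 0) (h : wd Y Z = 0) : pt Y = pt Z := by
  unfold wd at h
  unfold pt
  by_cases h1 : Y.2 = 0
  · rw [if_pos h1]
    have h2 : Y.1 ≠ 0 := fun h2 => hY (Prod.ext h2 h1)
    rw [h1, zero_mul, sub_zero] at h
    rw [if_pos ((mul_eq_zero.mp h).resolve_left h2)]
  · rw [if_neg h1]
    by_cases h2 : Z.2 = 0
    · exfalso
      rw [h2, mul_zero, zero_sub, neg_eq_zero] at h
      exact hZ (Prod.ext ((mul_eq_zero.mp h).resolve_left h1) h2)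
    · rw [if_neg h2]
      congr 1
      rw [div_eq_div_iff h1 h2]
      linear_combination h

end

section

variable {k Ω : Type*} [Field k] [Field Ω] [Algebra k Ω] {N : ℕ}

/-- evaluation of forms -/
noncomputable def ev (F : Fin (N + 1) → MvPolynomial (Fin (N + 1)) k) (y : Fin (N + 1) → Ω) :
    Fin (N + 1) → Ω := fun j => MvPolynomial.aeval y (F j)

/-- the endomorphism `F` is the symmetric product of the map `p / q` -/
def SymProd (Ω : Type*) [Field Ω] [Algebra k Ω] (F : Fin (N + 1) → MvPolynomial (Fin (N + 1)) k)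
    (p q : k[X]) (d : ℕ) : Prop :=
  ∀ v : Fin N → Ω × Ω, (∀ i, v i ≠ 0) → ∃ c : Ω, c ≠ 0 ∧ ev F (symm v) =
    c • symm fun i => bK d (p.map (algebraMap k Ω)) (q.map (algebraMap k Ω)) (v i)

lemma iter_symm (hN : 1 ≤ N) {d : ℕ} (hd : 1 ≤ d) {p q : k[X]} (hpq : Rat d p q)
    {F : Fin (N + 1) → MvPolynomial (Fin (N + 1)) k} (hF : SymProd Ω F p q d)
    (s : Fin N → Option Ω) (c : Ω) (hc : c ≠ 0) (n : ℕ) :
    ∃ (w : Fin N → Ω × Ω) (e : Ω), e ≠ 0 ∧ (∀ i, w i ≠ 0) ∧
      (∀ i, pt (w i) = (ratP1 (p.map (algebraMap k Ω)) (q.map (algebraMap k Ω)) d)^[n] (s i)) ∧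
      (ev F)^[n] (c • symm fun i => vec (s i)) = e • symm w := by
  induction n with
  | zero => exact ⟨fun i => vec (s i), c, hc, fun i => vec_ne _, fun i => pt_vec _, rfl⟩
  | succ n ih =>
    obtain ⟨w, e, he, hw, hpt, h⟩ := ih
    have hpq' : Rat d (p.map (algebraMap k Ω)) (q.map (algebraMap k Ω)) :=
      Bas.Rat_mp _ hpq
    obtain ⟨w', hw'⟩ : ∃ w' : Fin N → Ω × Ω,
        w' = fun i => (if i = ⟨0, hN⟩ then e else 1 : Ω) • w i := ⟨_, rfl⟩
    have h1 : symm w' = e • symm w := by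
      rw [hw', symm_smul]
      congr 1
      rw [Finset.prod_ite_eq' univ (⟨0, hN⟩ : Fin N) (fun _ => e)]
      simp
    have hw'0 : ∀ i, w' i ≠ 0 := by
      intro i
      rw [hw']
      simp only
      split
      · exact smul_ne_zero he (hw i)
      · rw [one_smul]
        exact hw i
    have hpt' : ∀ i, pt (w' i) = pt (w i) := by
      intro i
      apply pt_of_wd (hw'0 i) (hw i)
      rw [hw']
      simp only
      rw [wd_smul_left, wd_self, mul_zero]
    obtain ⟨e', he', h2⟩ := hF w' hw'0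
    refine ⟨fun i => bK d (p.map (algebraMap k Ω)) (q.map (algebraMap k Ω)) (w' i), e', he',
      fun i => Bas.bK_nz hd hpq' (hw'0 i), fun i => ?_, ?_⟩
    · rw [Function.iterate_succ_apply', ← hpt i, ← hpt' i]
      exact (Pool.Agent.Y195.CH.t_PT Ω d hd _ _ hpq'.2 hpq'.1 (w' i) (hw'0 i)).2.symm
    · rw [Function.iterate_succ_apply', h, ← h1, h2]


lemma range_fin (g : Option Ω → Option Ω) (s : Fin N → Option Ω) {i j : ℕ} (hij : i < j)
    (h : ∀ l, ∃ l', g^[j] (s l) = g^[i] (s l')) (l : Fin N) :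
    (Set.range fun m : ℕ => g^[m] (s l)).Finite := by
  have h1 : ∀ (n : ℕ) (l : Fin N), ∃ (a : ℕ) (l' : Fin N), a < j ∧ g^[n] (s l) = g^[a] (s l') := by
    intro n
    induction n using Nat.strong_induction_on with
    | _ n ih =>
      intro l
      by_cases hn : n < j
      · exact ⟨n, l, hn, rfl⟩
      · obtain ⟨l', hl'⟩ := h l
        obtain ⟨a, l'', ha, h2⟩ := ih (n - j + i) (by omega) l'
        refine ⟨a, l'', ha, ?_⟩
        rw [← h2, Function.iterate_add_apply, ← hl', ← Function.iterate_add_apply]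
        congr 2
        omega
  refine Set.Finite.subset (Set.finite_range fun x : Fin j × Fin N => g^[(x.1 : ℕ)] (s x.2)) ?_
  rintro _ ⟨m, rfl⟩
  obtain ⟨a, l', ha, h2⟩ := h1 m l
  exact ⟨(⟨a, ha⟩, l'), h2.symm⟩

/-- degrees of roots -/
lemma root_deg {E : IntermediateField k Ω} [FiniteDimensional k E] {B : ℕ}
    (hE : Module.finrank k E ≤ B) {G : Polynomial Ω} (hG0 : G ≠ 0) (hG : G.natDegree ≤ N)
    (hco : ∀ n, G.coeff n ∈ E) {a : Ω} (ha : G.eval a = 0) :
    (minpoly k a).natDegree ≤ B * N := by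
  obtain ⟨g, hg⟩ : ∃ g : Polynomial E, g.map (algebraMap E Ω) = G := by
    apply (Polynomial.mem_lifts _).mp
    rw [Polynomial.lifts_iff_coeff_lifts]
    exact fun n => ⟨⟨G.coeff n, hco n⟩, rfl⟩
  have hg0 : g ≠ 0 := by
    rintro rfl
    rw [Polynomial.map_zero] at hg
    exact hG0 hg.symm
  have hga : aeval a g = 0 := by
    rw [aeval_def, eval₂_eq_eval_map, hg, ha]
  have halg : IsAlgebraic E a := ⟨g, hg0, hga⟩
  have hint : IsIntegral E a := halg.isIntegral
  have h1 : (minpoly E a).natDegree ≤ N := by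
    refine (natDegree_le_of_dvd (minpoly.dvd E a hga) hg0).trans ?_
    rw [← hg, natDegree_map] at hG
    exact hG
  have hfd := IntermediateField.adjoin.finiteDimensional hint
  have h2 : Module.finrank k (IntermediateField.adjoin E {a}) ≤ B * N := by
    rw [← Module.finrank_mul_finrank k E (IntermediateField.adjoin E {a}),
      IntermediateField.adjoin.finrank hint]
    exact Nat.mul_le_mul hE h1
  have hfd' : FiniteDimensional k (IntermediateField.adjoin E {a}) :=
    Module.Finite.trans E (IntermediateField.adjoin E {a})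
  refine le_trans ?_ h2
  have h3 := minpoly.natDegree_le (A := k) (IntermediateField.AdjoinSimple.gen E a)
  have hst : IsScalarTower k (IntermediateField.adjoin E {a}) Ω :=
    IsScalarTower.of_algebraMap_eq fun x => rfl
  have h4 : minpoly k (IntermediateField.AdjoinSimple.gen E a) = minpoly k a := by
    have := minpoly.algebraMap_eq (A := k) (B := IntermediateField.adjoin E {a}) (B' := Ω)
      (algebraMap (IntermediateField.adjoin E {a}) Ω).injective
      (IntermediateField.AdjoinSimple.gen E a)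
    rw [← this]
    rfl
  rw [h4] at h3
  exact h3

/-- preperiodic points of an endomorphism of the projective space -/
def PreN (F : Fin (N + 1) → MvPolynomial (Fin (N + 1)) k) (y : Fin (N + 1) → Ω) : Prop :=
  ∃ i j : ℕ, i < j ∧ ∃ c : Ω, c ≠ 0 ∧ (ev F)^[i] y = c • (ev F)^[j] y

/-- points of degree at most `B` -/
def DegN (k : Type*) {Ω : Type*} [Field k] [Field Ω] [Algebra k Ω] {N : ℕ} (y : Fin (N + 1) → Ω)
    (B : ℕ) : Prop :=
  ∃ E : IntermediateField k Ω, FiniteDimensional k E ∧ Module.finrank k E ≤ B ∧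
    ∃ c : Ω, c ≠ 0 ∧ ∀ j, c * y j ∈ E

theorem sym_count [IsAlgClosed Ω] (hN : 1 ≤ N) {d : ℕ} (hd : 1 ≤ d) {p q : k[X]}
    (hpq : Rat d p q) {F : Fin (N + 1) → MvPolynomial (Fin (N + 1)) k} (hF : SymProd Ω F p q d)
    (B M : ℕ) (hM : {z : Option Ω | (Set.range fun m : ℕ => (ratP1 (p.map (algebraMap k Ω))
      (q.map (algebraMap k Ω)) d)^[m] z).Finite ∧
      ∀ x, z = some x → (minpoly k x).natDegree ≤ B * N}.encard ≤ (M : ℕ∞)) :
    {z : Projectivization Ω (Fin (N + 1) → Ω) | PreN F z.rep ∧ DegN k z.rep B}.encard ≤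
      ((M ^ N : ℕ) : ℕ∞) := by
  classical
  obtain ⟨T, hT⟩ : ∃ T : Set (Option Ω), T = {z : Option Ω | (Set.range fun m : ℕ =>
      (ratP1 (p.map (algebraMap k Ω)) (q.map (algebraMap k Ω)) d)^[m] z).Finite ∧
      ∀ x, z = some x → (minpoly k x).natDegree ≤ B * N} := ⟨_, rfl⟩
  rw [← hT] at hM
  have hTfin : T.Finite := Set.finite_of_encard_le_coe hM
  obtain ⟨T', hT'⟩ : ∃ T' : Finset (Option Ω), T' = hTfin.toFinset := ⟨_, rfl⟩
  have hTc : T'.card ≤ M := by
    have h1 : T.encard = (T'.card : ℕ∞) := by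
      rw [hT', ← Set.encard_coe_eq_coe_finsetCard, Set.Finite.coe_toFinset]
    rw [h1] at hM
    exact_mod_cast hM
  obtain ⟨Φ, hΦ⟩ : ∃ Φ : (Fin N → Option Ω) → Fin (N + 1) → Ω,
    Φ = fun s => symm fun i => vec (s i) := ⟨_, rfl⟩
  -- the image
  have himg : ∀ z ∈ {z : Projectivization Ω (Fin (N + 1) → Ω) | PreN F z.rep ∧ DegN k z.rep B},
      ∃ s ∈ Fintype.piFinset fun _ : Fin N => T', ∃ c : Ω, c ≠ 0 ∧ z.rep = c • Φ s := by
    rintro z ⟨⟨i, j, hij, c₀, hc₀, hpre⟩, E, hEfd, hEB, c₁, hc₁, hco⟩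
    obtain ⟨G, hG⟩ : ∃ G : Polynomial Ω, G = ∑ l : Fin (N + 1), monomial (l : ℕ) (c₁ * z.rep l) :=
      ⟨_, rfl⟩
    have hGc : ∀ l : Fin (N + 1), G.coeff l = c₁ * z.rep l := by
      intro l
      rw [hG, finsetSum_coeff, Finset.sum_eq_single l]
      · rw [coeff_monomial, if_pos rfl]
      · intro b _ hb
        rw [coeff_monomial, if_neg (fun h => hb (Fin.ext h))]
      · intro h
        exact absurd (mem_univ l) h
    have hGd : G.natDegree ≤ N := by
      rw [hG]
      apply natDegree_sum_le_of_forall_le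
      intro l _
      refine (natDegree_monomial_le _).trans ?_
      omega
    have hGE : ∀ n, G.coeff n ∈ E := by
      intro n
      by_cases hn : n < N + 1
      · have := hGc ⟨n, hn⟩
        simp only at this
        rw [this]
        exact hco _
      · rw [coeff_eq_zero_of_natDegree_lt (by omega)]
        exact E.zero_mem
    have hG0 : G ≠ 0 := by
      intro h0
      apply z.rep_nonzero
      funext l
      have h1 := hGc l
      rw [h0, coeff_zero] at h1
      exact (mul_eq_zero.mp h1.symm).resolve_left hc₁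
    obtain ⟨c₂, η, hc₂, hη, hGη⟩ := of_form G hG0 hGd
    choose t ht hηt using fun l => vec_pt (hη l)
    have hrep : z.rep = (c₁⁻¹ * (c₂ * ∏ l, t l)) • Φ fun l => pt (η l) := by
      have h1 : symm η = (∏ l, t l) • symm fun l => vec (pt (η l)) := by
        rw [← symm_smul]
        congr 1
        funext l
        exact hηt l
      funext l
      have h2 := hGc l
      rw [hGη, coeff_C_mul] at h2
      have h3 : (Hv η).coeff l = symm η l := rfl
      rw [h3, h1] at h2
      rw [hΦ]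
      simp only [Pi.smul_apply, smul_eq_mul] at h2 ⊢
      field_simp
      linear_combination -h2
    have hcne : c₁⁻¹ * (c₂ * ∏ l, t l) ≠ 0 := mul_ne_zero (inv_ne_zero hc₁)
      (mul_ne_zero hc₂ (Finset.prod_ne_zero_iff.mpr fun l _ => ht l))
    refine ⟨fun l => pt (η l), ?_, _, hcne, hrep⟩
    rw [Fintype.mem_piFinset]
    -- preperiodicity
    have hper : ∀ l, (Set.range fun m : ℕ => (ratP1 (p.map (algebraMap k Ω))
        (q.map (algebraMap k Ω)) d)^[m] (pt (η l))).Finite := by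
      intro l
      obtain ⟨w₁, e₁, he₁, hw₁, hp₁, hi₁⟩ := iter_symm (Ω := Ω) hN hd hpq hF
        (fun l => pt (η l)) _ hcne i
      obtain ⟨w₂, e₂, he₂, hw₂, hp₂, hi₂⟩ := iter_symm (Ω := Ω) hN hd hpq hF
        (fun l => pt (η l)) _ hcne j
      rw [hΦ] at hrep
      simp only at hrep
      rw [← hrep] at hi₁ hi₂
      rw [hi₁, hi₂] at hpre
      have h1 : symm w₁ = (e₁⁻¹ * (c₀ * e₂)) • symm w₂ := by
        rw [mul_smul, mul_smul, ← hpre, smul_smul, inv_mul_cancel₀ he₁, one_smul]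
      refine range_fin _ (fun l => pt (η l)) hij (fun l => ?_) l
      obtain ⟨l', hl'⟩ := symm_inj h1 l
      refine ⟨l', ?_⟩
      rw [← hp₁, ← hp₂]
      exact pt_of_wd (hw₂ l) (hw₁ l') hl'
    intro l
    rw [hT', Set.Finite.mem_toFinset, hT]
    refine ⟨hper l, fun x hx => ?_⟩
    -- the degree
    apply root_deg hEB hG0 hGd hGE
    have h1 : hev N G (x, 1) = 0 := by
      rw [hGη, Pool.Agent.Q208.OP.hev_C_mul', Hv_hev, Finset.prod_eq_zero (mem_univ l), mul_zero]
      rw [hηt l, hx]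
      unfold wd vec
      simp only [Prod.smul_fst, Prod.smul_snd, smul_eq_mul]
      ring
    rwa [hev_one _ _ hGd] at h1
  -- counting
  have hsub : {z : Projectivization Ω (Fin (N + 1) → Ω) | PreN F z.rep ∧ DegN k z.rep B} ⊆
      (fun s : Fin N → Option Ω => if h : Φ s ≠ 0 then Projectivization.mk Ω (Φ s) h
        else Projectivization.mk Ω (fun _ => 1 : Fin (N + 1) → Ω)
          (fun h => one_ne_zero (congrFun h 0))) ''
        ((Fintype.piFinset fun _ : Fin N => T' : Finset (Fin N → Option Ω)) :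
          Set (Fin N → Option Ω)) := by
    intro z hz
    obtain ⟨s, hs, c, hc, hrep⟩ := himg z hz
    refine ⟨s, mem_coe.mpr hs, ?_⟩
    have hne : Φ s ≠ 0 := by
      intro h
      rw [h, smul_zero] at hrep
      exact z.rep_nonzero hrep
    simp only [dif_pos hne]
    rw [← z.mk_rep, Projectivization.mk_eq_mk_iff]
    refine ⟨(Units.mk0 c hc)⁻¹, ?_⟩
    rw [hrep, inv_smul_eq_iff]
    rfl
  refine (Set.encard_le_encard hsub).trans ((Set.encard_image_le _ _).trans ?_)
  rw [Set.encard_coe_eq_coe_finsetCard, Fintype.card_piFinset_const]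
  exact_mod_cast Nat.pow_le_pow_left hTc N

end

end Pool.Agent.Q103.OP.Sym
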