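import Pool.Agent.Q103.OP.Defs

/-!
# Project OP: THU (rigidity from RES, EMB and DER)
-/

set_option autoImplicit false

namespace Pool.Agent.Q103.OP.Thu

open Pool.Agent.Q103.OP Finset Polynomial

universe u

variable {K : Type u} [Field K]

/-- extension by zero -/
noncomputable def ex (P : Finset K) : (P → K) →ₗ[K] (K → K) := by
  classical
  exact
  { toFun := fun a x => if h : x ∈ P then a ⟨x, h⟩ else 0
    map_add' := fun a b => by
      funext x
      by_cases h : x ∈ P <;> simp [h]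
    map_smul' := fun c a => by
      funext x
      by_cases h : x ∈ P <;> simp [h] }

lemma ex_mem (P : Finset K) (a : P → K) (x : P) : ex P a x = a x := by
  simp [ex]

/-- restriction -/
def rs (P : Finset K) : (K → K) →ₗ[K] (P → K) where
  toFun := fun a x => a x
  map_add' := fun _ _ => rfl
  map_smul' := fun _ _ => rfl

lemma sum_congr' (P : Finset K) (a b : K → K) (h : ∀ x ∈ P, a x = b x) (g : K → K) :
    ∑ x ∈ P, a x * g x = ∑ x ∈ P, b x * g x :=
  Finset.sum_congr rfl fun x hx => by rw [h x hx]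

lemma Qd_congr (P : Finset K) (a b : K → K) (h : ∀ x ∈ P, a x = b x) (ha : Qd P a) : Qd P b := by
  obtain ⟨h0, h1, h2⟩ := ha
  refine ⟨?_, ?_, ?_⟩
  · rw [← h0]; exact Finset.sum_congr rfl fun x hx => (h x hx).symm
  · rw [← h1]; exact (sum_congr' P a b h fun x => x).symm
  · rw [← h2]; exact (sum_congr' P a b h fun x => x ^ 2).symm

lemma qd_congr (P : Finset K) (a b : K → K) (h : ∀ x ∈ P, a x = b x) (z : K) :
    qd P a z = qd P b z := by
  unfold qd
  exact Finset.sum_congr rfl fun x hx => by rw [h x hx]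

/-- the space of quadratic differentials -/
def V (P : Finset K) : Submodule K (P → K) where
  carrier := {a | Qd P (ex P a)}
  add_mem' := by
    rintro a b ⟨h0, h1, h2⟩ ⟨g0, g1, g2⟩
    refine ⟨?_, ?_, ?_⟩
    · simp only [map_add, Pi.add_apply, Finset.sum_add_distrib, h0, g0, add_zero]
    · simp only [map_add, Pi.add_apply, add_mul, Finset.sum_add_distrib, h1, g1, add_zero]
    · simp only [map_add, Pi.add_apply, add_mul, Finset.sum_add_distrib, h2, g2, add_zero]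
  zero_mem' := by
    refine ⟨?_, ?_, ?_⟩ <;> simp
  smul_mem' := by
    rintro c a ⟨h0, h1, h2⟩
    refine ⟨?_, ?_, ?_⟩
    · simp only [map_smul, Pi.smul_apply, smul_eq_mul, ← Finset.mul_sum, h0, mul_zero]
    · simp only [map_smul, Pi.smul_apply, smul_eq_mul, mul_assoc, ← Finset.mul_sum, h1, mul_zero]
    · simp only [map_smul, Pi.smul_apply, smul_eq_mul, mul_assoc, ← Finset.mul_sum, h2, mul_zero]

/-- the residues of the differential with four poles -/
lemma four (P : Finset K) (x₁ x₂ x₃ y : K) (h₁ : x₁ ∈ P) (h₂ : x₂ ∈ P) (h₃ : x₃ ∈ P) (h₄ : y ∈ P)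
    (h12 : x₁ ≠ x₂) (h13 : x₁ ≠ x₃) (h23 : x₂ ≠ x₃) (h1 : x₁ ≠ y) (h2 : x₂ ≠ y) (h3 : x₃ ≠ y) :
    ∃ (b : K → K) (c : K), c ≠ 0 ∧ Qd P b ∧ ∀ g : K → K, g x₁ = 0 → g x₂ = 0 → g x₃ = 0 →
      ∑ x ∈ P, b x * g x = c * g y := by
  classical
  obtain ⟨c₁, hc₁⟩ : ∃ c, c = 1 / ((x₁ - x₂) * (x₁ - x₃) * (x₁ - y)) := ⟨_, rfl⟩
  obtain ⟨c₂, hc₂⟩ : ∃ c, c = 1 / ((x₂ - x₁) * (x₂ - x₃) * (x₂ - y)) := ⟨_, rfl⟩
  obtain ⟨c₃, hc₃⟩ : ∃ c, c = 1 / ((x₃ - x₁) * (x₃ - x₂) * (x₃ - y)) := ⟨_, rfl⟩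
  obtain ⟨c₄, hc₄⟩ : ∃ c, c = 1 / ((y - x₁) * (y - x₂) * (y - x₃)) := ⟨_, rfl⟩
  have e12 : x₁ - x₂ ≠ 0 := sub_ne_zero.mpr h12
  have e13 : x₁ - x₃ ≠ 0 := sub_ne_zero.mpr h13
  have e1y : x₁ - y ≠ 0 := sub_ne_zero.mpr h1
  have e21 : x₂ - x₁ ≠ 0 := sub_ne_zero.mpr h12.symm
  have e23 : x₂ - x₃ ≠ 0 := sub_ne_zero.mpr h23
  have e2y : x₂ - y ≠ 0 := sub_ne_zero.mpr h2
  have e31 : x₃ - x₁ ≠ 0 := sub_ne_zero.mpr h13.symm
  have e32 : x₃ - x₂ ≠ 0 := sub_ne_zero.mpr h23.symm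
  have e3y : x₃ - y ≠ 0 := sub_ne_zero.mpr h3
  have ey1 : y - x₁ ≠ 0 := sub_ne_zero.mpr h1.symm
  have ey2 : y - x₂ ≠ 0 := sub_ne_zero.mpr h2.symm
  have ey3 : y - x₃ ≠ 0 := sub_ne_zero.mpr h3.symm
  have hsum : ∀ g : K → K, ∑ x ∈ P, ((if x = x₁ then c₁ else 0) + (if x = x₂ then c₂ else 0) +
      (if x = x₃ then c₃ else 0) + (if x = y then c₄ else 0)) * g x =
      c₁ * g x₁ + c₂ * g x₂ + c₃ * g x₃ + c₄ * g y := by
    intro g
    simp only [add_mul, Finset.sum_add_distrib, ite_mul, zero_mul, Finset.sum_ite_eq', h₁, h₂, h₃,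
      h₄, if_true]
  refine ⟨fun x => (if x = x₁ then c₁ else 0) + (if x = x₂ then c₂ else 0) +
    (if x = x₃ then c₃ else 0) + (if x = y then c₄ else 0), c₄, ?_, ⟨?_, ?_, ?_⟩, ?_⟩
  · rw [hc₄]
    exact one_div_ne_zero (mul_ne_zero (mul_ne_zero ey1 ey2) ey3)
  · have := hsum fun _ => 1
    simp only [mul_one] at this
    rw [this, hc₁, hc₂, hc₃, hc₄]
    field_simp
    ring
  · rw [hsum fun x => x, hc₁, hc₂, hc₃, hc₄]
    field_simp
    ring
  · rw [hsum fun x => x ^ 2, hc₁, hc₂, hc₃, hc₄]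
    field_simp
    ring
  · intro g g1 g2 g3
    rw [hsum g, g1, g2, g3]
    ring

theorem t_THU (hRES : S_RES.{u}) (hEMB : S_EMB.{u}) (hDER : S_DER.{u}) : S_THU.{u} := by
  classical
  intro K _ _ _ d p q P hP x₁ h₁ x₂ h₂ x₃ h₃ h12 h13 h23
  obtain ⟨T, hT⟩ := hRES K d p q P hP
  by_cases hfix : ∃ a : V P, a ≠ 0 ∧ ∀ x ∈ P, T (ex P a.1) x = ex P a.1 x
  · left
    obtain ⟨a, ha0, ha⟩ := hfix
    obtain ⟨hQ, hpush, -⟩ := hT _ a.2
    refine hEMB K d p q P hP (ex P a.1) ?_ a.2 fun w hw hw' => ?_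
    · by_contra hcon
      push Not at hcon
      apply ha0
      apply Subtype.ext
      funext x
      rw [← ex_mem P a.1 x]
      exact hcon x x.2
    · rw [hpush w hw hw']
      exact qd_congr P _ _ ha w
  · right
    push Not at hfix
    intro D d1 d2 d3
    -- the linear map
    obtain ⟨T', hT'⟩ : ∃ T' : V P →ₗ[K] V P, ∀ a : V P, ∀ x : P, (T' a).1 x = T (ex P a.1) x := by
      refine ⟨LinearMap.restrict ((rs P).comp (T.comp (ex P))) ?_, ?_⟩
      · intro a ha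
        refine Qd_congr P (T (ex P a)) _ (fun x hx => ?_) (hT _ ha).1
        exact (ex_mem P ((rs P).comp (T.comp (ex P)) a) ⟨x, hx⟩).symm
      · intro a x
        rfl
    have hinj : Function.Injective (T' - LinearMap.id : V P →ₗ[K] V P) := by
      rw [injective_iff_map_eq_zero]
      intro a ha
      by_contra ha0
      obtain ⟨x, hx, hne⟩ := hfix a ha0
      apply hne
      have h1 : (T' a).1 ⟨x, hx⟩ = a.1 ⟨x, hx⟩ := by
        have : T' a - a = 0 := ha
        rw [sub_eq_zero] at this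
        rw [this]
      rw [hT' a ⟨x, hx⟩] at h1
      rw [h1]
      exact (ex_mem P a.1 ⟨x, hx⟩).symm
    have hsurj : Function.Surjective (T' - LinearMap.id : V P →ₗ[K] V P) :=
      LinearMap.injective_iff_surjective.mp hinj
    have hkey : ∀ y ∈ P, D y = 0 := by
      intro y hy
      by_cases e1 : x₁ = y
      · rw [← e1]; exact d1
      by_cases e2 : x₂ = y
      · rw [← e2]; exact d2
      by_cases e3 : x₃ = y
      · rw [← e3]; exact d3
      obtain ⟨b, c, hc, hb, hbg⟩ := four P x₁ x₂ x₃ y h₁ h₂ h₃ hy h12 h13 h23 e1 e2 e3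
      have hbV : rs P b ∈ V P :=
        Qd_congr P b _ (fun x hx => (ex_mem P (rs P b) ⟨x, hx⟩).symm) hb
      obtain ⟨a, ha⟩ := hsurj ⟨rs P b, hbV⟩
      obtain ⟨-, -, hD⟩ := hT _ a.2
      have hab : ∀ x ∈ P, T (ex P a.1) x = b x + ex P a.1 x := by
        intro x hx
        have h1 : T' a - a = ⟨rs P b, hbV⟩ := ha
        have h2 : (T' a).1 ⟨x, hx⟩ - a.1 ⟨x, hx⟩ = b x := by
          have := congrArg (fun t : V P => t.1 ⟨x, hx⟩) h1
          exact this
        rw [hT' a ⟨x, hx⟩] at h2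
        rw [show ex P a.1 x = a.1 ⟨x, hx⟩ from ex_mem P a.1 ⟨x, hx⟩]
        exact sub_eq_iff_eq_add.mp h2
      have h3 := hD D
      rw [sum_congr' P _ _ hab] at h3
      simp only [add_mul, Finset.sum_add_distrib] at h3
      have h4 : ∑ x ∈ P, b x * D x = 0 := by
        have := h3
        rwa [add_eq_right] at this
      rw [hbg (fun x => D x) d1 d2 d3] at h4
      exact (mul_eq_zero.mp h4).resolve_left hc
    refine hDER K d p q P hP ?_ D hkey
    have : ({x₁, x₂, x₃} : Finset K) ⊆ P := by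
      intro x hx
      simp only [Finset.mem_insert, Finset.mem_singleton] at hx
      rcases hx with rfl | rfl | rfl <;> assumption
    have hcard : ({x₁, x₂, x₃} : Finset K).card = 3 := by
      rw [Finset.card_eq_three]
      exact ⟨x₁, x₂, x₃, h12, h13, h23, rfl⟩
    rw [← hcard]
    exact Finset.card_le_card this

end Pool.Agent.Q103.OP.Thu
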