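import Pool.Agent.Q103.OP.Bas

/-!
# Project OP: the ultraproduct argument for LCA
-/

set_option autoImplicit false

namespace Pool.Agent.Q103.OP.Ulb

open Pool.Agent.Q103.OP Pool.Agent.Q103.OP.Bas Finset Polynomial Pool.Agent.W277.UH
open Pool.Agent.Y706.CH (bK)

universe u

/-- a normalised map with small multipliers -/
structure NS (d : ℕ) (A : ℕ → ℝ) (Bf : ℕ → ℕ) (D₀ : ℕ) (D₂ : ℕ → ℕ) (C₁ : ℕ → ℝ) (B : ℕ) where
  Ω : Type u
  [fld : Field Ω]
  [cz : CharZero Ω]
  [ac : IsAlgClosed Ω]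
  S : HSys Ω A Bf
  p : Polynomial Ω
  q : Polynomial Ω
  H : ℝ
  Hpos : 0 < H
  rat : Rat d p q
  tri : Tri d p q
  one : ∃ n, p.coeff n = 1 ∨ q.coeff n = 1
  deg : ∀ n, S.dg (p.coeff n) ≤ D₀ ∧ S.dg (q.coeff n) ≤ D₀
  big : ∃ n, H ≤ S.h (p.coeff n) ∨ H ≤ S.h (q.coeff n)
  mul : ∀ m, 1 ≤ m → D₂ m ≤ B → ∀ (Z : Ω × Ω) (μ : Ω), Z ≠ 0 → μ ≠ 0 →
    (bK d p q)^[m] Z = μ • Z → S.dg (mlt d p q m Z μ) ≤ D₂ m ∧
      ∀ N : ℕ, 4 ≤ N → ((N : ℝ) - 3) * S.h (mlt d p q m Z μ) ≤
        C₁ m * H + C₁ m * (d : ℝ) ^ (m * N) * (H / B)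
  nlat : ¬ Lat d p q

attribute [instance] NS.fld NS.cz NS.ac

section ring

variable {R T : Type*} [CommRing R] [CommRing T] (φ : R →+* T)

/-- the image of a vector -/
def vr (Z : R × R) : T × T := (φ Z.1, φ Z.2)

lemma hev_r (d : ℕ) (p : R[X]) (Z : R × R) : hev d (p.map φ) (vr φ Z) = φ (hev d p Z) := by
  unfold hev vr
  rw [map_sum]
  exact Finset.sum_congr rfl fun i _ => by simp

/-- the map on vectors over a ring -/
def bR (d : ℕ) (p q : R[X]) (Z : R × R) : R × R := (hev d p Z, hev d q Z)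

/-- the Wronskian over a ring -/
noncomputable def WR (p q : R[X]) : R[X] := derivative p * q - p * derivative q

lemma WR_map (p q : R[X]) : (WR p q).map φ = WR (p.map φ) (q.map φ) := by
  unfold WR
  rw [Polynomial.map_sub, Polynomial.map_mul, Polynomial.map_mul, derivative_map, derivative_map]

lemma bR_r (d : ℕ) (p q : R[X]) (Z : R × R) :
    bR d (p.map φ) (q.map φ) (vr φ Z) = vr φ (bR d p q Z) := by
  unfold bR
  rw [hev_r, hev_r]
  rfl

lemma bR_iter (d : ℕ) (p q : R[X]) (Z : R × R) (n : ℕ) :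
    (bR d (p.map φ) (q.map φ))^[n] (vr φ Z) = vr φ ((bR d p q)^[n] Z) := by
  induction n with
  | zero => rfl
  | succ n ih => rw [Function.iterate_succ_apply', ih, bR_r, Function.iterate_succ_apply']

lemma hc_r (e : ℕ) (r p q : R[X]) :
    (hev e (r.map C) (p, q)).map φ = hev e ((r.map φ).map C) (p.map φ, q.map φ) := by
  unfold hev
  rw [Polynomial.map_sum]
  exact Finset.sum_congr rfl fun i _ => by simp

end ring

lemma bR_eq {K : Type*} [Field K] (d : ℕ) (p q : K[X]) : bR d p q = bK d p q := rfl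

lemma WR_eq {K : Type*} [Field K] (p q : K[X]) : WR p q = Wr p q := rfl

/-- the three points -/
def v3 (R : Type*) [CommRing R] : Fin 3 → R × R := ![(0, 1), (1, 1), (1, 0)]

lemma vr_v3 {R T : Type*} [CommRing R] [CommRing T] (φ : R →+* T) (j : Fin 3) :
    vr φ (v3 R j) = v3 T j := by
  unfold vr v3
  fin_cases j <;> simp

lemma v3_inj (K : Type*) [Field K] : Function.Injective (v3 K) := by
  intro i j h
  unfold v3 at h
  fin_cases i <;> fin_cases j <;> simp_all

lemma v3_mem (K : Type*) [Field K] (x : K × K) :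
    x ∈ ({(0, 1), (1, 1), (1, 0)} : Set (K × K)) ↔ ∃ j, v3 K j = x := by
  constructor
  · intro h
    simp only [Set.mem_insert_iff, Set.mem_singleton_iff] at h
    rcases h with rfl | rfl | rfl
    · exact ⟨0, rfl⟩
    · exact ⟨1, rfl⟩
    · exact ⟨2, rfl⟩
  · rintro ⟨j, rfl⟩
    unfold v3
    fin_cases j <;> simp

/-- the determinant over a ring -/
def wr {R : Type*} [CommRing R] (X Y : R × R) : R := X.1 * Y.2 - X.2 * Y.1

lemma wr_r {R T : Type*} [CommRing R] [CommRing T] (φ : R →+* T) (X Y : R × R) :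
    wr (vr φ X) (vr φ Y) = φ (wr X Y) := by
  unfold wr vr
  simp

lemma wr_eq {K : Type*} [Field K] (X Y : K × K) : wr X Y = wd X Y := rfl

lemma tri_iff {K : Type*} [Field K] (d : ℕ) (p q : K[X]) : Tri d p q ↔
    ∃ σ : Fin 3 → Fin 3, Function.Injective σ ∧
      ((∀ i, wr (bR d p q (v3 K (σ i))) (v3 K (σ i)) = 0) ∨
      (wr (bR d p q (v3 K (σ 0))) (v3 K (σ 0)) = 0 ∧ wr (bR d p q (v3 K (σ 1))) (v3 K (σ 0)) = 0 ∧
        wr (bR d p q (v3 K (σ 2))) (v3 K (σ 1)) = 0)) := by
  constructor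
  · rintro ⟨x, hinj, hmem, hT⟩
    have h1 : ∀ i, ∃ j, v3 K j = x i := fun i => (v3_mem K _).mp (hmem i)
    choose σ hσ using h1
    refine ⟨σ, ?_, ?_⟩
    · intro i j hij
      apply hinj
      rw [← hσ, ← hσ, hij]
    · simp only [hσ]
      exact hT
  · rintro ⟨σ, hσ, hT⟩
    exact ⟨fun i => v3 K (σ i), (v3_inj K).comp hσ, fun i => (v3_mem K _).mpr ⟨σ i, rfl⟩, hT⟩

/-- finitely many colours -/
lemma colour {T : Type*} [Finite T] (U : Ultrafilter ℕ) (P : ℕ → T → Prop)
    (h : ∀ᶠ i in (U : Filter ℕ), ∃ c, P i c) : ∃ c, ∀ᶠ i in (U : Filter ℕ), P i c := by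
  by_contra hcon
  push Not at hcon
  have h2 := Filter.eventually_all.mpr hcon
  obtain ⟨i, hi1, hi2⟩ := (h.and h2).exists
  obtain ⟨c, hc⟩ := hi1
  exact hi2 c hc

theorem ultra (hULT : S_ULT.{u}) (hKAP : S_KAP.{u}) (hMCM : S_MCM.{u}) (hISO : S_ISO.{u})
    (d : ℕ) (hd : 2 ≤ d) (A : ℕ → ℝ) (hA : ∀ D, 0 ≤ A D) (Bf : ℕ → ℕ) (D₀ : ℕ) (D₂ : ℕ → ℕ)
    (C₁ : ℕ → ℝ) (X : ∀ i : ℕ, NS.{u} d A Bf D₀ D₂ C₁ i) : False := by
  classical
  obtain ⟨U, hU⟩ : ∃ U : Ultrafilter ℕ, (U : Filter ℕ) ≤ Filter.atTop :=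
    ⟨Filter.hyperfilter ℕ, Nat.hyperfilter_le_atTop⟩
  obtain ⟨Λ, iF, iC, iA, π, hsurj, hker⟩ := hULT (fun i => (X i).Ω) U
  have hpos : ∀ i, 0 < (X i).H := fun i => (X i).Hpos
  obtain ⟨κ, hκA, hκb, hκ⟩ := hKAP A Bf hA (fun i => (X i).Ω) U Λ π hsurj hker
    (fun i => (X i).S) (fun i => (X i).H) hpos
  have hpd : ∀ i, (X i).p.natDegree ≤ d := fun i =>
    (le_max_left _ _).trans (X i).rat.2.le
  have hqd : ∀ i, (X i).q.natDegree ≤ d := fun i =>
    (le_max_right _ _).trans (X i).rat.2.le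
  have heq : ∀ x y : (∀ i, (X i).Ω), π x = π y ↔ ∀ᶠ i in (U : Filter ℕ), x i = y i := by
    intro x y
    rw [← sub_eq_zero, ← map_sub, hker]
    constructor
    · intro h
      filter_upwards [h] with i hi
      exact sub_eq_zero.mp hi
    · intro h
      filter_upwards [h] with i hi
      exact sub_eq_zero.mpr hi
  -- families of polynomials
  have hpoly : ∀ (N : ℕ) (f : ∀ i, Polynomial ((X i).Ω)), (∀ i, (f i).natDegree ≤ N) →
      ∃ F : Polynomial (∀ i, (X i).Ω), F.natDegree ≤ N ∧
        ∀ i, F.map (Pi.evalRingHom (fun i => (X i).Ω) i) = f i := by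
    intro N f hf
    refine ⟨∑ n ∈ range (N + 1), monomial n (fun i => (f i).coeff n), ?_, ?_⟩
    · refine natDegree_sum_le_of_forall_le _ _ fun n hn => ?_
      exact (natDegree_monomial_le _).trans (by
        have := mem_range.mp hn
        omega)
    · intro i
      rw [Polynomial.map_sum]
      simp only [map_monomial, Pi.evalRingHom_apply]
      exact ((f i).as_sum_range' (N + 1) (by have := hf i; omega)).symm
  have hlift : ∀ (N : ℕ) (f : Polynomial Λ), f.natDegree ≤ N →
      ∃ F : Polynomial (∀ i, (X i).Ω), F.natDegree ≤ N ∧ F.map π = f := by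
    intro N f hf
    choose g hg using fun n => hsurj (f.coeff n)
    refine ⟨∑ n ∈ range (N + 1), monomial n (g n), ?_, ?_⟩
    · refine natDegree_sum_le_of_forall_le _ _ fun n hn => ?_
      exact (natDegree_monomial_le _).trans (by
        have := mem_range.mp hn
        omega)
    · rw [Polynomial.map_sum]
      simp only [map_monomial, hg]
      exact (f.as_sum_range' (N + 1) (by omega)).symm
  have hzero : ∀ G : Polynomial (∀ i, (X i).Ω), G.map π = 0 ↔
      ∀ᶠ i in (U : Filter ℕ), G.map (Pi.evalRingHom (fun i => (X i).Ω) i) = 0 := by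
    intro G
    constructor
    · intro h
      have h1 : ∀ n ∈ range (G.natDegree + 1), ∀ᶠ i in (U : Filter ℕ), G.coeff n i = 0 := by
        intro n _
        rw [← hker, ← coeff_map, h, coeff_zero]
      have h2 := (Filter.eventually_all_finset (range (G.natDegree + 1))).mpr h1
      filter_upwards [h2] with i hi
      ext n
      rw [coeff_map, coeff_zero, Pi.evalRingHom_apply]
      by_cases hn : n ≤ G.natDegree
      · exact hi n (mem_range.mpr (by omega))
      · rw [coeff_eq_zero_of_natDegree_lt (by omega)]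
        rfl
    · intro h
      ext n
      rw [coeff_map, coeff_zero, hker]
      filter_upwards [h] with i hi
      have := congrArg (fun g => Polynomial.coeff g n) hi
      rw [coeff_map] at this
      simpa using this
  obtain ⟨P, hPd, hP⟩ := hpoly d (fun i => (X i).p) hpd
  obtain ⟨Q, hQd, hQ⟩ := hpoly d (fun i => (X i).q) hqd
  have hPc : ∀ n i, P.coeff n i = (X i).p.coeff n := by
    intro n i
    have := congrArg (fun g => Polynomial.coeff g n) (hP i)
    rw [coeff_map] at this
    simpa using this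
  have hQc : ∀ n i, Q.coeff n i = (X i).q.coeff n := by
    intro n i
    have := congrArg (fun g => Polynomial.coeff g n) (hQ i)
    rw [coeff_map] at this
    simpa using this
  -- the limit is a rational map of degree `d`
  have hrat : Rat d (P.map π) (Q.map π) := by
    have hp1 : (P.map π).natDegree ≤ d := natDegree_map_le.trans hPd
    have hq1 : (Q.map π).natDegree ≤ d := natDegree_map_le.trans hQd
    refine ⟨?_, ?_⟩
    · refine (isCoprime_iff_aeval_ne_zero_of_isAlgClosed (k := Λ) Λ _ _).mpr ?_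
      intro x
      by_contra hcon
      push Not at hcon
      obtain ⟨h1, h2⟩ := hcon
      obtain ⟨ξ, rfl⟩ := hsurj x
      rw [coe_aeval_eq_eval] at h1 h2
      rw [← coe_evalRingHom] at h1 h2
      have e1 : π (P.eval ξ) = 0 := by
        rw [← h1, coe_evalRingHom, eval_map, eval₂_at_apply]
      have e2 : π (Q.eval ξ) = 0 := by
        rw [← h2, coe_evalRingHom, eval_map, eval₂_at_apply]
      rw [hker] at e1 e2
      obtain ⟨i, hi1, hi2⟩ := (e1.and e2).exists
      have g1 : (X i).p.eval (ξ i) = 0 := by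
        rw [← hP i, eval_map]
        have := eval₂_at_apply (p := P) (Pi.evalRingHom (fun i => (X i).Ω) i) ξ
        rw [Pi.evalRingHom_apply] at this
        rw [this]
        exact hi1
      have g2 : (X i).q.eval (ξ i) = 0 := by
        rw [← hQ i, eval_map]
        have := eval₂_at_apply (p := Q) (Pi.evalRingHom (fun i => (X i).Ω) i) ξ
        rw [Pi.evalRingHom_apply] at this
        rw [this]
        exact hi2
      obtain ⟨a, b, hab⟩ := (X i).rat.1
      have := congrArg (eval (ξ i)) hab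
      rw [eval_add, eval_mul, eval_mul, g1, g2, mul_zero, mul_zero, add_zero, eval_one] at this
      exact zero_ne_one this
    · refine le_antisymm (max_le hp1 hq1) ?_
      by_contra hcon
      push Not at hcon
      rw [max_lt_iff] at hcon
      have e1 : π (P.coeff d) = 0 := by
        rw [← coeff_map]
        exact coeff_eq_zero_of_natDegree_lt hcon.1
      have e2 : π (Q.coeff d) = 0 := by
        rw [← coeff_map]
        exact coeff_eq_zero_of_natDegree_lt hcon.2
      rw [hker] at e1 e2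
      obtain ⟨i, hi1, hi2⟩ := (e1.and e2).exists
      rw [hPc] at hi1
      rw [hQc] at hi2
      have hm := (X i).rat.2
      rcases le_total (X i).p.natDegree (X i).q.natDegree with hle | hle
      · have hqd' : (X i).q.natDegree = d := (max_eq_right hle).symm.trans hm
        have : (X i).q = 0 := leadingCoeff_eq_zero.mp (by rw [leadingCoeff, hqd']; exact hi2)
        rw [this, natDegree_zero] at hqd'
        omega
      · have hpd' : (X i).p.natDegree = d := (max_eq_left hle).symm.trans hm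
        have : (X i).p = 0 := leadingCoeff_eq_zero.mp (by rw [leadingCoeff, hpd']; exact hi1)
        rw [this, natDegree_zero] at hpd'
        omega
  -- multipliers
  have hmul : ∀ m : ℕ, 1 ≤ m → ∀ (Z : Λ × Λ) (μ : Λ), Z ≠ 0 → μ ≠ 0 →
      (bK d (P.map π) (Q.map π))^[m] Z = μ • Z →
      mlt d (P.map π) (Q.map π) m Z μ ∈ κ := by
    intro m hm Z μ hZ hμ hper
    obtain ⟨z1, hz1⟩ := hsurj Z.1
    obtain ⟨z2, hz2⟩ := hsurj Z.2
    obtain ⟨ν, rfl⟩ := hsurj μ
    obtain ⟨Y, hY⟩ : ∃ Y : (∀ i, (X i).Ω) × (∀ i, (X i).Ω), Y = (z1, z2) := ⟨_, rfl⟩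
    have hYZ : vr π Y = Z := by
      rw [hY]
      exact Prod.ext hz1 hz2
    have hν : ∀ᶠ i in (U : Filter ℕ), ν i ≠ 0 := by
      rw [Ultrafilter.eventually_not (p := fun i => ν i = 0), ← hker]
      exact hμ
    have hYi : ∀ᶠ i in (U : Filter ℕ), ((Y.1 i, Y.2 i) : (X i).Ω × (X i).Ω) ≠ 0 := by
      rw [Ultrafilter.eventually_not (p := fun i => ((Y.1 i, Y.2 i) : (X i).Ω × (X i).Ω) = 0)]
      intro h
      apply hZ
      rw [← hYZ]
      refine Prod.ext ?_ ?_
      · refine (hker Y.1).mpr ?_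
        filter_upwards [h] with i hi
        exact congrArg Prod.fst hi
      · refine (hker Y.2).mpr ?_
        filter_upwards [h] with i hi
        exact congrArg Prod.snd hi
    -- components of iterates
    have hit : ∀ n i, (bK d (X i).p (X i).q)^[n] (Y.1 i, Y.2 i) =
        (((bR d P Q)^[n] Y).1 i, ((bR d P Q)^[n] Y).2 i) := by
      intro n i
      have h1 := bR_iter (Pi.evalRingHom (fun i => (X i).Ω) i) d P Q Y n
      rw [hP i, hQ i] at h1
      exact h1
    have hperi : ∀ᶠ i in (U : Filter ℕ), (bK d (X i).p (X i).q)^[m] (Y.1 i, Y.2 i) =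
        ν i • ((Y.1 i, Y.2 i) : (X i).Ω × (X i).Ω) := by
      have h1 := bR_iter π d P Q Y m
      rw [hYZ] at h1
      have h2 : vr π ((bR d P Q)^[m] Y) = π ν • Z := by
        rw [← h1]
        exact hper
      rw [← hYZ] at h2
      have e1 : π ((bR d P Q)^[m] Y).1 = π (ν * Y.1) := by
        rw [map_mul]
        exact congrArg Prod.fst h2
      have e2 : π ((bR d P Q)^[m] Y).2 = π (ν * Y.2) := by
        rw [map_mul]
        exact congrArg Prod.snd h2
      rw [heq] at e1 e2
      filter_upwards [e1, e2] with i h1 h2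
      rw [hit]
      exact Prod.ext h1 h2
    obtain ⟨lam, hlam⟩ : ∃ lam : (∀ i, (X i).Ω), lam = fun i =>
      mlt d (X i).p (X i).q m (Y.1 i, Y.2 i) (ν i) := ⟨_, rfl⟩
    -- the product of the values of the Wronskian
    obtain ⟨J, hJ⟩ : ∃ J : (∀ i, (X i).Ω), J = ∏ j ∈ range m,
      hev (2 * d - 2) (WR P Q) ((bR d P Q)^[j] Y) := ⟨_, rfl⟩
    have hJi : ∀ i, J i = ∏ j ∈ range m, Jv d (X i).p (X i).q
        ((bK d (X i).p (X i).q)^[j] (Y.1 i, Y.2 i)) := by
      intro i
      have h1 : Pi.evalRingHom (fun i => (X i).Ω) i J = ∏ j ∈ range m,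
          Pi.evalRingHom (fun i => (X i).Ω) i (hev (2 * d - 2) (WR P Q) ((bR d P Q)^[j] Y)) := by
        rw [hJ, map_prod]
      rw [Pi.evalRingHom_apply] at h1
      rw [h1]
      refine Finset.prod_congr rfl fun j _ => ?_
      rw [← hev_r, WR_map, hP i, hQ i, hit j i]
      rfl
    have hJπ : π J = ∏ j ∈ range m, Jv d (P.map π) (Q.map π)
        ((bK d (P.map π) (Q.map π))^[j] Z) := by
      rw [hJ, map_prod]
      refine Finset.prod_congr rfl fun j _ => ?_
      rw [← hev_r, WR_map, ← bR_iter, hYZ]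
      rfl
    have hlamπ : π lam = mlt d (P.map π) (Q.map π) m Z (π ν) := by
      unfold mlt
      rw [eq_div_iff (pow_ne_zero 2 hμ), ← hJπ, ← map_pow, ← map_mul, heq]
      filter_upwards [hν] with i hi
      rw [hJi i]
      have : (lam * ν ^ 2) i = lam i * ν i ^ 2 := rfl
      rw [this, hlam]
      simp only
      unfold mlt
      exact div_mul_cancel₀ _ (pow_ne_zero 2 hi)
    rw [← hlamπ]
    have hBev : ∀ B₀ : ℕ, ∀ᶠ i in (U : Filter ℕ), B₀ ≤ i := fun B₀ =>
      hU (Filter.eventually_ge_atTop B₀)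
    have hmi : ∀ᶠ i in (U : Filter ℕ), (X i).S.dg (lam i) ≤ D₂ m ∧
        ∀ N : ℕ, 4 ≤ N → ((N : ℝ) - 3) * (X i).S.h (lam i) ≤
          C₁ m * (X i).H + C₁ m * (d : ℝ) ^ (m * N) * ((X i).H / i) := by
      filter_upwards [hBev (D₂ m), hν, hYi, hperi] with i h1 h2 h3 h4
      rw [hlam]
      exact (X i).mul m hm h1 (Y.1 i, Y.2 i) (ν i) h3 h2 h4
    refine (hκ lam ⟨D₂ m, hmi.mono fun i hi => hi.1⟩).mpr ?_
    intro ε hε
    -- choose `N` large, then `i` large
    obtain ⟨N₀, hN₀⟩ := exists_nat_gt (2 * |C₁ m| / ε)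
    obtain ⟨N, hN⟩ : ∃ N, N = N₀ + 4 := ⟨_, rfl⟩
    obtain ⟨i₀, hi₀⟩ := exists_nat_gt (2 * (|C₁ m| * (d : ℝ) ^ (m * N)) / ε)
    filter_upwards [hmi, hBev (i₀ + 1)] with i h1 h2
    have h3 := h1.2 N (by omega)
    have hHi := hpos i
    have hi1 : (1 : ℝ) ≤ i := by
      have : 1 ≤ i := by omega
      exact_mod_cast this
    have hi0 : (0 : ℝ) < i := by linarith
    have hN3 : (1 : ℝ) ≤ (N : ℝ) - 3 := by
      rw [hN]
      push_cast
      have : (0 : ℝ) ≤ N₀ := Nat.cast_nonneg _
      linarith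
    have hNN : (N₀ : ℝ) ≤ (N : ℝ) - 3 := by
      rw [hN]
      push_cast
      linarith
    have hb1 : C₁ m * (X i).H ≤ ε / 2 * ((N : ℝ) - 3) * (X i).H := by
      have h4 : C₁ m ≤ ε / 2 * ((N : ℝ) - 3) := by
        have h5 : 2 * |C₁ m| < N₀ * ε := by
          rwa [div_lt_iff₀ hε] at hN₀
        have h6 : C₁ m ≤ |C₁ m| := le_abs_self _
        have h7 : (N₀ : ℝ) * ε ≤ ((N : ℝ) - 3) * ε := mul_le_mul_of_nonneg_right hNN hε.le
        linarith
      exact mul_le_mul_of_nonneg_right h4 hHi.le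
    have hb2 : C₁ m * (d : ℝ) ^ (m * N) * ((X i).H / i) ≤ ε / 2 * (X i).H := by
      have h5 : 2 * (|C₁ m| * (d : ℝ) ^ (m * N)) < i₀ * ε := by
        rwa [div_lt_iff₀ hε] at hi₀
      have h6 : C₁ m * (d : ℝ) ^ (m * N) ≤ |C₁ m| * (d : ℝ) ^ (m * N) :=
        mul_le_mul_of_nonneg_right (le_abs_self _) (by positivity)
      have h7 : (i₀ : ℝ) * ε ≤ i * ε := by
        refine mul_le_mul_of_nonneg_right ?_ hε.le
        exact_mod_cast (by omega : i₀ ≤ i)
      have h8 : C₁ m * (d : ℝ) ^ (m * N) ≤ ε / 2 * i := by linarith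
      calc C₁ m * (d : ℝ) ^ (m * N) * ((X i).H / i) ≤ ε / 2 * i * ((X i).H / i) :=
            mul_le_mul_of_nonneg_right h8 (by positivity)
        _ = ε / 2 * (X i).H := by field_simp
    have h9 : ((N : ℝ) - 3) * (X i).S.h (lam i) ≤ ((N : ℝ) - 3) * (ε * (X i).H) := by
      have h10 : ε / 2 * (X i).H ≤ ε / 2 * ((N : ℝ) - 3) * (X i).H := by
        have : ε / 2 * 1 ≤ ε / 2 * ((N : ℝ) - 3) := mul_le_mul_of_nonneg_left hN3 (by positivity)
        calc ε / 2 * (X i).H = ε / 2 * 1 * (X i).H := by ring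
          _ ≤ _ := mul_le_mul_of_nonneg_right this hHi.le
      nlinarith
    exact le_of_mul_le_mul_left h9 (by linarith)
  rcases hMCM Λ κ d hd (P.map π) (Q.map π) hrat hmul with hcc | hLat
  · -- isotrivial limit
    have htri : Tri d (P.map π) (Q.map π) := by
      have h1 : ∀ᶠ i in (U : Filter ℕ), ∃ c : (Fin 3 → Fin 3) × Bool, Function.Injective c.1 ∧
          ((c.2 = true ∧ ∀ j, wr (bR d (X i).p (X i).q (v3 _ (c.1 j))) (v3 _ (c.1 j)) = 0) ∨
          (c.2 = false ∧ (wr (bR d (X i).p (X i).q (v3 _ (c.1 0))) (v3 _ (c.1 0)) = 0 ∧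
            wr (bR d (X i).p (X i).q (v3 _ (c.1 1))) (v3 _ (c.1 0)) = 0 ∧
            wr (bR d (X i).p (X i).q (v3 _ (c.1 2))) (v3 _ (c.1 1)) = 0))) := by
        refine Filter.Eventually.of_forall fun i => ?_
        obtain ⟨σ, hσ, hT⟩ := (tri_iff d _ _).mp (X i).tri
        rcases hT with hT | hT
        · exact ⟨(σ, true), hσ, Or.inl ⟨rfl, hT⟩⟩
        · exact ⟨(σ, false), hσ, Or.inr ⟨rfl, hT⟩⟩
      obtain ⟨c, hc⟩ := colour U _ h1
      have hlim : ∀ j l : Fin 3, (∀ᶠ i in (U : Filter ℕ),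
          wr (bR d (X i).p (X i).q (v3 _ j)) (v3 _ l) = 0) →
          wr (bR d (P.map π) (Q.map π) (v3 _ j)) (v3 _ l) = 0 := by
        intro j l h
        rw [← vr_v3 π, ← vr_v3 π, bR_r, wr_r, hker]
        filter_upwards [h] with i hi
        rw [← vr_v3 (Pi.evalRingHom (fun i => (X i).Ω) i), ← vr_v3 (Pi.evalRingHom (fun i => (X i).Ω) i),
          ← hP i, ← hQ i, bR_r, wr_r] at hi
        exact hi
      rw [tri_iff]
      obtain ⟨i, hi⟩ := hc.exists
      refine ⟨c.1, hi.1, ?_⟩
      rcases hb : c.2 with _ | _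
      · right
        refine ⟨hlim _ _ ?_, hlim _ _ ?_, hlim _ _ ?_⟩
        · filter_upwards [hc] with i hi
          rcases hi.2 with h | h
          · rw [hb] at h
            exact absurd h.1 (by decide)
          · exact h.2.1
        · filter_upwards [hc] with i hi
          rcases hi.2 with h | h
          · rw [hb] at h
            exact absurd h.1 (by decide)
          · exact h.2.2.1
        · filter_upwards [hc] with i hi
          rcases hi.2 with h | h
          · rw [hb] at h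
            exact absurd h.1 (by decide)
          · exact h.2.2.2
      · left
        intro j
        refine hlim _ _ ?_
        filter_upwards [hc] with i hi
        rcases hi.2 with h | h
        · exact h.2 j
        · rw [hb] at h
          exact absurd h.1 (by decide)
    have hone : ∃ n, (P.map π).coeff n = 1 ∨ (Q.map π).coeff n = 1 := by
      have h1 : ∀ᶠ i in (U : Filter ℕ), ∃ c : Fin (d + 1) × Bool,
          (c.2 = true ∧ (X i).p.coeff c.1 = 1) ∨ (c.2 = false ∧ (X i).q.coeff c.1 = 1) := by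
        refine Filter.Eventually.of_forall fun i => ?_
        obtain ⟨n, hn⟩ := (X i).one
        rcases hn with hn | hn
        · have hnd : n < d + 1 := by
            by_contra h
            rw [coeff_eq_zero_of_natDegree_lt (by have := hpd i; omega)] at hn
            exact zero_ne_one hn
          exact ⟨(⟨n, hnd⟩, true), Or.inl ⟨rfl, hn⟩⟩
        · have hnd : n < d + 1 := by
            by_contra h
            rw [coeff_eq_zero_of_natDegree_lt (by have := hqd i; omega)] at hn
            exact zero_ne_one hn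
          exact ⟨(⟨n, hnd⟩, false), Or.inr ⟨rfl, hn⟩⟩
      obtain ⟨c, hc⟩ := colour U _ h1
      refine ⟨c.1, ?_⟩
      rcases hb : c.2 with _ | _
      · right
        rw [coeff_map, ← map_one π, heq]
        filter_upwards [hc] with i hi
        rcases hi with h | h
        · rw [hb] at h
          exact absurd h.1 (by decide)
        · rw [hQc]
          exact h.2
      · left
        rw [coeff_map, ← map_one π, heq]
        filter_upwards [hc] with i hi
        rcases hi with h | h
        · rw [hPc]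
          exact h.2
        · rw [hb] at h
          exact absurd h.1 (by decide)
    have hall := hISO Λ κ d hd (P.map π) (Q.map π) hrat htri hone hcc
    -- some coefficient has large height
    have h1 : ∀ᶠ i in (U : Filter ℕ), ∃ c : Fin (d + 1) × Bool,
        (c.2 = true ∧ (X i).H ≤ (X i).S.h ((X i).p.coeff c.1)) ∨
        (c.2 = false ∧ (X i).H ≤ (X i).S.h ((X i).q.coeff c.1)) := by
      refine Filter.Eventually.of_forall fun i => ?_
      have h0 := (X i).S.zero.2
      have hHi := hpos i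
      obtain ⟨n, hn⟩ := (X i).big
      rcases hn with hn | hn
      · have hnd : n < d + 1 := by
          by_contra h
          rw [coeff_eq_zero_of_natDegree_lt (by have := hpd i; omega)] at hn
          linarith
        exact ⟨(⟨n, hnd⟩, true), Or.inl ⟨rfl, hn⟩⟩
      · have hnd : n < d + 1 := by
          by_contra h
          rw [coeff_eq_zero_of_natDegree_lt (by have := hqd i; omega)] at hn
          linarith
        exact ⟨(⟨n, hnd⟩, false), Or.inr ⟨rfl, hn⟩⟩
    obtain ⟨c, hc⟩ := colour U _ h1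
    rcases hb : c.2 with _ | _
    · have h2 := (hall c.1).2
      rw [coeff_map] at h2
      have h3 := (hκ (Q.coeff c.1) ⟨D₀, Filter.Eventually.of_forall fun i => by
        rw [hQc]
        exact ((X i).deg _).2⟩).mp h2 (1 / 2) (by norm_num)
      obtain ⟨i, hi1, hi2⟩ := (h3.and hc).exists
      have hHi := hpos i
      rcases hi2 with h | h
      · rw [hb] at h
        exact absurd h.1 (by decide)
      · rw [hQc] at hi1
        linarith [h.2]
    · have h2 := (hall c.1).1
      rw [coeff_map] at h2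
      have h3 := (hκ (P.coeff c.1) ⟨D₀, Filter.Eventually.of_forall fun i => by
        rw [hPc]
        exact ((X i).deg _).1⟩).mp h2 (1 / 2) (by norm_num)
      obtain ⟨i, hi1, hi2⟩ := (h3.and hc).exists
      have hHi := hpos i
      rcases hi2 with h | h
      · rw [hPc] at hi1
        linarith [h.2]
      · rw [hb] at h
        exact absurd h.1 (by decide)
  · -- Lattes limit
    obtain ⟨e, r, s, hr, hs, hre, hse, hid⟩ := hLat
    obtain ⟨r', hr'd, hr'⟩ := hlift e r hre
    obtain ⟨s', hs'd, hs'⟩ := hlift e s hse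
    have h1 : (hev e (r'.map C) (P, Q) * WR P Q ^ 2 * s' -
        C (fun i => ((d : ℕ) : (X i).Ω)) * r' * hev e (s'.map C) (P, Q) * Q ^ 4).map π = 0 := by
      rw [Polynomial.map_sub, Polynomial.map_mul, Polynomial.map_mul, Polynomial.map_pow, hc_r,
        WR_map, Polynomial.map_mul, Polynomial.map_mul, Polynomial.map_mul, Polynomial.map_pow,
        hc_r, Polynomial.map_C, hr', hs', sub_eq_zero]
      have h2 : π (fun i => ((d : ℕ) : (X i).Ω)) = ((d : ℕ) : Λ) := by
        rw [← map_natCast π]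
        rfl
      rw [h2]
      exact hid
    rw [hzero] at h1
    have hr0 : ∀ᶠ i in (U : Filter ℕ), r'.map (Pi.evalRingHom (fun i => (X i).Ω) i) ≠ 0 := by
      rw [Ultrafilter.eventually_not
        (p := fun i => r'.map (Pi.evalRingHom (fun i => (X i).Ω) i) = 0), ← hzero, hr']
      exact hr
    have hs0 : ∀ᶠ i in (U : Filter ℕ), s'.map (Pi.evalRingHom (fun i => (X i).Ω) i) ≠ 0 := by
      rw [Ultrafilter.eventually_not
        (p := fun i => s'.map (Pi.evalRingHom (fun i => (X i).Ω) i) = 0), ← hzero, hs']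
      exact hs
    obtain ⟨i, hi1, hi2, hi3⟩ := (h1.and (hr0.and hs0)).exists
    apply (X i).nlat
    refine ⟨e, _, _, hi2, hi3, natDegree_map_le.trans hr'd, natDegree_map_le.trans hs'd, ?_⟩
    rw [Polynomial.map_sub, Polynomial.map_mul, Polynomial.map_mul, Polynomial.map_pow, hc_r,
      WR_map, Polynomial.map_mul, Polynomial.map_mul, Polynomial.map_mul, Polynomial.map_pow,
      hc_r, Polynomial.map_C, sub_eq_zero, hP i, hQ i] at hi1
    exact hi1

end Pool.Agent.Q103.OP.Ulb
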